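import Pool.Agent.MP_9ab903_nt.AN.A5

set_option autoImplicit false

open scoped ComplexConjugate
open Filter Topology MeasureTheory

namespace CM27

/-! ## [AN-P2] the complex period (file P2.lean; uses A2, A4, A5)

`S = {a + b ω : 0 < a < 1, 0 < b < 1/2}` (open half parallelogram, area `√3/4`). `xw` is injective on `S` (`xw_eq_iff`: `z ± z'` is not a lattice point
unless `z = z'`), and `xw '' S` is the plane minus a null set: by `xw_surj`, periodicity and parity every value is taken on the closure of `S`, and the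
image of the boundary (segments) minus `L` is null (image of a null set under a differentiable map:
`addHaar_image_eq_zero_of_differentiableOn_of_addHaar_eq_zero`). Change of variables
(`integral_image_eq_integral_abs_det_fderiv_smul`, the real Jacobian of a holomorphic map is `|x'|² = Om² |y|² = Om² |4x³+1|`, `LinearMap.det_restrictScalars`):
`∫ 1/|4t³+1| = Om² · √3/4`. -/

/-- the coordinate `a` of `z = a + b ω` -/
noncomputable def p2_a (z : ℂ) : ℝ := z.re + z.im / √3

/-- the coordinate `b` of `z = a + b ω` -/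
noncomputable def p2_b (z : ℂ) : ℝ := 2 * z.im / √3

theorem p2_eq (z : ℂ) : z = (p2_a z : ℂ) + (p2_b z : ℂ) * w := by
  have h3 : √3 ≠ 0 := by positivity
  apply Complex.ext
  · simp [p2_a, p2_b, w_re]
    field_simp
    ring
  · simp [p2_b, w_im]
    field_simp

theorem p2_a_add (z v : ℂ) : p2_a (z + v) = p2_a z + p2_a v := by
  simp [p2_a]; ring

theorem p2_b_add (z v : ℂ) : p2_b (z + v) = p2_b z + p2_b v := by
  simp [p2_b]; ring

theorem p2_a_neg (z : ℂ) : p2_a (-z) = - p2_a z := by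
  simp [p2_a]; ring

theorem p2_b_neg (z : ℂ) : p2_b (-z) = - p2_b z := by
  simp [p2_b]; ring

theorem p2_a_sub (z v : ℂ) : p2_a (z - v) = p2_a z - p2_a v := by
  rw [sub_eq_add_neg, p2_a_add, p2_a_neg]; ring

theorem p2_b_sub (z v : ℂ) : p2_b (z - v) = p2_b z - p2_b v := by
  rw [sub_eq_add_neg, p2_b_add, p2_b_neg]; ring

theorem p2_a_emb (a : Eis) : p2_a (emb a) = a.re := by
  have h3 : √3 ≠ 0 := by positivity
  rw [p2_a, emb_re, emb_im]
  field_simp
  ring

theorem p2_b_emb (a : Eis) : p2_b (emb a) = a.im := by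
  have h3 : √3 ≠ 0 := by positivity
  rw [p2_b, emb_im]
  field_simp

theorem p2_ext {z v : ℂ} (h1 : p2_a z = p2_a v) (h2 : p2_b z = p2_b v) : z = v := by
  rw [p2_eq z, p2_eq v, h1, h2]

theorem p2_mem (z : ℂ) (h : z ∈ Set.range emb) : ∃ m n : ℤ, p2_a z = m ∧ p2_b z = n := by
  obtain ⟨a, rfl⟩ := h
  exact ⟨a.re, a.im, p2_a_emb a, p2_b_emb a⟩

theorem p2_a_cont : Continuous p2_a := by
  unfold p2_a; fun_prop

theorem p2_b_cont : Continuous p2_b := by
  unfold p2_b; fun_prop

/-- half of the period parallelogram -/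
def p2_S : Set ℂ := {z | 0 < p2_a z ∧ p2_a z < 1 ∧ 0 < p2_b z ∧ p2_b z < 1 / 2}

theorem p2_S_open : IsOpen p2_S := by
  have h1 : IsOpen {z | 0 < p2_a z} := isOpen_lt continuous_const p2_a_cont
  have h2 : IsOpen {z | p2_a z < 1} := isOpen_lt p2_a_cont continuous_const
  have h3 : IsOpen {z | 0 < p2_b z} := isOpen_lt continuous_const p2_b_cont
  have h4 : IsOpen {z | p2_b z < 1 / 2} := isOpen_lt p2_b_cont continuous_const
  exact h1.inter (h2.inter (h3.inter h4))

theorem p2_S_not_mem {z : ℂ} (hz : z ∈ p2_S) : z ∉ Set.range emb := by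
  intro h
  obtain ⟨m, n, h1, h2⟩ := p2_mem z h
  obtain ⟨-, -, h3, h4⟩ := hz
  rw [h2] at h3 h4
  have h5 : 0 < n := by exact_mod_cast h3
  have h6 : (n:ℝ) < 1 := by linarith
  have h7 : n < 1 := by exact_mod_cast h6
  omega

theorem p2_S_y_ne {z : ℂ} (hz : z ∈ p2_S) : yw z ≠ 0 := by
  rw [ne_eq, yw_eq_zero_iff z (p2_S_not_mem hz)]
  intro h
  obtain ⟨m, n, h1, h2⟩ := p2_mem _ h
  obtain ⟨-, -, h3, h4⟩ := hz
  rw [two_mul, p2_b_add] at h2
  have h5 : (0:ℝ) < n := by linarith
  have h6 : (n:ℝ) < 1 := by linarith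
  have h7 : 0 < n := by exact_mod_cast h5
  have h8 : n < 1 := by exact_mod_cast h6
  omega

theorem p2_inj : Set.InjOn xw p2_S := by
  intro z hz v hv h
  rw [xw_eq_iff z v (p2_S_not_mem hz) (p2_S_not_mem hv)] at h
  obtain ⟨z1, z2, z3, z4⟩ := hz
  obtain ⟨v1, v2, v3, v4⟩ := hv
  rcases h with h | h
  · obtain ⟨m, n, h1, h2⟩ := p2_mem _ h
    rw [p2_a_sub] at h1
    rw [p2_b_sub] at h2
    have a1 : (-1:ℝ) < m := by linarith
    have a2 : (m:ℝ) < 1 := by linarith
    have b1 : (-1:ℝ) < n := by linarith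
    have b2 : (n:ℝ) < 1 := by linarith
    have a3 : -1 < m := by exact_mod_cast a1
    have a4 : m < 1 := by exact_mod_cast a2
    have b3 : -1 < n := by exact_mod_cast b1
    have b4 : n < 1 := by exact_mod_cast b2
    have hm : m = 0 := by omega
    have hn : n = 0 := by omega
    rw [hm, Int.cast_zero] at h1
    rw [hn, Int.cast_zero] at h2
    exact p2_ext (by linarith) (by linarith)
  · obtain ⟨m, n, h1, h2⟩ := p2_mem _ h
    rw [p2_b_add] at h2
    have b1 : (0:ℝ) < n := by linarith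
    have b2 : (n:ℝ) < 1 := by linarith
    have b3 : 0 < n := by exact_mod_cast b1
    have b4 : n < 1 := by exact_mod_cast b2
    omega

/-- the lines `a ∈ ℤ` and `2 b ∈ ℤ` -/
def p2_T : Set ℂ := {z | (∃ n : ℤ, p2_a z = n) ∨ ∃ n : ℤ, 2 * p2_b z = n}

theorem p2_line_null (u v c : ℝ) (h : u ≠ 0 ∨ v ≠ 0) :
    volume {z : ℂ | u * z.re + v * z.im = c} = 0 := by
  let f : ℂ →ₗ[ℝ] ℝ := u • Complex.reLm + v • Complex.imLm
  have hf : ∀ z : ℂ, f z = u * z.re + v * z.im := fun z => by simp [f]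
  by_cases hne : ∃ p : ℂ, f p = c
  · obtain ⟨p, hp⟩ := hne
    have h1 : {z : ℂ | u * z.re + v * z.im = c} =
        ((AffineSubspace.mk' p (LinearMap.ker f) : AffineSubspace ℝ ℂ) : Set ℂ) := by
      ext z
      rw [SetLike.mem_coe, AffineSubspace.mem_mk', vsub_eq_sub, LinearMap.mem_ker, map_sub, hp,
        sub_eq_zero, hf]
      rfl
    rw [h1]
    refine Measure.addHaar_affineSubspace volume _ fun htop => ?_
    have h2 := congrArg AffineSubspace.direction htop
    rw [AffineSubspace.direction_mk', AffineSubspace.direction_top, LinearMap.ker_eq_top] at h2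
    rcases h with h | h
    · apply h
      have := congrArg (fun g : ℂ →ₗ[ℝ] ℝ => g 1) h2
      simp only [LinearMap.zero_apply] at this
      rw [hf] at this
      simpa using this
    · apply h
      have := congrArg (fun g : ℂ →ₗ[ℝ] ℝ => g Complex.I) h2
      simp only [LinearMap.zero_apply] at this
      rw [hf] at this
      simpa using this
  · have h1 : {z : ℂ | u * z.re + v * z.im = c} = ∅ := by
      ext z
      simp only [Set.mem_ofPred_eq, Set.mem_empty_iff_false, iff_false]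
      rw [← hf]
      exact fun h2 => hne ⟨z, h2⟩
    rw [h1, measure_empty]

theorem p2_T_null : volume p2_T = 0 := by
  have h3 : √3 ≠ 0 := by positivity
  have h1 : p2_T ⊆ (⋃ n : ℤ, {z : ℂ | 1 * z.re + (1 / √3) * z.im = n}) ∪
      (⋃ n : ℤ, {z : ℂ | 0 * z.re + (4 / √3) * z.im = n}) := by
    rintro z (⟨n, hn⟩ | ⟨n, hn⟩)
    · left
      refine Set.mem_iUnion.2 ⟨n, ?_⟩
      simp only [Set.mem_ofPred_eq]
      rw [← hn, p2_a]
      ring
    · right
      refine Set.mem_iUnion.2 ⟨n, ?_⟩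
      simp only [Set.mem_ofPred_eq]
      rw [← hn, p2_b]
      ring
  refine measure_mono_null h1 (measure_union_null (measure_iUnion_null fun n => ?_)
    (measure_iUnion_null fun n => ?_))
  · exact p2_line_null _ _ _ (Or.inl one_ne_zero)
  · exact p2_line_null _ _ _ (Or.inr (by positivity))

theorem p2_image_compl : (xw '' p2_S)ᶜ ⊆ xw '' (p2_T \ Set.range emb) := by
  intro c hc
  obtain ⟨z, hz, rfl⟩ := xw_surj c
  by_cases hT : z ∈ p2_T
  · exact ⟨z, ⟨hT, hz⟩, rfl⟩
  · exfalso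
    apply hc
    have hTa : ∀ n : ℤ, p2_a z ≠ n := fun n hn => hT (Or.inl ⟨n, hn⟩)
    have hTb : ∀ n : ℤ, 2 * p2_b z ≠ n := fun n hn => hT (Or.inr ⟨n, hn⟩)
    set m := ⌊p2_a z⌋ with hm
    set n := ⌊p2_b z⌋ with hn
    have a1 : (m:ℝ) ≤ p2_a z := Int.floor_le _
    have a2 : p2_a z < m + 1 := Int.lt_floor_add_one _
    have b1 : (n:ℝ) ≤ p2_b z := Int.floor_le _
    have b2 : p2_b z < n + 1 := Int.lt_floor_add_one _
    have a3 : (m:ℝ) < p2_a z := lt_of_le_of_ne a1 (hTa m).symm
    have b3 : (n:ℝ) < p2_b z := by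
      refine lt_of_le_of_ne b1 fun h => hTb (2 * n) ?_
      rw [← h]; push_cast; ring
    have b4 : p2_b z ≠ n + 1 / 2 := by
      intro h
      apply hTb (2 * n + 1)
      rw [h]; push_cast; ring
    rcases lt_or_gt_of_ne b4 with h | h
    · refine ⟨z + emb ⟨-m, -n⟩, ?_, xw_add z _⟩
      refine ⟨?_, ?_, ?_, ?_⟩
      · rw [p2_a_add, p2_a_emb]; push_cast; linarith
      · rw [p2_a_add, p2_a_emb]; push_cast; linarith
      · rw [p2_b_add, p2_b_emb]; push_cast; linarith
      · rw [p2_b_add, p2_b_emb]; push_cast; linarith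
    · refine ⟨-z + emb ⟨m + 1, n + 1⟩, ?_, by rw [xw_add, xw_neg]⟩
      refine ⟨?_, ?_, ?_, ?_⟩
      · rw [p2_a_add, p2_a_emb, p2_a_neg]; push_cast; linarith
      · rw [p2_a_add, p2_a_emb, p2_a_neg]; push_cast; linarith
      · rw [p2_b_add, p2_b_emb, p2_b_neg]; push_cast; linarith
      · rw [p2_b_add, p2_b_emb, p2_b_neg]; push_cast; linarith

theorem p2_image_null : volume (xw '' p2_S)ᶜ = 0 := by
  refine measure_mono_null p2_image_compl ?_
  refine addHaar_image_eq_zero_of_differentiableOn_of_addHaar_eq_zero volume ?_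
    (measure_mono_null Set.sdiff_subset p2_T_null)
  intro z hz
  exact ((xw_deriv z hz.2).differentiableAt.restrictScalars ℝ).differentiableWithinAt

theorem p2_volume : volume p2_S = ENNReal.ofReal (√3 / 4) := by
  have h3 : (0:ℝ) < √3 := by positivity
  have hreg : volume (regionBetween (fun y : ℝ => -(y / √3)) (fun y : ℝ => 1 - y / √3)
      (Set.Ioo 0 (√3 / 4))) = ENNReal.ofReal (√3 / 4) := by
    rw [Measure.volume_eq_prod, volume_regionBetween_eq_lintegral (by fun_prop) (by fun_prop)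
      measurableSet_Ioo]
    have : ∀ y : ℝ, ENNReal.ofReal (((fun y : ℝ => 1 - y / √3) - fun y : ℝ => -(y / √3)) y) = 1 := by
      intro y
      simp
    simp_rw [this]
    rw [lintegral_one, Measure.restrict_apply_univ, Real.volume_Ioo, sub_zero]
  have hmr : MeasurableSet (regionBetween (fun y : ℝ => -(y / √3)) (fun y : ℝ => 1 - y / √3)
      (Set.Ioo 0 (√3 / 4))) :=
    measurableSet_regionBetween (by fun_prop) (by fun_prop) measurableSet_Ioo
  have hsw : MeasurePreserving (Prod.swap : ℝ × ℝ → ℝ × ℝ) volume volume := by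
    rw [Measure.volume_eq_prod]
    exact Measure.measurePreserving_swap
  have hcomp := hsw.comp Complex.volume_preserving_equiv_real_prod
  have h1 := hcomp.measure_preimage hmr.nullMeasurableSet
  rw [hreg] at h1
  rw [← h1]
  congr 1
  ext z
  simp only [p2_S, Set.mem_ofPred_eq, Set.mem_preimage, Function.comp_apply, regionBetween,
    Complex.measurableEquivRealProd_apply, Prod.swap, Set.mem_Ioo, p2_a, p2_b]
  constructor
  · rintro ⟨a1, a2, a3, a4⟩
    refine ⟨⟨?_, ?_⟩, ?_, ?_⟩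
    · by_contra hcon
      push Not at hcon
      have : 2 * z.im / √3 ≤ 0 := div_nonpos_of_nonpos_of_nonneg (by linarith) h3.le
      linarith
    · rw [div_lt_iff₀ h3] at a4
      linarith
    · linarith
    · linarith
  · rintro ⟨⟨a1, a2⟩, a3, a4⟩
    refine ⟨by linarith, by linarith, by positivity, ?_⟩
    rw [div_lt_iff₀ h3]
    linarith

theorem p2_det (c : ℂ) :
    (((1 : ℂ →L[ℂ] ℂ).smulRight c).restrictScalars ℝ : ℂ →L[ℝ] ℂ).det = ‖c‖ ^ 2 := by
  simp [ContinuousLinearMap.det, LinearMap.det_restrictScalars,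
      Algebra.norm_complex_eq, Complex.normSq_eq_norm_sq]

theorem OmCC_eq : OmCC = √3 * Om ^ 2 := by
  have h3 : (0:ℝ) < √3 := by positivity
  have hO := Om_pos
  have hmeas : MeasurableSet p2_S := p2_S_open.measurableSet
  have h1 : ∫ t : ℂ, 1 / ‖4 * t ^ 3 + 1‖ = ∫ t in xw '' p2_S, 1 / ‖4 * t ^ 3 + 1‖ := by
    rw [Measure.restrict_eq_self_of_ae_mem]
    exact mem_ae_iff.2 p2_image_null
  have h2 : ∫ t in xw '' p2_S, 1 / ‖4 * t ^ 3 + 1‖ =
      ∫ z in p2_S, |(((1 : ℂ →L[ℂ] ℂ).smulRight (OmC * yw z)).restrictScalars ℝ :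
        ℂ →L[ℝ] ℂ).det| • (1 / ‖4 * (xw z) ^ 3 + 1‖) := by
    refine integral_image_eq_integral_abs_det_fderiv_smul volume hmeas (fun z hz => ?_) p2_inj _
    exact ((xw_deriv z (p2_S_not_mem hz)).hasFDerivAt.restrictScalars ℝ).hasFDerivWithinAt
  have h4 : ∀ z ∈ p2_S, |(((1 : ℂ →L[ℂ] ℂ).smulRight (OmC * yw z)).restrictScalars ℝ :
        ℂ →L[ℝ] ℂ).det| • (1 / ‖4 * (xw z) ^ 3 + 1‖) = Om ^ 2 := by
    intro z hz
    rw [p2_det, ← weq z (p2_S_not_mem hz), norm_pow, norm_mul, OmC, norm_mul, Complex.norm_I,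
      Complex.norm_real, Real.norm_eq_abs, abs_of_pos hO, smul_eq_mul]
    have := norm_pos_iff.2 (p2_S_y_ne hz)
    rw [abs_of_nonneg (by positivity)]
    field_simp
  rw [OmCC, h1, h2, setIntegral_congr_fun hmeas h4, setIntegral_const, measureReal_def, p2_volume,
    ENNReal.toReal_ofReal (by positivity), smul_eq_mul]
  ring

end CM27
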