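import Pool.Agent.MP_9ab903_nt.AN.A4

set_option autoImplicit false

open scoped ComplexConjugate
open Filter Topology MeasureTheory

namespace CM27

/-! ## [AN-P1] the real period (file P1.lean; uses A2, A4)

For `t ∈ (0, √3/2)` the point `z = i t` is `Off` (lattice points on the imaginary axis are the multiples of `√3 i`), `x(it)` and `y(it)` are
real (`xw_conj`, `yw_conj`, parity), `φ(t) = Re x(it)` has derivative `- Om · y(it)`, which does not vanish (`yw_eq_zero_iff`), and `φ → +∞` as `t → 0+`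
(`xw_sq_tendsto`: `x(it) ~ 1/(Om t)²`); at `t = √3/2` one has `y = 0`, `4x³ + 1 = 0`. `φ` is injective by `xw_eq_iff`. So `φ` maps `(0, √3/2)` bijectively onto
`(e, ∞) = {t | 0 < 4t³+1}`, `e = -(1/4)^(1/3)`, and `integral_image_eq_integral_abs_deriv_smul` gives `OmR = ∫_0^{√3/2} Om |y| · 2/|y| = √3 Om`. -/

theorem p1_mem_iff (t : ℝ) : Complex.I * t ∈ Set.range emb ↔ ∃ n : ℤ, t = n * √3 := by
  have h3 : (0:ℝ) < √3 := by positivity
  constructor
  · rintro ⟨a, ha⟩
    have h1 := emb_re a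
    have h2 := emb_im a
    rw [ha] at h1 h2
    simp only [Complex.mul_re, Complex.I_re, zero_mul, Complex.I_im, one_mul, Complex.ofReal_re,
      Complex.ofReal_im, sub_zero, Complex.mul_im, zero_add, mul_zero] at h1 h2
    refine ⟨a.re, ?_⟩
    have h4 : (a.im : ℝ) = 2 * a.re := by linarith
    rw [h2, h4]
    ring
  · rintro ⟨n, rfl⟩
    refine ⟨⟨n, 2 * n⟩, ?_⟩
    apply Complex.ext
    · rw [emb_re]
      simp
    · rw [emb_im]
      simp
      ring

theorem p1_not_mem (t : ℝ) (h0 : 0 < t) (h1 : t < √3) : Complex.I * t ∉ Set.range emb := by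
  rw [p1_mem_iff]
  rintro ⟨n, rfl⟩
  have h3 : (0:ℝ) < √3 := by positivity
  have h4 : (0:ℝ) < n := by
    by_contra hn
    nlinarith
  have h5 : (n:ℝ) < 1 := by
    by_contra hn
    nlinarith
  have h6 : 0 < n := by exact_mod_cast h4
  have h7 : n < 1 := by exact_mod_cast h5
  omega

theorem p1_conj (t : ℝ) : conj (Complex.I * t) = -(Complex.I * t) := by
  rw [map_mul, Complex.conj_I, Complex.conj_ofReal]; ring

theorem p1_x_real (t : ℝ) : xw (Complex.I * t) = ((xw (Complex.I * t)).re : ℂ) := by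
  have h := xw_conj (Complex.I * t)
  rw [p1_conj, xw_neg] at h
  exact (Complex.conj_eq_iff_re.1 h.symm).symm

theorem p1_y_real (t : ℝ) : yw (Complex.I * t) = ((yw (Complex.I * t)).re : ℂ) := by
  have h := yw_conj (Complex.I * t)
  rw [p1_conj, yw_neg, neg_inj] at h
  exact (Complex.conj_eq_iff_re.1 h.symm).symm

theorem p1_weq (t : ℝ) (h0 : 0 < t) (h1 : t < √3) :
    (yw (Complex.I * t)).re ^ 2 = 4 * (xw (Complex.I * t)).re ^ 3 + 1 := by
  have h := weq _ (p1_not_mem t h0 h1)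
  rw [p1_x_real, p1_y_real] at h
  exact_mod_cast h

theorem p1_deriv (t : ℝ) (h0 : 0 < t) (h1 : t < √3) :
    HasDerivAt (fun t : ℝ => (xw (Complex.I * t)).re) (-(Om * (yw (Complex.I * t)).re)) t := by
  have h := xw_deriv _ (p1_not_mem t h0 h1)
  have h2 : HasDerivAt (fun z : ℂ => Complex.I * z) Complex.I (t : ℂ) := by
    simpa using (hasDerivAt_id (t : ℂ)).const_mul Complex.I
  have h3 : HasDerivAt (fun z : ℂ => xw (Complex.I * z))
      (OmC * yw (Complex.I * t) * Complex.I) (t : ℂ) := h.comp (t : ℂ) h2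
  have h4 := h3.real_of_complex
  refine h4.congr_deriv ?_
  rw [p1_y_real t, OmC]
  have : Complex.I * (Om : ℂ) * ((yw (Complex.I * t)).re : ℂ) * Complex.I =
      ((-(Om * (yw (Complex.I * t)).re) : ℝ) : ℂ) := by
    push_cast
    linear_combination ((Om : ℂ) * ((yw (Complex.I * t)).re : ℂ)) * Complex.I_mul_I
  rw [this, Complex.ofReal_re, Complex.ofReal_re]

theorem p1_y_ne (t : ℝ) (h0 : 0 < t) (h1 : t < √3 / 2) : (yw (Complex.I * t)).re ≠ 0 := by
  have h3 : (0:ℝ) < √3 := by positivity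
  intro h
  have h4 : yw (Complex.I * t) = 0 := by rw [p1_y_real, h, Complex.ofReal_zero]
  rw [yw_eq_zero_iff _ (p1_not_mem t h0 (by linarith))] at h4
  rw [show 2 * (Complex.I * (t:ℂ)) = Complex.I * ((2 * t : ℝ) : ℂ) by push_cast; ring] at h4
  exact p1_not_mem (2 * t) (by linarith) (by linarith) h4

theorem p1_y_half : (yw (Complex.I * (√3 / 2 : ℝ))).re = 0 := by
  have h3 : (0:ℝ) < √3 := by positivity
  have h4 : yw (Complex.I * ((√3 / 2 : ℝ) : ℂ)) = 0 := by
    rw [yw_eq_zero_iff _ (p1_not_mem _ (by positivity) (by linarith))]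
    rw [show 2 * (Complex.I * ((√3 / 2 : ℝ) : ℂ)) = Complex.I * ((√3 : ℝ) : ℂ) by push_cast; ring,
      p1_mem_iff]
    exact ⟨1, by simp⟩
  rw [h4, Complex.zero_re]

theorem p1_inj : Set.InjOn (fun t : ℝ => (xw (Complex.I * t)).re) (Set.Ioo 0 (√3 / 2)) := by
  have h3 : (0:ℝ) < √3 := by positivity
  intro s hs t ht hst
  have h1 : xw (Complex.I * s) = xw (Complex.I * t) := by
    rw [p1_x_real s, p1_x_real t]
    exact congrArg _ hst
  rw [xw_eq_iff _ _ (p1_not_mem s hs.1 (by linarith [hs.2])) (p1_not_mem t ht.1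
    (by linarith [ht.2]))] at h1
  rcases h1 with h1 | h1
  · rw [show Complex.I * (s:ℂ) - Complex.I * t = Complex.I * ((s - t : ℝ) : ℂ) by
      push_cast; ring, p1_mem_iff] at h1
    obtain ⟨n, hn⟩ := h1
    have a1 : (-1:ℝ) < n := by
      by_contra hcon
      nlinarith [hs.1, ht.2]
    have a2 : (n:ℝ) < 1 := by
      by_contra hcon
      nlinarith [hs.2, ht.1]
    have a3 : -1 < n := by exact_mod_cast a1
    have a4 : n < 1 := by exact_mod_cast a2
    have a5 : n = 0 := by omega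
    rw [a5] at hn
    simp at hn
    linarith
  · rw [show Complex.I * (s:ℂ) + Complex.I * t = Complex.I * ((s + t : ℝ) : ℂ) by
      push_cast; ring] at h1
    exact absurd h1 (p1_not_mem _ (by linarith [hs.1, ht.1]) (by linarith [hs.2, ht.2]))

theorem p1_tendsto : Tendsto (fun t : ℝ => (xw (Complex.I * t)).re) (𝓝[>] 0) atTop := by
  have hO := Om_pos
  have h1 : Tendsto (fun t : ℝ => Complex.I * (t:ℂ)) (𝓝[>] 0) (𝓝[≠] 0) := by
    rw [tendsto_nhdsWithin_iff]
    constructor
    · have : Tendsto (fun t : ℝ => Complex.I * (t:ℂ)) (𝓝 0) (𝓝 (Complex.I * ((0:ℝ):ℂ))) :=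
        (Continuous.tendsto (by fun_prop) 0)
      rw [Complex.ofReal_zero, mul_zero] at this
      exact this.mono_left nhdsWithin_le_nhds
    · filter_upwards [self_mem_nhdsWithin] with t ht
      have ht' : (0:ℝ) < t := ht
      simp [ht'.ne']
  have h2 := xw_sq_tendsto.comp h1
  have h3 : Tendsto (fun t : ℝ => t ^ 2 * (xw (Complex.I * t)).re) (𝓝[>] 0) (𝓝 (1 / Om ^ 2)) := by
    have h4 := (Complex.continuous_re.tendsto _).comp h2
    have h5 := h4.neg
    have h6 : -(1 / OmC ^ 2).re = 1 / Om ^ 2 := by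
      rw [OmC, mul_pow, Complex.I_sq]
      rw [show (1:ℂ) / (-1 * (Om:ℂ) ^ 2) = ((-(1 / Om ^ 2) : ℝ) : ℂ) by push_cast; ring]
      rw [Complex.ofReal_re, neg_neg]
    rw [h6] at h5
    refine h5.congr fun t => ?_
    simp only [Function.comp_apply]
    rw [mul_pow, Complex.I_sq, p1_x_real t,
      show -1 * (t:ℂ) ^ 2 * ((xw (Complex.I * t)).re : ℂ) =
        ((-(t ^ 2 * (xw (Complex.I * t)).re) : ℝ) : ℂ) by push_cast; ring]
    rw [Complex.ofReal_re, Complex.ofReal_re]
    ring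
  have h7 : Tendsto (fun t : ℝ => (t ^ 2)⁻¹) (𝓝[>] 0) atTop := by
    refine Tendsto.inv_tendsto_nhdsGT_zero ?_
    rw [tendsto_nhdsWithin_iff]
    constructor
    · have : Tendsto (fun t : ℝ => t ^ 2) (𝓝 0) (𝓝 (0 ^ 2)) := (continuous_pow 2).tendsto 0
      rw [zero_pow two_ne_zero] at this
      exact this.mono_left nhdsWithin_le_nhds
    · filter_upwards [self_mem_nhdsWithin] with t ht
      have ht' : (0:ℝ) < t := ht
      exact pow_pos ht' 2
  have h8 := h7.atTop_mul_pos (show (0:ℝ) < 1 / Om ^ 2 by positivity) h3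
  refine h8.congr' ?_
  filter_upwards [self_mem_nhdsWithin] with t ht
  have ht' : (0:ℝ) < t := ht
  field_simp

theorem p1_image : (fun t : ℝ => (xw (Complex.I * t)).re) '' (Set.Ioo 0 (√3 / 2)) =
    {t : ℝ | 0 < 4 * t ^ 3 + 1} := by
  have h3 : (0:ℝ) < √3 := by positivity
  ext x
  constructor
  · rintro ⟨t, ht, rfl⟩
    simp only [Set.mem_ofPred_eq]
    rw [← p1_weq t ht.1 (by linarith [ht.2])]
    have := p1_y_ne t ht.1 ht.2
    positivity
  · intro hx
    simp only [Set.mem_ofPred_eq] at hx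
    -- value at the end point
    have hend : 4 * (xw (Complex.I * (√3 / 2 : ℝ))).re ^ 3 + 1 = 0 := by
      rw [← p1_weq (√3 / 2) (by positivity) (by linarith), p1_y_half]
      norm_num
    have hlt : (xw (Complex.I * (√3 / 2 : ℝ))).re < x := by
      by_contra hcon
      push Not at hcon
      have : x ^ 3 ≤ (xw (Complex.I * (√3 / 2 : ℝ))).re ^ 3 := by
        exact (Odd.strictMono_pow (by decide : Odd 3)).monotone hcon
      linarith
    obtain ⟨s, hs1, hs2⟩ : ∃ s : ℝ, s ∈ Set.Ioo 0 (√3 / 2) ∧ x < (xw (Complex.I * s)).re := by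
      have e1 := p1_tendsto.eventually_gt_atTop x
      have e2 : ∀ᶠ s : ℝ in 𝓝[>] 0, s ∈ Set.Ioo 0 (√3 / 2) :=
        Ioo_mem_nhdsGT (by positivity)
      obtain ⟨s, h1, h2⟩ := (e1.and e2).exists
      exact ⟨s, h2, h1⟩
    have hcont : ContinuousOn (fun t : ℝ => (xw (Complex.I * t)).re) (Set.Icc s (√3 / 2)) := by
      intro t ht
      exact (p1_deriv t (by linarith [hs1.1, ht.1]) (by linarith [ht.2])).continuousAt
        |>.continuousWithinAt
    have := intermediate_value_Icc' hs1.2.le hcont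
    obtain ⟨t, ht, htx⟩ := this ⟨hlt.le, hs2.le⟩
    refine ⟨t, ⟨by linarith [hs1.1, ht.1], lt_of_le_of_ne ht.2 ?_⟩, htx⟩
    rintro rfl
    simp only at htx
    linarith

theorem OmR_eq : OmR = √3 * Om := by
  have h3 : (0:ℝ) < √3 := by positivity
  have hO := Om_pos
  rw [OmR, ← p1_image, integral_image_eq_integral_abs_deriv_smul measurableSet_Ioo
    (f' := fun t : ℝ => -(Om * (yw (Complex.I * t)).re))
    (fun t ht => (p1_deriv t ht.1 (by linarith [ht.2])).hasDerivWithinAt) p1_inj]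
  have h1 : ∀ t ∈ Set.Ioo (0:ℝ) (√3 / 2), |(-(Om * (yw (Complex.I * t)).re))| •
      (2 / √(4 * (xw (Complex.I * t)).re ^ 3 + 1)) = 2 * Om := by
    intro t ht
    rw [← p1_weq t ht.1 (by linarith [ht.2]), Real.sqrt_sq_eq_abs, abs_neg, abs_mul,
      abs_of_pos hO, smul_eq_mul]
    have := abs_pos.2 (p1_y_ne t ht.1 ht.2)
    field_simp
  rw [setIntegral_congr_fun measurableSet_Ioo h1, setIntegral_const]
  simp only [measureReal_def, Real.volume_Ioo, smul_eq_mul]
  rw [ENNReal.toReal_ofReal (by linarith)]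
  ring

end CM27
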