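import Pool.Agent.MP_9ab903_nt.AN.B5
import Pool.Agent.MP_9ab903_nt.AN.P1
import Pool.Agent.MP_9ab903_nt.AN.P2
import Pool.Agent.MP_ae0bd0_nt.CM.G5
import Pool.Agent.MP_ae0bd0_nt.CM.D3

set_option autoImplicit false

open scoped ComplexConjugate
open Polynomial NumberField IsDedekindDomain
open scoped Classical

namespace CM27

/-! ## [AN-Z] combination (file Z.lean) -/

theorem z_HP_open : IsOpen HP := isOpen_lt continuous_const Complex.continuous_re

theorem z_HP_preconnected : IsPreconnected HP := by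
  have : Convex ℝ HP := convex_halfSpace_re_gt (1 / 2)
  exact this.isPreconnected

theorem z_unique (Φ Ψ : ℂ → ℂ) (hΦ : DifferentiableOn ℂ Φ HP) (hΨ : DifferentiableOn ℂ Ψ HP)
    (h : ∀ s : ℂ, 3 / 2 < s.re → Φ s = Ψ s) : Φ 1 = Ψ 1 := by
  have h1 : AnalyticOnNhd ℂ Φ HP := hΦ.analyticOnNhd z_HP_open
  have h2 : AnalyticOnNhd ℂ Ψ HP := hΨ.analyticOnNhd z_HP_open
  have h3 : (2 : ℂ) ∈ HP := by
    show (1 : ℝ) / 2 < (2 : ℂ).re
    norm_num
  have h4 : Φ =ᶠ[nhds 2] Ψ := by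
    have : IsOpen {s : ℂ | 3 / 2 < s.re} := isOpen_lt continuous_const Complex.continuous_re
    filter_upwards [this.mem_nhds (by show (3 : ℝ) / 2 < (2 : ℂ).re; norm_num)] with s hs
    exact h s hs
  have h5 := h1.eqOn_of_preconnected_of_eventuallyEq h2 z_HP_preconnected h3 h4
  exact h5 (by show (1 : ℝ) / 2 < (1 : ℂ).re; norm_num)

theorem z_conj_four {f : ℕ} [NeZero f] (hf : Odd f) (ψ : DirichletCharacter ℂ f) :
    conj (ψ 4) = (ψ 4)⁻¹ := by
  have h2 : IsUnit (4 : ZMod f) := by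
    have : ((4 : ℕ) : ZMod f) = 4 := by norm_cast
    rw [← this, ZMod.isUnit_iff_coprime]
    have : Nat.Coprime (2 ^ 2) f := Nat.Coprime.pow_left 2 (Nat.coprime_two_left.2 hf)
    exact this
  obtain ⟨u, hu⟩ := h2
  have h3 : ‖ψ 4‖ = 1 := by
    rw [← hu]
    exact DirichletCharacter.unit_norm_eq_one ψ u
  have h4 : ψ 4 * conj (ψ 4) = 1 := by
    rw [Complex.mul_conj, Complex.normSq_eq_norm_sq, h3]
    norm_num
  exact eq_inv_of_mul_eq_one_right h4

/-- The value at `1` of the continuation of `L(E, χ, s)` is `- OmC · WW`. -/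
theorem G_value {m : ℕ} [NeZero m] (hm : Odd m) (χ : DirichletCharacter ℂ m) (Φ : ℂ → ℂ)
    (hΦ : DifferentiableOn ℂ Φ HP)
    (h : ∀ s : ℂ, 3 / 2 < s.re → Φ s = LSeries (coef χ.primitiveCharacter) s) :
    Φ 1 = - (OmC * WW χ) := by
  have hd : χ.conductor ∣ m := χ.conductor_dvd_level
  have hf : Odd χ.conductor := Odd.of_dvd_nat hm hd
  have hf0 : χ.conductor ≠ 0 := hf.pos.ne'
  haveI : NeZero χ.conductor := ⟨hf0⟩
  obtain ⟨Ψ, hΨ, hΨ2, hΨ3⟩ := G_main hf χ.primitiveCharacter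
  rw [z_unique Φ Ψ hΦ hΨ (fun s hs => by rw [h s hs, (hΨ2 s hs).2]), hΨ3, z_conj_four hf]
  have h1 : ∑ i ∈ Finset.range χ.conductor, ∑ j ∈ Finset.range χ.conductor,
      chiN χ.primitiveCharacter (cc i j) * lam (emb (cc i j) / (3 * χ.conductor)) =
      OmC * TS χ.primitiveCharacter := by
    rw [TS, Finset.mul_sum]
    refine Finset.sum_congr rfl fun i _ => ?_
    rw [Finset.mul_sum]
    refine Finset.sum_congr rfl fun j _ => ?_
    rw [lam_eq _ (off_cc hf0 i j)]
    ring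
  rw [h1, WW]
  ring

theorem period_sq (F : Type) [Field F] [NumberField F] :
    ∃ r : ℕ, period F ^ 2 = 3 ^ r * Om ^ (2 * Module.finrank ℚ F) := by
  refine ⟨InfinitePlace.nrRealPlaces F + InfinitePlace.nrComplexPlaces F, ?_⟩
  have h3 : √(3 : ℝ) ^ 2 = 3 := Real.sq_sqrt (by norm_num)
  have hrank := InfinitePlace.card_add_two_mul_card_eq_rank F
  have hp : period F = OmR ^ InfinitePlace.nrRealPlaces F * OmCC ^ InfinitePlace.nrComplexPlaces F := by
    rw [period, Finset.prod_ite, Finset.prod_const, Finset.prod_const]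
    congr 2
    · rw [InfinitePlace.nrRealPlaces, Fintype.card_subtype]
    · rw [InfinitePlace.nrComplexPlaces, Fintype.card_subtype]
      congr 1
      ext v
      simp [InfinitePlace.not_isReal_iff_isComplex]
  rw [hp, OmR_eq, OmCC_eq, mul_pow, ← hrank]
  have e1 : ((√3 * Om) ^ InfinitePlace.nrRealPlaces F) ^ 2 =
      3 ^ InfinitePlace.nrRealPlaces F * Om ^ (2 * InfinitePlace.nrRealPlaces F) := by
    rw [← pow_mul, mul_comm _ 2, pow_mul, mul_pow, h3, mul_pow, pow_mul]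
  have e2 : ((√3 * Om ^ 2) ^ InfinitePlace.nrComplexPlaces F) ^ 2 =
      3 ^ InfinitePlace.nrComplexPlaces F * Om ^ (2 * (2 * InfinitePlace.nrComplexPlaces F)) := by
    rw [← pow_mul, mul_comm _ 2, pow_mul, mul_pow, h3, mul_pow, ← pow_mul, ← pow_mul, ← mul_assoc]
  rw [e1, e2, mul_add, pow_add, pow_add]
  ring

/-- `card (chars m F) = [F : ℚ]` -/
theorem card_chars (m : ℕ) [NeZero m] (M : Type) [Field M] [NumberField M]
    [IsCyclotomicExtension {m} ℚ M] (F : IntermediateField ℚ M) :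
    (chars m F).card = Module.finrank ℚ F := by
  have h := d3_char m M F 1 (Nat.coprime_one_left m) (-1)
  have h1 : (ZMod.unitOfCoprime 1 (Nat.coprime_one_left m) : (ZMod m)ˣ) = 1 := by
    ext
    simp
  rw [h1] at h
  have h2 : ∀ χ ∈ chars m F, (1 - χ ((1 : ℕ) : ZMod m) * (-1 : ℂ)) = 2 := by
    intro χ _
    rw [Nat.cast_one, map_one]
    norm_num
  rw [Finset.prod_congr rfl h2, Finset.prod_const, QuotientGroup.mk_one, orderOf_one, pow_one,
    Nat.div_one] at h
  have h3 : (1 - (-1 : ℂ)) = 2 := by norm_num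
  rw [h3] at h
  have h4 : (2 : ℕ) ^ (chars m F).card = 2 ^ (Nat.card ((ZMod m)ˣ ⧸ F.fixingSubgroup.map
          (IsCyclotomicExtension.Rat.galEquivZMod m M : Gal(M/ℚ) →* (ZMod m)ˣ))) := by
    exact_mod_cast h
  haveI : IsGalois ℚ M := IsCyclotomicExtension.isGalois {m} ℚ M
  rw [Nat.pow_right_injective (le_refl 2) h4, IntermediateField.finrank_eq_fixingSubgroup_index]
  rw [← Subgroup.index_map_equiv F.fixingSubgroup
      (IsCyclotomicExtension.Rat.galEquivZMod m M), Subgroup.index_eq_card]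

end CM27
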