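import Pool.Agent.MP_9ab903_nt.AN.A4
import Pool.Agent.MP_ae0bd0_nt.CM.I2

set_option autoImplicit false

open scoped ComplexConjugate
open Polynomial

namespace CM27

/-! ## [AN-A9] the values at points of odd order are algebraic (file A9.lean; uses A2, A4, I2)

* `z` with `N z ∈ L`, `N` odd, `z ∉ L`. By `off_of_odd` (I2) all `2^k z` are `Off`, so by `xw_two`
  `x(2^k z) B_k(x(z)) = A_k(x(z))` with `(A_0, B_0) = (X, 1)`, `A_{k+1} = A_k (A_k³ - 2 B_k³)`, `B_{k+1} = B_k (4 A_k³ + B_k³)` in `ℚ[X]`;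
  `A_k` is monic of degree `4^k`, `B_k` has degree `4^k - 1` and leading coefficient `4^k`. With `k = φ(N)`:
  `2^k z ≡ z` mod `L`, so `x(z)` is a root of `A_k - X B_k`, whose coefficient of `X^{4^k}` is `1 - 4^k ≠ 0`.
  (If `z ∈ L` then `xw z = yw z = 0`.)
* `yw`: `y² = 4x³+1`. -/

/-- the iterated duplication polynomials `(A_k, B_k)` -/
noncomputable def a9_AB : ℕ → ℚ[X] × ℚ[X]
  | 0 => (X, 1)
  | k + 1 =>
    ((a9_AB k).1 * ((a9_AB k).1 ^ 3 - C 2 * (a9_AB k).2 ^ 3),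
      (a9_AB k).2 * (C 4 * (a9_AB k).1 ^ 3 + (a9_AB k).2 ^ 3))

theorem a9_deg (k : ℕ) : (a9_AB k).1.natDegree ≤ 4 ^ k ∧ (a9_AB k).1.coeff (4 ^ k) = 1 ∧
    (a9_AB k).2.natDegree ≤ 4 ^ k - 1 ∧ (a9_AB k).2.coeff (4 ^ k - 1) = 4 ^ k := by
  induction k with
  | zero =>
    simp only [a9_AB, pow_zero]
    refine ⟨natDegree_X_le, coeff_X_one, by simp, by simp⟩
  | succ k ih =>
    obtain ⟨h1, h2, h3, h4⟩ := ih
    have hp : 1 ≤ 4 ^ k := Nat.one_le_pow _ _ (by norm_num)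
    set A := (a9_AB k).1 with hA
    set B := (a9_AB k).2 with hB
    have e1 : (a9_AB (k + 1)).1 = A * (A ^ 3 - C 2 * B ^ 3) := rfl
    have e2 : (a9_AB (k + 1)).2 = B * (C 4 * A ^ 3 + B ^ 3) := rfl
    have dA3 : (A ^ 3).natDegree ≤ 3 * 4 ^ k := natDegree_pow_le_of_le 3 h1
    have dB3' : (B ^ 3).natDegree ≤ 3 * (4 ^ k - 1) := natDegree_pow_le_of_le 3 h3
    have dB3 : (B ^ 3).natDegree < 3 * 4 ^ k := by omega
    have cA3 : (A ^ 3).coeff (3 * 4 ^ k) = 1 := by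
      rw [coeff_pow_of_natDegree_le h1, h2, one_pow]
    have cB3 : (B ^ 3).coeff (3 * 4 ^ k) = 0 := coeff_eq_zero_of_natDegree_lt dB3
    have dC : (C (2:ℚ) * B ^ 3).natDegree ≤ 3 * 4 ^ k :=
      (natDegree_C_mul_le _ _).trans dB3.le
    have dD : (A ^ 3 - C 2 * B ^ 3).natDegree ≤ 3 * 4 ^ k :=
      (natDegree_sub_le_of_le dA3 dC).trans (by simp)
    have dE : (C 4 * A ^ 3 + B ^ 3).natDegree ≤ 3 * 4 ^ k :=
      (natDegree_add_le_of_le ((natDegree_C_mul_le _ _).trans dA3) dB3.le).trans (by simp)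
    have p1 : 4 ^ (k + 1) = 4 ^ k + 3 * 4 ^ k := by ring
    have p2 : 4 ^ (k + 1) - 1 = (4 ^ k - 1) + 3 * 4 ^ k := by omega
    refine ⟨?_, ?_, ?_, ?_⟩
    · rw [e1, p1]
      exact natDegree_mul_le_of_le h1 dD
    · rw [e1, p1, coeff_mul_add_eq_of_natDegree_le h1 dD, h2, coeff_sub, coeff_C_mul, cA3, cB3]
      ring
    · rw [e2, p2]
      exact natDegree_mul_le_of_le h3 dE
    · rw [e2, p2, coeff_mul_add_eq_of_natDegree_le h3 dE, h4, coeff_add, coeff_C_mul, cA3, cB3]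
      ring

theorem a9_eval (z : ℂ) (k : ℕ) (h : ∀ i < k, Off (2 ^ i * z)) :
    xw (2 ^ k * z) * aeval (xw z) (a9_AB k).2 = aeval (xw z) (a9_AB k).1 := by
  induction k with
  | zero => simp [a9_AB]
  | succ k ih =>
    have ih' := ih fun i hi => h i (by omega)
    have hk := xw_two (2 ^ k * z) (h k (by omega))
    have e1 : (a9_AB (k + 1)).1 = (a9_AB k).1 * ((a9_AB k).1 ^ 3 - C 2 * (a9_AB k).2 ^ 3) := rfl
    have e2 : (a9_AB (k + 1)).2 = (a9_AB k).2 * (C 4 * (a9_AB k).1 ^ 3 + (a9_AB k).2 ^ 3) := rfl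
    have e3 : (2:ℂ) ^ (k + 1) * z = 2 * (2 ^ k * z) := by ring
    rw [e1, e2, e3]
    simp only [map_mul, map_sub, map_add, map_pow, aeval_C, ← ih']
    have c2 : algebraMap ℚ ℂ 2 = 2 := map_ofNat _ 2
    have c4 : algebraMap ℚ ℂ 4 = 4 := map_ofNat _ 4
    rw [c2, c4]
    linear_combination (aeval (xw z) (a9_AB k).2) ^ 4 * hk

theorem a9_mul_mem (N : ℕ) (z : ℂ) (hz : (N : ℂ) * z ∈ Set.range emb) (a : ℕ) :
    (N : ℂ) * ((a : ℂ) * z) ∈ Set.range emb := by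
  obtain ⟨c, hc⟩ := hz
  refine ⟨(a : Eis) * c, ?_⟩
  rw [map_mul, hc, map_natCast]
  ring

theorem a9_cop (N a : ℕ) (hN : N.Coprime a) (z : ℂ) (hz : (N : ℂ) * z ∈ Set.range emb)
    (hz0 : z ∉ Set.range emb) : (a : ℂ) * z ∉ Set.range emb := by
  rintro ⟨d, hd⟩
  obtain ⟨c, hc⟩ := hz
  apply hz0
  have hb := (Nat.isCoprime_iff_coprime.mpr hN)
  obtain ⟨u, v, huv⟩ := hb
  refine ⟨(u : Eis) * c + (v : Eis) * d, ?_⟩
  rw [map_add, map_mul, map_mul, hc, hd, map_intCast, map_intCast]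
  have h1 : ((u * N + v * a : ℤ) : ℂ) = 1 := by rw [huv]; simp
  push_cast at h1
  linear_combination z * h1

theorem a9_zero (a : Eis) : xw (emb a) = 0 ∧ yw (emb a) = 0 := by
  have h1 := xw_add 0 a
  have h2 := yw_add 0 a
  rw [zero_add] at h1 h2
  rw [h1, h2]
  constructor
  · unfold xw
    rw [PeriodPair.weierstrassP_zero, zero_div]
  · unfold yw
    rw [PeriodPair.derivWeierstrassP_zero, zero_div]

theorem xw_alg (N : ℕ) (hN : Odd N) (z : ℂ) (hz : (N : ℂ) * z ∈ Set.range emb) :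
    IsAlgebraic ℚ (xw z) := by
  by_cases hz0 : z ∈ Set.range emb
  · obtain ⟨a, rfl⟩ := hz0
    rw [(a9_zero a).1]
    exact isAlgebraic_zero
  have hN0 : 0 < N := hN.pos
  have hcop : Nat.Coprime 2 N := (Nat.coprime_two_left).mpr hN
  set k := N.totient with hk
  have hk1 : 1 ≤ k := Nat.totient_pos.mpr hN0
  have hoff : ∀ i : ℕ, Off ((2:ℂ) ^ i * z) := by
    intro i
    have e : (2:ℂ) ^ i * z = ((2 ^ i : ℕ) : ℂ) * z := by push_cast; ring
    rw [e]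
    refine off_of_odd N hN _ (a9_mul_mem N z hz _) ?_
    exact a9_cop N (2 ^ i) ((hcop.pow_left i).symm) z hz hz0
  have heq : xw ((2:ℂ) ^ k * z) = xw z := by
    have hmod : 2 ^ k ≡ 1 [MOD N] := Nat.ModEq.pow_totient hcop
    have h1 : 1 ≤ 2 ^ k := Nat.one_le_two_pow
    have hdvd : N ∣ 2 ^ k - 1 := (Nat.modEq_iff_dvd' h1).mp hmod.symm
    obtain ⟨t, ht⟩ := hdvd
    obtain ⟨c, hc⟩ := hz
    have e : (2:ℂ) ^ k * z = z + emb ((t : Eis) * c) := by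
      rw [map_mul, hc, map_natCast]
      have h2 : ((2 ^ k : ℕ) : ℂ) = N * t + 1 := by
        have : 2 ^ k = N * t + 1 := by omega
        rw [this]
        push_cast
        ring
      push_cast at h2
      rw [h2]
      ring
    rw [e, xw_add]
  have hev := a9_eval z k fun i _ => hoff i
  rw [heq] at hev
  refine ⟨(a9_AB k).1 - X * (a9_AB k).2, ?_, ?_⟩
  · intro h0
    have hc : ((a9_AB k).1 - X * (a9_AB k).2).coeff (4 ^ k) = 0 := by rw [h0]; simp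
    obtain ⟨h1, h2, h3, h4⟩ := a9_deg k
    have hp : 1 ≤ 4 ^ k := Nat.one_le_pow _ _ (by norm_num)
    have e : 4 ^ k = (4 ^ k - 1) + 1 := by omega
    have hX : (X * (a9_AB k).2).coeff (4 ^ k) = 4 ^ k := by
      conv_lhs => rw [e]
      rw [coeff_X_mul, h4]
    rw [coeff_sub, h2, hX] at hc
    have h5 : (1:ℚ) < 4 ^ k := one_lt_pow₀ (by norm_num) (by omega)
    linarith
  · rw [map_sub, map_mul, aeval_X, hev, sub_self]

theorem yw_alg (N : ℕ) (hN : Odd N) (z : ℂ) (hz : (N : ℂ) * z ∈ Set.range emb) :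
    IsAlgebraic ℚ (yw z) := by
  by_cases hz0 : z ∈ Set.range emb
  · obtain ⟨a, rfl⟩ := hz0
    rw [(a9_zero a).2]
    exact isAlgebraic_zero
  have hx := xw_alg N hN z hz
  have h := weq z hz0
  have h2 : IsAlgebraic ℚ (yw z ^ 2) := by
    rw [h]
    have h4 : IsAlgebraic ℚ (4 : ℂ) := by exact_mod_cast isAlgebraic_natCast (R := ℚ) (A := ℂ) 4
    exact (h4.mul (hx.pow 3)).add isAlgebraic_one
  exact IsAlgebraic.of_pow (by norm_num) h2

theorem lx_alg (N : ℕ) (hN : Odd N) (z : ℂ) (hz : (N : ℂ) * z ∈ Set.range emb) :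
    IsAlgebraic ℚ (lx z) := by
  unfold lx
  have h3 : IsAlgebraic ℚ (3 : ℂ) := by exact_mod_cast isAlgebraic_natCast (R := ℚ) (A := ℂ) 3
  rw [div_eq_mul_inv]
  exact (h3.mul ((xw_alg N hN z hz).pow 2)).mul (yw_alg N hN z hz).inv

end CM27
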