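import Pool.Agent.MP_9ab903_nt.AN.A4
import Pool.Agent.MP_ae0bd0_nt.CM.R2b
import Pool.Agent.MP_ae0bd0_nt.CM.H4
import Pool.Agent.MP_ae0bd0_nt.CM.G4

set_option autoImplicit false

open scoped ComplexConjugate

namespace CM27

/-! ## [AN-B1] the function `lx` (file B1.lean; uses A2, A4, H4, R2b, G4)

* `lam_eq`: `λ ℘' = 3 ℘²` (H4 `lam_mul_deriv`) and `℘' ≠ 0` at `Off` points (`yw_eq_zero_iff`; note that `Off z` implies `z ∉ L`).
* `lx_ptMap`: compare coordinates of `ptMap σ (pt z) = pt v`. `Off v`: `2 • pt v ≠ 0` (`y ≠ 0`). -/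

theorem b1_off_not_mem {z : ℂ} (hz : Off z) : z ∉ Set.range emb := by
  rintro ⟨a, ha⟩
  exact hz ⟨2 * a, by rw [map_mul, map_ofNat, ha]⟩

theorem b1_yw_ne {z : ℂ} (hz : Off z) : yw z ≠ 0 := fun h =>
  hz ((yw_eq_zero_iff z (b1_off_not_mem hz)).1 h)

theorem lam_eq (z : ℂ) (hz : Off z) : lam z = OmC * lx z := by
  have h1 := lam_mul_deriv z hz
  have h0 := OmC_ne
  have hy := b1_yw_ne hz
  have e1 : L0.weierstrassP z = OmC ^ 2 * xw z := by
    unfold xw; field_simp
  have e2 : L0.derivWeierstrassP z = OmC ^ 3 * yw z := by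
    unfold yw; field_simp
  rw [e1, e2] at h1
  unfold lx
  have h2 : lam z * yw z = OmC * (3 * xw z ^ 2) := by
    have h3 : OmC ^ 3 * (lam z * yw z) = OmC ^ 3 * (OmC * (3 * xw z ^ 2)) := by
      linear_combination h1
    exact mul_left_cancel₀ (pow_ne_zero 3 h0) h3
  field_simp
  linear_combination h2

theorem lx_add (z : ℂ) (a : Eis) : lx (z + emb a) = lx z := by
  unfold lx
  rw [xw_add, yw_add]

theorem lx_neg (z : ℂ) : lx (-z) = - lx z := by
  unfold lx
  rw [xw_neg, yw_neg, div_neg]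

theorem lx_ptMap (σ : ℂ →+* ℂ) (z v : ℂ) (hz : Off z) (h : ptMap σ (pt z) = pt v) :
    σ (lx z) = lx v := by
  have hzm := b1_off_not_mem hz
  obtain ⟨h1, e1⟩ := pt_of_not_mem z hzm
  have hvm : v ∉ Set.range emb := by
    intro hv
    rw [(pt_eq_zero_iff v).2 hv, e1] at h
    exact absurd h (by
      intro h2
      have : (WeierstrassCurve.Affine.Point.some _ _ _ : (E ℂ).toAffine.Point) = .zero := h2
      cases this)
  obtain ⟨h2, e2⟩ := pt_of_not_mem v hvm
  rw [e1, e2] at h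
  have h3 : (WeierstrassCurve.Affine.Point.some (σ (xw z)) (σ ((yw z - 1) / 2)) _ :
      (E ℂ).toAffine.Point) = .some (xw v) ((yw v - 1) / 2) h2 := h
  rw [WeierstrassCurve.Affine.Point.some.injEq] at h3
  obtain ⟨hx, hy⟩ := h3
  rw [map_div₀, map_sub, map_one, map_ofNat] at hy
  have hy' : σ (yw z) = yw v := by linear_combination 2 * hy
  unfold lx
  rw [map_div₀, map_mul, map_pow, hx, hy', map_ofNat]

/-- all points `c / (3 f)`, `c ≡ 1 mod 3`, are `Off` -/
theorem off_primary (f : ℕ) (hf : f ≠ 0) (c : Eis) (hc : Primary c) : Off (emb c / (3 * f)) := by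
  rintro ⟨a, ha⟩
  have hf' : (f : ℂ) ≠ 0 := by exact_mod_cast hf
  have h1 : emb (3 * (f : Eis) * a) = emb (2 * c) := by
    rw [map_mul, map_mul, map_ofNat, map_natCast, ha, map_mul, map_ofNat]
    field_simp
  have h2 := emb_injective h1
  rw [primary_iff] at hc
  have h3 := congrArg QuadraticAlgebra.re h2
  have e3 : (3 : Eis) = ⟨3, 0⟩ := rfl
  have e2 : (2 : Eis) = ⟨2, 0⟩ := rfl
  have e4 : ((f : Eis)) = ⟨(f : ℤ), 0⟩ := by
    ext
    · simp
    · simp
  rw [e3, e2, e4] at h3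
  simp only [QuadraticAlgebra.re_mul, QuadraticAlgebra.im_mul] at h3
  have h4 : 3 * ((f : ℤ) * a.re) = 2 * c.re := by linarith
  omega

end CM27
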