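import Pool.Agent.MP_9ab903_nt.AN.A7
import Pool.Agent.MP_9ab903_nt.AN.B1

/-! ### part B2 -/

section

set_option autoImplicit false

open scoped ComplexConjugate

namespace CM27

/-! ## [AN-B2] Galois action on the twisted sums (file B2.lean; uses A7, B1)

* `sum_classes`: a function `h` on primary Eisenstein integers that depends only on the class modulo `3 f`; the map
  `c ↦ c u` (`u` primary and invertible modulo `f`) and the map `c ↦ star c` permute the classes `cc i j`, `i, j < f`, of primary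
  elements modulo `3 f` (compare the proof of `sum_two` in CM G4.lean).
* `TS_gal`: take `u, u'` from `gal_any` for `N = 3 m`, `a = N(u)`; for `f ∣ m`: `emb c/(3f) = emb (c (m/f))/(3m)`. Case 1:
  `σ(TS χ) · (σχ)(N u) = Σ (σχ)(N(c u)) lx(c u/3f) = TS (σχ)`; case 2: `lx(-c̄u/3f) = - lx(c̄u/3f)`, so `= - TS (σχ)` (reindex
  `c ↦ star c`, `N(star c) = N c`). Squares agree. -/

theorem b2_re (i j : ℕ) : (cc i j).re = 1 + 3 * i := by
  have h3 : (3 : Eis).re = 3 := rfl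
  have h4 : (3 : Eis).im = 0 := rfl
  have h1 : (1 : Eis).re = 1 := rfl
  simp [cc, QuadraticAlgebra.re_add, QuadraticAlgebra.re_mul, h3, h4, h1]

theorem b2_im (i j : ℕ) : (cc i j).im = 3 * j := by
  have h3 : (3 : Eis).re = 3 := rfl
  have h4 : (3 : Eis).im = 0 := rfl
  have h1 : (1 : Eis).im = 0 := rfl
  simp [cc, QuadraticAlgebra.im_add, QuadraticAlgebra.im_mul, h3, h4, h1]

theorem b2_primary_cc (i j : ℕ) : Primary (cc i j) := by
  rw [primary_iff, b2_re, b2_im]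
  omega

theorem b2_primary_mul {c d : Eis} (hc : Primary c) (hd : Primary d) : Primary (c * d) := by
  unfold Primary at *
  have h : c * d - 1 = (c - 1) * d + (d - 1) := by ring
  rw [h]
  exact dvd_add (hc.mul_right d) hd

theorem b2_primary_star {c : Eis} (hc : Primary c) : Primary (star c) := by
  rw [primary_iff] at *
  simp only [QuadraticAlgebra.re_star, QuadraticAlgebra.im_star]
  omega

/-- divisibility by `3 f` in coordinates -/
theorem b2_dvd_iff (n : ℕ) (a : Eis) : (n : Eis) ∣ a ↔ (n : ℤ) ∣ a.re ∧ (n : ℤ) ∣ a.im := by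
  have hr : ((n : ℕ) : Eis).re = n := rfl
  have hi : ((n : ℕ) : Eis).im = 0 := rfl
  constructor
  · rintro ⟨b, rfl⟩
    simp only [QuadraticAlgebra.re_mul, QuadraticAlgebra.im_mul, hr, hi]
    constructor
    · exact ⟨b.re, by ring⟩
    · exact ⟨b.im, by ring⟩
  · rintro ⟨⟨x, hx⟩, ⟨y, hy⟩⟩
    refine ⟨⟨x, y⟩, ?_⟩
    ext
    · simp only [QuadraticAlgebra.re_mul, hr, hi, hx]; ring
    · simp only [QuadraticAlgebra.im_mul, hr, hi, hy]; ring

theorem b2_gen (f : ℕ) (hf : f ≠ 0) (φ : ℕ → ℕ → Eis) (hφ : ∀ i j, Primary (φ i j))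
    (hinj : ∀ i j i' j', i < f → j < f → i' < f → j' < f → (3 * f : Eis) ∣ φ i j - φ i' j' →
      i = i' ∧ j = j') (h : Eis → ℂ)
    (hh : ∀ c d : Eis, Primary c → Primary d → (3 * f : Eis) ∣ c - d → h c = h d) :
    ∑ i ∈ Finset.range f, ∑ j ∈ Finset.range f, h (φ i j) =
      ∑ i ∈ Finset.range f, ∑ j ∈ Finset.range f, h (cc i j) := by
  have hf0 : (0 : ℤ) < f := by exact_mod_cast Nat.pos_of_ne_zero hf
  rw [← Finset.sum_product', ← Finset.sum_product']
  let idx : ℕ × ℕ → ℕ × ℕ := fun p =>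
    (((((φ p.1 p.2).re - 1) / 3) % f).toNat, ((((φ p.1 p.2).im) / 3) % f).toNat)
  have hidx : ∀ p : ℕ × ℕ, (3 * f : Eis) ∣ φ p.1 p.2 - cc (idx p).1 (idx p).2 := by
    intro p
    have h1 := (primary_iff _).1 (hφ p.1 p.2)
    have h2 : (3 * f : Eis) = ((3 * f : ℕ) : Eis) := by push_cast; rfl
    rw [h2, b2_dvd_iff, QuadraticAlgebra.re_sub, QuadraticAlgebra.im_sub, b2_re, b2_im]
    have e1 : (((idx p).1 : ℕ) : ℤ) = ((φ p.1 p.2).re - 1) / 3 % f :=
      Int.toNat_of_nonneg (Int.emod_nonneg _ hf0.ne')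
    have e2 : (((idx p).2 : ℕ) : ℤ) = (φ p.1 p.2).im / 3 % f :=
      Int.toNat_of_nonneg (Int.emod_nonneg _ hf0.ne')
    rw [e1, e2, Int.emod_def, Int.emod_def]
    push_cast
    constructor
    · refine ⟨((φ p.1 p.2).re - 1) / 3 / f, ?_⟩
      have h3 : (φ p.1 p.2).re - 1 = 3 * (((φ p.1 p.2).re - 1) / 3) := by omega
      linear_combination h3
    · refine ⟨(φ p.1 p.2).im / 3 / f, ?_⟩
      have h3 : (φ p.1 p.2).im = 3 * ((φ p.1 p.2).im / 3) := by omega
      linear_combination h3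
  have hmaps : ∀ p ∈ Finset.range f ×ˢ Finset.range f, idx p ∈ Finset.range f ×ˢ Finset.range f := by
    intro p _
    rw [Finset.mem_product, Finset.mem_range, Finset.mem_range]
    constructor
    · exact (Int.toNat_lt (Int.emod_nonneg _ hf0.ne')).2 (Int.emod_lt_of_pos _ hf0)
    · exact (Int.toNat_lt (Int.emod_nonneg _ hf0.ne')).2 (Int.emod_lt_of_pos _ hf0)
  have hinj' : Set.InjOn idx ((Finset.range f ×ˢ Finset.range f : Finset (ℕ × ℕ)) : Set (ℕ × ℕ)) := by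
    intro p hp q hq hpq
    rw [Finset.mem_coe, Finset.mem_product, Finset.mem_range, Finset.mem_range] at hp hq
    have h1 := hidx p
    have h2 := hidx q
    rw [← hpq] at h2
    have h3 : (3 * f : Eis) ∣ φ p.1 p.2 - φ q.1 q.2 := by
      have := dvd_sub h1 h2
      have e : φ p.1 p.2 - cc (idx p).1 (idx p).2 - (φ q.1 q.2 - cc (idx p).1 (idx p).2) =
        φ p.1 p.2 - φ q.1 q.2 := by ring
      rwa [e] at this
    obtain ⟨h4, h5⟩ := hinj _ _ _ _ hp.1 hp.2 hq.1 hq.2 h3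
    exact Prod.ext h4 h5
  refine Finset.sum_nbij idx hmaps hinj' ?_ ?_
  · exact Finset.surjOn_of_injOn_of_card_le _ hmaps hinj' le_rfl
  · intro p _
    exact hh _ _ (hφ _ _) (b2_primary_cc _ _) (hidx p)

theorem b2_cc_inj (f : ℕ) (hf : f ≠ 0) (i j i' j' : ℕ) (hi : i < f) (hj : j < f) (hi' : i' < f)
    (hj' : j' < f) (h : (f : Eis) ∣ (⟨(i : ℤ) - i', (j : ℤ) - j'⟩ : Eis)) : i = i' ∧ j = j' := by
  rw [b2_dvd_iff] at h
  obtain ⟨h1, h2⟩ := h
  simp only at h1 h2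
  constructor
  · have : ((i : ℤ) - i') = 0 := by
      apply Int.eq_zero_of_abs_lt_dvd h1
      rw [abs_lt]; constructor <;> omega
    omega
  · have : ((j : ℤ) - j') = 0 := by
      apply Int.eq_zero_of_abs_lt_dvd h2
      rw [abs_lt]; constructor <;> omega
    omega

theorem b2_three_ne : (3 : Eis) ≠ 0 := by
  intro h
  have := congrArg QuadraticAlgebra.re h
  have h3 : (3 : Eis).re = 3 := rfl
  rw [h3] at this
  norm_num at this

theorem b2_cc_sub (i j i' j' : ℕ) :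
    cc i j - cc i' j' = 3 * (⟨(i : ℤ) - i', (j : ℤ) - j'⟩ : Eis) := by
  have h3 : (3 : Eis).re = 3 := rfl
  have h4 : (3 : Eis).im = 0 := rfl
  ext
  · simp only [QuadraticAlgebra.re_sub, b2_re, QuadraticAlgebra.re_mul, h3, h4]; ring
  · simp only [QuadraticAlgebra.im_sub, b2_im, QuadraticAlgebra.im_mul, h3, h4]; ring

theorem b2_cancel {f : ℕ} {x : Eis} (h : (3 * f : Eis) ∣ 3 * x) : (f : Eis) ∣ x := by
  obtain ⟨y, hy⟩ := h
  refine ⟨y, ?_⟩
  have : (3 : Eis) * x = 3 * ((f : Eis) * y) := by rw [hy]; ring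
  exact emb_injective (by
    have h1 := congrArg emb this
    rw [map_mul, map_mul] at h1
    have h2 : emb 3 ≠ 0 := by
      rw [map_ofNat]
      norm_num
    exact mul_left_cancel₀ h2 h1)

theorem sum_mul (f : ℕ) (hf : f ≠ 0) (u : Eis) (hu : Primary u)
    (hu' : ∃ u' : Eis, (f : Eis) ∣ u * u' - 1) (h : Eis → ℂ)
    (hh : ∀ c d : Eis, Primary c → Primary d → (3 * f : Eis) ∣ c - d → h c = h d) :
    ∑ i ∈ Finset.range f, ∑ j ∈ Finset.range f, h (cc i j * u) =
      ∑ i ∈ Finset.range f, ∑ j ∈ Finset.range f, h (cc i j) := by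
  obtain ⟨u', hu'⟩ := hu'
  refine b2_gen f hf (fun i j => cc i j * u) (fun i j => b2_primary_mul (b2_primary_cc i j) hu)
    ?_ h hh
  intro i j i' j' hi hj hi' hj' hd
  apply b2_cc_inj f hf i j i' j' hi hj hi' hj'
  have h1 : cc i j * u - cc i' j' * u = 3 * ((⟨(i : ℤ) - i', (j : ℤ) - j'⟩ : Eis) * u) := by
    rw [← sub_mul, b2_cc_sub]; ring
  simp only [h1] at hd
  have h2 := b2_cancel hd
  have h3 : (⟨(i : ℤ) - i', (j : ℤ) - j'⟩ : Eis) =
      (⟨(i : ℤ) - i', (j : ℤ) - j'⟩ : Eis) * u * u' -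
        (⟨(i : ℤ) - i', (j : ℤ) - j'⟩ : Eis) * (u * u' - 1) := by ring
  rw [h3]
  exact dvd_sub (h2.mul_right u') (hu'.mul_left _)

theorem sum_star (f : ℕ) (hf : f ≠ 0) (h : Eis → ℂ)
    (hh : ∀ c d : Eis, Primary c → Primary d → (3 * f : Eis) ∣ c - d → h c = h d) :
    ∑ i ∈ Finset.range f, ∑ j ∈ Finset.range f, h (star (cc i j)) =
      ∑ i ∈ Finset.range f, ∑ j ∈ Finset.range f, h (cc i j) := by
  refine b2_gen f hf (fun i j => star (cc i j)) (fun i j => b2_primary_star (b2_primary_cc i j))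
    ?_ h hh
  intro i j i' j' hi hj hi' hj' hd
  apply b2_cc_inj f hf i j i' j' hi hj hi' hj'
  obtain ⟨t, ht⟩ := hd
  have h1 : cc i j - cc i' j' = (3 * f : Eis) * star t := by
    have h2 := congrArg star ht
    rw [star_sub, star_star, star_star, star_mul] at h2
    rw [h2]
    have h3 : star (3 * f : Eis) = 3 * f := by
      rw [star_mul]
      simp [mul_comm]
    rw [h3]
    ring
  apply b2_cancel
  rw [← b2_cc_sub]
  exact ⟨star t, h1⟩

/-- the summand -/
theorem b2_h {f : ℕ} (hf : f ≠ 0) (χ : DirichletCharacter ℂ f) (c d : Eis)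
    (hcd : (3 * f : Eis) ∣ c - d) :
    chiN χ c * lx (emb c / (3 * f)) = chiN χ d * lx (emb d / (3 * f)) := by
  obtain ⟨t, ht⟩ := hcd
  have hc : c = d + 3 * f * t := by rw [← ht]; ring
  have hf1 : (f : ℂ) ≠ 0 := by exact_mod_cast hf
  have h1 : emb c / (3 * f) = emb d / (3 * f) + emb t := by
    rw [hc, map_add, map_mul, map_mul, map_ofNat, map_natCast]
    field_simp
  have h2 : ((c.norm : ℤ) : ZMod f) = ((d.norm : ℤ) : ZMod f) := by
    have hr : (3 * f * t : Eis).re = f * (3 * t.re) := by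
      have h3 : (3 : Eis).re = 3 := rfl
      have h4 : (3 : Eis).im = 0 := rfl
      have hr : ((f : ℕ) : Eis).re = f := rfl
      have hi : ((f : ℕ) : Eis).im = 0 := rfl
      simp only [QuadraticAlgebra.re_mul, QuadraticAlgebra.im_mul, h3, h4, hr, hi]; ring
    have hi : (3 * f * t : Eis).im = f * (3 * t.im) := by
      have h3 : (3 : Eis).re = 3 := rfl
      have h4 : (3 : Eis).im = 0 := rfl
      have hr : ((f : ℕ) : Eis).re = f := rfl
      have hi : ((f : ℕ) : Eis).im = 0 := rfl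
      simp only [QuadraticAlgebra.re_mul, QuadraticAlgebra.im_mul, h3, h4, hr, hi]; ring
    rw [norm_eq, norm_eq, hc, QuadraticAlgebra.re_add, QuadraticAlgebra.im_add, hr, hi]
    push_cast
    have hz : ((f : ℕ) : ZMod f) = 0 := ZMod.natCast_self f
    rw [hz]
    ring
  rw [h1, lx_add]
  unfold chiN
  rw [h2]

theorem b2_norm_mul (a b : Eis) : (a * b).norm = a.norm * b.norm := by
  have h1 := normSq_emb (a * b)
  rw [map_mul, Complex.normSq_mul, normSq_emb, normSq_emb] at h1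
  exact_mod_cast h1.symm

theorem b2_norm_star (a : Eis) : (star a).norm = a.norm := by
  have h1 := normSq_emb (star a)
  rw [emb_star, Complex.normSq_conj, normSq_emb] at h1
  exact_mod_cast h1.symm

theorem b2_coprime (m : ℕ) (u u' : Eis) (h : ((3 * m : ℕ) : Eis) ∣ u * u' - 1) :
    IsCoprime u.norm (m : ℤ) := by
  obtain ⟨t, ht⟩ := h
  have h1 : u * u' = 1 + ((3 * m : ℕ) : Eis) * t := by rw [← ht]; ring
  have h2 : u.norm * u'.norm = 1 + m * (3 * (2 * t.re - t.im) + 9 * m * t.norm) := by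
    rw [← b2_norm_mul, h1, norm_eq, norm_eq]
    have h3 : (1 : Eis).re = 1 := rfl
    have h4 : (1 : Eis).im = 0 := rfl
    have hr : ((3 * m : ℕ) : Eis).re = ((3 * m : ℕ) : ℤ) := rfl
    have hi : ((3 * m : ℕ) : Eis).im = 0 := rfl
    simp only [QuadraticAlgebra.re_add, QuadraticAlgebra.im_add, QuadraticAlgebra.re_mul,
      QuadraticAlgebra.im_mul, h3, h4, hr, hi]
    push_cast
    ring
  refine ⟨u'.norm, -(3 * (2 * t.re - t.im) + 9 * m * t.norm), ?_⟩
  linear_combination h2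

theorem TS_gal (m : ℕ) (hm : Odd m) (σ : ℂ ≃+* ℂ) : ∃ a : ℤ, IsCoprime a (m : ℤ) ∧
    ∀ (f : ℕ), f ∣ m → ∀ χ : DirichletCharacter ℂ f,
      σ (TS χ) ^ 2 * (χ.ringHomComp (σ : ℂ →+* ℂ) (a : ZMod f)) ^ 2 =
        TS (χ.ringHomComp (σ : ℂ →+* ℂ)) ^ 2 := by
  have hm0 : m ≠ 0 := by rintro rfl; simp at hm
  obtain ⟨u, u', huu, hu3, hcase⟩ := gal_any (3 * m) (by positivity) (dvd_mul_right 3 m) σ
  refine ⟨u.norm, b2_coprime m u u' huu, ?_⟩
  rintro f ⟨g, hg⟩ χ
  have hf0 : f ≠ 0 := by rintro rfl; simp at hg; exact hm0 hg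
  have hg0 : g ≠ 0 := by rintro rfl; simp at hg; exact hm0 hg
  have hf1 : (f : ℂ) ≠ 0 := by exact_mod_cast hf0
  have hg1 : (g : ℂ) ≠ 0 := by exact_mod_cast hg0
  set χ' := χ.ringHomComp (σ : ℂ →+* ℂ) with hχ'
  have hfu : ∃ u' : Eis, (f : Eis) ∣ u * u' - 1 := by
    refine ⟨u', dvd_trans ?_ huu⟩
    rw [hg]
    push_cast
    exact ⟨3 * g, by ring⟩
  have hdiv : ∀ c : Eis, emb (c * g) / ((3 * m : ℕ) : ℂ) = emb c / (3 * f) := by
    intro c
    rw [map_mul, map_natCast, hg]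
    push_cast
    field_simp
  let h : Eis → ℂ := fun c => chiN χ' c * lx (emb c / (3 * f))
  have hh : ∀ c d : Eis, Primary c → Primary d → (3 * f : Eis) ∣ c - d → h c = h d :=
    fun c d _ _ hcd => b2_h hf0 χ' c d hcd
  have hTS : TS χ' = ∑ i ∈ Finset.range f, ∑ j ∈ Finset.range f, h (cc i j) := rfl
  have hσ : ∀ c, σ (chiN χ c) = chiN χ' c := by
    intro c
    rfl
  have hprod : ∀ c : Eis, chiN χ' c * χ' ((u.norm : ℤ) : ZMod f) = chiN χ' (c * u) := by
    intro c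
    unfold chiN
    rw [b2_norm_mul, ← map_mul]
    push_cast
    rfl
  have hσTS : σ (TS χ) = ∑ i ∈ Finset.range f, ∑ j ∈ Finset.range f,
      chiN χ' (cc i j) * σ (lx (emb (cc i j) / (3 * f))) := by
    unfold TS
    rw [map_sum]
    apply Finset.sum_congr rfl
    intro i _
    rw [map_sum]
    apply Finset.sum_congr rfl
    intro j _
    rw [map_mul, hσ]
  rcases hcase with hc | hc
  · have h1 : σ (TS χ) * χ' ((u.norm : ℤ) : ZMod f) = TS χ' := by
      rw [hTS, ← sum_mul f hf0 u hu3 hfu h hh, hσTS, Finset.sum_mul]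
      apply Finset.sum_congr rfl
      intro i _
      rw [Finset.sum_mul]
      apply Finset.sum_congr rfl
      intro j _
      have h2 : σ (lx (emb (cc i j) / (3 * f))) = lx (emb (cc i j * u) / (3 * f)) := by
        apply lx_ptMap (σ : ℂ →+* ℂ) _ _ (off_primary f hf0 _ (b2_primary_cc i j))
        have h3 := hc (cc i j * g)
        have h4 : cc i j * (g : Eis) * u = cc i j * u * g := by ring
        rw [h4, hdiv, hdiv] at h3
        exact h3
      show chiN χ' (cc i j) * σ (lx (emb (cc i j) / (3 * f))) * χ' ((u.norm : ℤ) : ZMod f) =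
        chiN χ' (cc i j * u) * lx (emb (cc i j * u) / (3 * f))
      rw [h2, ← hprod]
      ring
    rw [← h1]
    ring
  · have h1 : σ (TS χ) * χ' ((u.norm : ℤ) : ZMod f) = - TS χ' := by
      have h5 : ∑ i ∈ Finset.range f, ∑ j ∈ Finset.range f, h (cc i j) =
          ∑ i ∈ Finset.range f, ∑ j ∈ Finset.range f, h (star (cc i j) * u) := by
        rw [← sum_mul f hf0 u hu3 hfu h hh]
        refine (sum_star f hf0 (fun c => h (c * u)) ?_).symm
        intro c d hc hd hcd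
        apply hh _ _ (b2_primary_mul hc hu3) (b2_primary_mul hd hu3)
        rw [← sub_mul]
        exact hcd.mul_right u
      rw [hTS, h5, hσTS, Finset.sum_mul, ← Finset.sum_neg_distrib]
      apply Finset.sum_congr rfl
      intro i _
      rw [Finset.sum_mul, ← Finset.sum_neg_distrib]
      apply Finset.sum_congr rfl
      intro j _
      have h2 : σ (lx (emb (cc i j) / (3 * f))) = - lx (emb (star (cc i j) * u) / (3 * f)) := by
        rw [← lx_neg]
        apply lx_ptMap (σ : ℂ →+* ℂ) _ _ (off_primary f hf0 _ (b2_primary_cc i j))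
        have h3 := hc (cc i j * g)
        have h4 : -(star (cc i j * (g : Eis))) * u = (-(star (cc i j) * u)) * g := by
          rw [star_mul]
          have : star (g : Eis) = g := by simp
          rw [this]
          ring
        rw [h4, hdiv, hdiv, map_neg, neg_div] at h3
        exact h3
      show chiN χ' (cc i j) * σ (lx (emb (cc i j) / (3 * f))) * χ' ((u.norm : ℤ) : ZMod f) =
        -(chiN χ' (star (cc i j) * u) * lx (emb (star (cc i j) * u) / (3 * f)))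
      have h6 : chiN χ' (star (cc i j)) = chiN χ' (cc i j) := by
        unfold chiN
        rw [b2_norm_star]
      rw [h2, ← hprod, h6]
      ring
    have h2 : σ (TS χ) ^ 2 * χ' ((u.norm : ℤ) : ZMod f) ^ 2 =
        (σ (TS χ) * χ' ((u.norm : ℤ) : ZMod f)) ^ 2 := by ring
    rw [h2, h1]
    ring

end CM27

end

/-! ### part B3 -/

section

set_option autoImplicit false

open scoped ComplexConjugate
open Polynomial NumberField IsDedekindDomain
open scoped Classical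

namespace CM27

/-! ## [AN-B3] the product over the characters of `F` is fixed (file B3.lean; uses B2)

* `WW_eq`: if `ψ` is a primitive character modulo `d ∣ m` and `χ = changeLevel ψ` then `conductor χ = d` and
  `χ.primitiveCharacter = ψ` (up to the cast; `subst`).
* `WW_gal`: apply `TS_gal` to `ψ = χ.primitiveCharacter`; `σχ = changeLevel (σψ)` and `σψ` is primitive; value of `σχ` at the unit `a` is
  that of `σψ`.
* `prod_sq_one`: `chars m F` is closed under inverses.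
* `prod_fixed`: `χ ↦ σχ` is a bijection of `chars m F`. -/

theorem b3_aux (m : ℕ) [NeZero m] {d d' : ℕ} (hd : d ∣ m) (hd' : d' ∣ m)
    (ψ : DirichletCharacter ℂ d) (ψ' : DirichletCharacter ℂ d') (h : d' = d)
    (e : DirichletCharacter.changeLevel hd' ψ' = DirichletCharacter.changeLevel hd ψ) :
    (3 * d' : ℂ)⁻¹ * (2 + (ψ' 4)⁻¹)⁻¹ * TS ψ' = (3 * d : ℂ)⁻¹ * (2 + (ψ 4)⁻¹)⁻¹ * TS ψ := by
  subst h
  have h2 := DirichletCharacter.changeLevel_injective hd' e
  subst h2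
  rfl

theorem b3_WW (m : ℕ) [NeZero m] {d : ℕ} (hd : d ∣ m) (χ : DirichletCharacter ℂ m)
    (ψ : DirichletCharacter ℂ d) (hc : χ.conductor = d)
    (e : χ = DirichletCharacter.changeLevel hd ψ) :
    WW χ = (3 * d : ℂ)⁻¹ * (2 + (ψ 4)⁻¹)⁻¹ * TS ψ :=
  b3_aux m hd χ.conductor_dvd_level ψ χ.primitiveCharacter hc
    (by rw [DirichletCharacter.changeLevel_primitiveCharacter]; exact e)

theorem WW_eq (m : ℕ) [NeZero m] (d : ℕ) (hd : d ∣ m) (ψ : DirichletCharacter ℂ d)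
    (hψ : ψ.IsPrimitive) : WW (DirichletCharacter.changeLevel hd ψ) =
      (3 * d : ℂ)⁻¹ * (2 + (ψ 4)⁻¹)⁻¹ * TS ψ := by
  apply b3_WW m hd _ ψ _ rfl
  rw [DirichletCharacter.conductor_changeLevel]
  exact hψ

theorem b3_comp_apply {m : ℕ} (χ : DirichletCharacter ℂ m) (σ : ℂ ≃+* ℂ) (a : ZMod m) :
    χ.ringHomComp (σ : ℂ →+* ℂ) a = σ (χ a) := rfl

theorem b3_comp_changeLevel {d m : ℕ} (hd : d ∣ m) (ψ : DirichletCharacter ℂ d) (σ : ℂ ≃+* ℂ) :
    DirichletCharacter.changeLevel hd (ψ.ringHomComp (σ : ℂ →+* ℂ)) =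
      (DirichletCharacter.changeLevel hd ψ).ringHomComp (σ : ℂ →+* ℂ) := by
  apply MulChar.ext
  intro a
  rw [DirichletCharacter.changeLevel_eq_cast_of_dvd, b3_comp_apply, b3_comp_apply,
    DirichletCharacter.changeLevel_eq_cast_of_dvd]

theorem b3_comp_eq {m : ℕ} [NeZero m] (χ : DirichletCharacter ℂ m) (σ : ℂ ≃+* ℂ) :
    χ.ringHomComp (σ : ℂ →+* ℂ) = DirichletCharacter.changeLevel χ.conductor_dvd_level
      (χ.primitiveCharacter.ringHomComp (σ : ℂ →+* ℂ)) := by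
  rw [b3_comp_changeLevel, DirichletCharacter.changeLevel_primitiveCharacter]

theorem b3_conductor_dvd {m : ℕ} [NeZero m] (χ : DirichletCharacter ℂ m) (σ : ℂ ≃+* ℂ) :
    DirichletCharacter.conductor (χ.ringHomComp (σ : ℂ →+* ℂ)) ∣ χ.conductor :=
  DirichletCharacter.conductor_dvd_of_mem_conductorSet _
    ⟨χ.conductor_dvd_level, _, b3_comp_eq χ σ⟩

theorem b3_comp_symm {m : ℕ} (χ : DirichletCharacter ℂ m) (σ : ℂ ≃+* ℂ) :
    (χ.ringHomComp (σ : ℂ →+* ℂ)).ringHomComp (σ.symm : ℂ →+* ℂ) = χ := by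
  apply MulChar.ext
  intro a
  rw [b3_comp_apply, b3_comp_apply, RingEquiv.symm_apply_apply]

theorem b3_comp_symm' {m : ℕ} (χ : DirichletCharacter ℂ m) (σ : ℂ ≃+* ℂ) :
    (χ.ringHomComp (σ.symm : ℂ →+* ℂ)).ringHomComp (σ : ℂ →+* ℂ) = χ := by
  apply MulChar.ext
  intro a
  rw [b3_comp_apply, b3_comp_apply, RingEquiv.apply_symm_apply]

theorem b3_conductor {m : ℕ} [NeZero m] (χ : DirichletCharacter ℂ m) (σ : ℂ ≃+* ℂ) :
    DirichletCharacter.conductor (χ.ringHomComp (σ : ℂ →+* ℂ)) = χ.conductor := by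
  apply Nat.dvd_antisymm (b3_conductor_dvd χ σ)
  have h := b3_conductor_dvd (χ.ringHomComp (σ : ℂ →+* ℂ)) σ.symm
  rwa [b3_comp_symm] at h

theorem WW_gal (m : ℕ) [NeZero m] (hm : Odd m) (σ : ℂ ≃+* ℂ) : ∃ a : (ZMod m)ˣ,
    ∀ χ : DirichletCharacter ℂ m,
      σ (WW χ) ^ 2 * (χ.ringHomComp (σ : ℂ →+* ℂ) (a : ZMod m)) ^ 2 =
        WW (χ.ringHomComp (σ : ℂ →+* ℂ)) ^ 2 := by
  obtain ⟨a, ha, H⟩ := TS_gal m hm σ
  refine ⟨ZMod.unitOfIsCoprime a ha, fun χ => ?_⟩
  set ψ := χ.primitiveCharacter with hψ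
  have h1 := b3_WW m χ.conductor_dvd_level (χ.ringHomComp (σ : ℂ →+* ℂ))
    (ψ.ringHomComp (σ : ℂ →+* ℂ)) (b3_conductor χ σ) (b3_comp_eq χ σ)
  have h2 := H χ.conductor χ.conductor_dvd_level ψ
  have h3 : χ.ringHomComp (σ : ℂ →+* ℂ) ((ZMod.unitOfIsCoprime a ha : (ZMod m)ˣ) : ZMod m) =
      ψ.ringHomComp (σ : ℂ →+* ℂ) (a : ZMod χ.conductor) := by
    rw [ZMod.coe_unitOfIsCoprime]
    conv_lhs => rw [b3_comp_eq χ σ]
    rw [DirichletCharacter.changeLevel_eq_cast_of_dvd' _ _ ha]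
  have h4 : σ (WW χ) = (3 * χ.conductor : ℂ)⁻¹ *
      (2 + (ψ.ringHomComp (σ : ℂ →+* ℂ) 4)⁻¹)⁻¹ * σ (TS ψ) := by
    rw [WW, ← hψ, b3_comp_apply]
    simp only [map_mul, map_inv₀, map_add, map_natCast, map_ofNat]
  rw [h1, h3, h4, mul_pow, mul_pow, mul_pow, mul_pow, ← h2]
  ring

theorem b3_mem {m : ℕ} [NeZero m] {M : Type} [Field M] [NumberField M]
    [IsCyclotomicExtension {m} ℚ M] (F : IntermediateField ℚ M) (χ : DirichletCharacter ℂ m) :
    χ ∈ chars m F ↔ ∀ σ : Gal(M/ℚ), σ ∈ F.fixingSubgroup →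
      χ (IsCyclotomicExtension.Rat.galEquivZMod m M σ : (ZMod m)ˣ) = 1 := by
  rw [chars, Set.Finite.mem_toFinset, Set.mem_ofPred_eq]

theorem chars_gal (m : ℕ) [NeZero m] (M : Type) [Field M] [NumberField M]
    [IsCyclotomicExtension {m} ℚ M] (F : IntermediateField ℚ M) (σ : ℂ ≃+* ℂ)
    (χ : DirichletCharacter ℂ m) :
    χ.ringHomComp (σ : ℂ →+* ℂ) ∈ chars m F ↔ χ ∈ chars m F := by
  rw [b3_mem, b3_mem]
  refine forall_congr' fun g => forall_congr' fun _ => ?_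
  rw [b3_comp_apply]
  constructor
  · intro h
    apply σ.injective
    rw [h, map_one]
  · intro h
    rw [h, map_one]

theorem b3_prod_comp (m : ℕ) [NeZero m] (M : Type) [Field M] [NumberField M]
    [IsCyclotomicExtension {m} ℚ M] (F : IntermediateField ℚ M) (σ : ℂ ≃+* ℂ)
    (f : DirichletCharacter ℂ m → ℂ) :
    ∏ χ ∈ chars m F, f (χ.ringHomComp (σ : ℂ →+* ℂ)) = ∏ χ ∈ chars m F, f χ := by
  refine Finset.prod_bij' (fun χ _ => χ.ringHomComp (σ : ℂ →+* ℂ))
    (fun χ _ => χ.ringHomComp (σ.symm : ℂ →+* ℂ)) ?_ ?_ ?_ ?_ ?_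
  · intro χ hχ
    exact (chars_gal m M F σ χ).2 hχ
  · intro χ hχ
    exact (chars_gal m M F σ.symm χ).2 hχ
  · intro χ _
    exact b3_comp_symm χ σ
  · intro χ _
    exact b3_comp_symm' χ σ
  · intro χ _
    rfl

theorem b3_inv_mem {m : ℕ} [NeZero m] {M : Type} [Field M] [NumberField M]
    [IsCyclotomicExtension {m} ℚ M] (F : IntermediateField ℚ M) (χ : DirichletCharacter ℂ m)
    (h : χ ∈ chars m F) : χ⁻¹ ∈ chars m F := by
  rw [b3_mem] at h ⊢
  intro g hg
  rw [MulChar.inv_apply_eq_inv', h g hg, inv_one]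

theorem prod_sq_one (m : ℕ) [NeZero m] (M : Type) [Field M] [NumberField M]
    [IsCyclotomicExtension {m} ℚ M] (F : IntermediateField ℚ M) (a : (ZMod m)ˣ) :
    ∏ χ ∈ chars m F, (χ (a : ZMod m)) ^ 2 = 1 := by
  have h1 : ∏ χ ∈ chars m F, χ (a : ZMod m) = ∏ χ ∈ chars m F, χ⁻¹ (a : ZMod m) := by
    symm
    refine Finset.prod_bij' (fun χ _ => χ⁻¹) (fun χ _ => χ⁻¹) ?_ ?_ ?_ ?_ ?_
    · intro χ hχ
      exact b3_inv_mem F χ hχ
    · intro χ hχ
      exact b3_inv_mem F χ hχ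
    · intro χ _
      exact inv_inv χ
    · intro χ _
      exact inv_inv χ
    · intro χ _
      rfl
  have h2 : ∏ χ ∈ chars m F, χ⁻¹ (a : ZMod m) = (∏ χ ∈ chars m F, χ (a : ZMod m))⁻¹ := by
    rw [← Finset.prod_inv_distrib]
    refine Finset.prod_congr rfl fun χ _ => ?_
    rw [MulChar.inv_apply_eq_inv']
  have h3 : ∏ χ ∈ chars m F, χ (a : ZMod m) ≠ 0 := by
    rw [Finset.prod_ne_zero_iff]
    intro χ _ h0
    have := MulChar.map_nonunit χ (a := (a : ZMod m))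
    have hu : IsUnit (χ (a : ZMod m)) := a.isUnit.map χ
    exact hu.ne_zero h0
  rw [Finset.prod_pow, sq]
  conv_lhs => rw [h1, h2]
  have h4 := h1.trans h2
  rw [← h2, ← h1]
  nth_rewrite 2 [h4]
  exact mul_inv_cancel₀ h3

theorem prod_fixed (m : ℕ) [NeZero m] (hm : Odd m) (M : Type) [Field M] [NumberField M]
    [IsCyclotomicExtension {m} ℚ M] (F : IntermediateField ℚ M) (σ : ℂ ≃+* ℂ) :
    σ (∏ χ ∈ chars m F, WW χ ^ 2) = ∏ χ ∈ chars m F, WW χ ^ 2 := by
  obtain ⟨a, ha⟩ := WW_gal m hm σ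
  have h1 : ∏ χ ∈ chars m F, (σ (WW χ) ^ 2 *
      (χ.ringHomComp (σ : ℂ →+* ℂ) (a : ZMod m)) ^ 2) =
      ∏ χ ∈ chars m F, WW (χ.ringHomComp (σ : ℂ →+* ℂ)) ^ 2 :=
    Finset.prod_congr rfl fun χ _ => ha χ
  rw [Finset.prod_mul_distrib] at h1
  have h2 := b3_prod_comp m M F σ (fun χ => (χ (a : ZMod m)) ^ 2)
  have h3 := b3_prod_comp m M F σ (fun χ => WW χ ^ 2)
  rw [prod_sq_one] at h2
  rw [h2, mul_one, h3] at h1
  rw [map_prod]
  simp only [map_pow]
  exact h1

end CM27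

end

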