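import Pool.Agent.MP_9ab903_nt.AN.A6
import Pool.Agent.MP_9ab903_nt.AN.B1
import Pool.Agent.MP_ae0bd0_nt.CM.I4
import Pool.Agent.MP_ae0bd0_nt.CM.I2

set_option autoImplicit false

open scoped ComplexConjugate
open scoped Classical

namespace CM27

/-! ## [AN-B4] the twisted sums are 2-adic units (file B4.lean; uses I1, I2, I4, A2, A4, A6, B1)

`lx` is integral at all points `c/(3m)` (`x_val`, `val_slope` of I2 applied to `xw`, `yw` and `xw_two`).
`S₁ := Σ_{(N c, m) = 1} lx(c/3m)`: by `TT_nat`, `TT_level` (I4) and `lam_eq`: `OmC S₁ = P · OmC · lx(1/3)`, `v(P) = 1`, and `v(lx(1/3)) = 1` because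
`x³ = -1`, `y² = -3` (`third`; `v(3) = 1`). `TS χ - S₁ = Σ_{(N c, m) = 1} (χ(N c) - 1) lx(c/3m)` has valuation `< 1` (`val_root`: `χ(N c)` is a
root of unity of order a power of two; `χ(N c) = 0` if `N c` is not prime to `m`). Hence `v(TS χ) = 1`.
(Compare CM I5.) -/

theorem b4_odd (m : ℕ) (hm : GoodLevel m) : Odd m := by
  rw [← Nat.not_even_iff_odd]
  intro h
  have h2 := hm.2 2 Nat.prime_two h.two_dvd
  have h3 := h2.2.1
  omega

theorem b4_three (a : Eis) : (1 : Eis) ≠ 3 * a := by
  intro h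
  have h1 := congrArg QuadraticAlgebra.re h
  have h3 : (3 : Eis).re = 3 := rfl
  have h4 : (3 : Eis).im = 0 := rfl
  simp only [QuadraticAlgebra.re_mul, QuadraticAlgebra.re_one, h3, h4] at h1
  omega

theorem b4_emb_nat (k : ℕ) : emb (k : Eis) = (k : ℂ) := map_natCast emb k

theorem b4_emb_three : emb 3 = 3 := map_ofNat emb 3

/-- the point `emb c / (3 m)` with `c ≡ 1 mod 3` is not a lattice point -/
theorem b4_notmem (m : ℕ) (hm0 : m ≠ 0) (i j : ℕ) :
    emb (cc i j) / (3 * m) ∉ Set.range emb := by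
  rintro ⟨a, ha⟩
  have h3m : (3 * (m : ℂ)) ≠ 0 := by
    have : (m : ℂ) ≠ 0 := by exact_mod_cast hm0
    exact mul_ne_zero (by norm_num) this
  have h1 : emb (cc i j) = emb (3 * (m : Eis) * a) := by
    rw [map_mul, map_mul, b4_emb_three, b4_emb_nat, ha]
    field_simp
  have h2 := emb_injective h1
  have h3 : (1 : Eis) = 3 * ((m : Eis) * a - ⟨i, j⟩) := by
    rw [cc] at h2
    linear_combination h2
  exact b4_three _ h3

theorem b4_third_notmem : (1 / 3 : ℂ) ∉ Set.range emb := by
  have h := b4_notmem 1 one_ne_zero 0 0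
  have h1 : emb (cc 0 0) / (3 * ((1 : ℕ) : ℂ)) = 1 / 3 := by
    have : cc 0 0 = 1 := by
      rw [cc]
      have h0 : (⟨((0 : ℕ) : ℤ), ((0 : ℕ) : ℤ)⟩ : Eis) = 0 := rfl
      rw [h0]; ring
    rw [this, map_one]
    norm_num
  rwa [h1] at h

theorem b4_third_val (A : ValuationSubring ℂ) (h2 : A.valuation 2 < 1) :
    A.valuation (lx (1 / 3)) = 1 := by
  obtain ⟨hX3, hY2⟩ := third
  have v3 : A.valuation (3 : ℂ) = 1 := by
    have := val_odd A h2 3 (by decide)
    simpa using this
  have vX : A.valuation (xw (1 / 3)) = 1 := by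
    have h1 : A.valuation (xw (1 / 3)) ^ 3 = 1 := by
      rw [← map_pow, hX3, Valuation.map_neg, map_one]
    exact (pow_eq_one_iff_of_nonneg zero_le (by norm_num)).1 h1
  have vY : A.valuation (yw (1 / 3)) = 1 := by
    have h1 : A.valuation (yw (1 / 3)) ^ 2 = 1 := by
      rw [← map_pow, hY2, Valuation.map_neg, v3]
    exact (pow_eq_one_iff_of_nonneg zero_le (by norm_num)).1 h1
  rw [lx, map_div₀, map_mul, map_pow, v3, vX, vY]
  simp

theorem TS_unit (m : ℕ) (hm : GoodLevel m) (χ : DirichletCharacter ℂ m) (n : ℕ)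
    (hχ : χ ^ (2 ^ n) = 1) (A : ValuationSubring ℂ) (hA : A.valuation 2 < 1) :
    A.valuation (TS χ) = 1 := by
  obtain ⟨P, hP, hPA⟩ := TT_level m hm
  have hPA := hPA A hA
  have hmodd := b4_odd m hm
  have hm0 : m ≠ 0 := by rintro rfl; simp at hmodd
  have h3m : (3 * (m : ℂ)) ≠ 0 := by
    have : (m : ℂ) ≠ 0 := by exact_mod_cast hm0
    exact mul_ne_zero (by norm_num) this
  have hN : Odd (3 * m) := Odd.mul (by decide) hmodd
  have hz : ∀ i j : ℕ, ((3 * m : ℕ) : ℂ) * (emb (cc i j) / (3 * (m : ℂ))) ∈ Set.range emb := by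
    intro i j
    refine ⟨cc i j, ?_⟩
    push_cast
    field_simp
  have hoff : ∀ i j : ℕ, Off (emb (cc i j) / (3 * (m : ℂ))) := fun i j =>
    off_of_odd (3 * m) hN _ (hz i j) (b4_notmem m hm0 i j)
  -- the values `lx` are integral
  have hint : ∀ i j : ℕ, A.valuation (lx (emb (cc i j) / (3 * m))) ≤ 1 := by
    intro i j
    have hxv := x_val A hA xw xw_add xw_two (3 * m) hN _ (hz i j) (b4_notmem m hm0 i j)
    exact (val_slope A hA _ _ hxv (weq _ (b4_notmem m hm0 i j))).2
  -- the value at `1/3` is a unit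
  have hthird := b4_third_val A hA
  have hoff3 : Off (1 / 3) := by
    have hz3 : ((3 : ℕ) : ℂ) * (1 / 3) ∈ Set.range emb := ⟨1, by rw [map_one]; norm_num⟩
    exact off_of_odd 3 (by decide) (1 / 3) hz3 b4_third_notmem
  -- comparison with the sum over the coprime classes
  have hT := TT_nat m hm
  rw [hP, lam_eq _ hoff3] at hT
  have hT2 : (∑ i ∈ Finset.range m, ∑ j ∈ Finset.range m,
      if IsCoprime ((cc i j).norm) (m : ℤ) then lx (emb (cc i j) / (3 * m)) else 0)
      = P * lx (1 / 3) := by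
    have e1 : (∑ i ∈ Finset.range m, ∑ j ∈ Finset.range m,
        if IsCoprime ((cc i j).norm) (m : ℤ) then lam (emb (cc i j) / (3 * m)) else 0)
        = OmC * ∑ i ∈ Finset.range m, ∑ j ∈ Finset.range m,
          if IsCoprime ((cc i j).norm) (m : ℤ) then lx (emb (cc i j) / (3 * m)) else 0 := by
      rw [Finset.mul_sum]
      refine Finset.sum_congr rfl fun i _ => ?_
      rw [Finset.mul_sum]
      refine Finset.sum_congr rfl fun j _ => ?_
      split_ifs
      · exact lam_eq _ (hoff i j)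
      · rw [mul_zero]
    rw [e1] at hT
    have : OmC * (P * lx (1 / 3)) = OmC * ∑ i ∈ Finset.range m, ∑ j ∈ Finset.range m,
          if IsCoprime ((cc i j).norm) (m : ℤ) then lx (emb (cc i j) / (3 * m)) else 0 := by
      rw [← hT]; ring
    exact (mul_left_cancel₀ OmC_ne this).symm
  have hkey : A.valuation ((∑ i ∈ Finset.range m, ∑ j ∈ Finset.range m,
      (chiN χ (cc i j) * lx (emb (cc i j) / (3 * m)) -
        (if IsCoprime ((cc i j).norm) (m : ℤ) then lx (emb (cc i j) / (3 * m)) else 0)))) < 1 := by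
    refine Valuation.map_sum_lt _ one_ne_zero fun i _ => ?_
    refine Valuation.map_sum_lt _ one_ne_zero fun j _ => ?_
    by_cases hc : IsCoprime ((cc i j).norm) (m : ℤ)
    · rw [if_pos hc]
      have h1 : chiN χ (cc i j) * lx (emb (cc i j) / (3 * m)) - lx (emb (cc i j) / (3 * m)) =
          (chiN χ (cc i j) - 1) * lx (emb (cc i j) / (3 * m)) := by ring
      rw [h1, map_mul]
      have hunit : IsUnit (((cc i j).norm : ℤ) : ZMod m) := by
        rw [ZMod.coe_int_isUnit_iff_isCoprime]
        exact hc.symm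
      have hroot : (chiN χ (cc i j)) ^ 2 ^ n = 1 := by
        rw [chiN]
        have := congrArg (fun f : DirichletCharacter ℂ m => f (((cc i j).norm : ℤ) : ZMod m)) hχ
        simp only [MulChar.one_apply hunit] at this
        rw [← this, MulChar.pow_apply' _ (by positivity)]
      have hv := (val_root A hA _ n hroot).2
      calc A.valuation (chiN χ (cc i j) - 1) * A.valuation (lx (emb (cc i j) / (3 * m)))
          ≤ A.valuation (chiN χ (cc i j) - 1) * 1 := mul_le_mul_right (hint i j) _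
        _ < 1 := by rw [mul_one]; exact hv
    · rw [if_neg hc]
      have hnu : ¬ IsUnit (((cc i j).norm : ℤ) : ZMod m) := by
        rw [ZMod.coe_int_isUnit_iff_isCoprime]
        intro h; exact hc h.symm
      rw [chiN, MulChar.map_nonunit _ hnu]
      simp
  have hsum : TS χ = (∑ i ∈ Finset.range m, ∑ j ∈ Finset.range m,
      (chiN χ (cc i j) * lx (emb (cc i j) / (3 * m)) -
        (if IsCoprime ((cc i j).norm) (m : ℤ) then lx (emb (cc i j) / (3 * m)) else 0)))
      + P * lx (1 / 3) := by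
    rw [← hT2]
    simp only [Finset.sum_sub_distrib]
    rw [TS]
    ring
  have hone : A.valuation (P * lx (1 / 3)) = 1 := by rw [map_mul, hPA, hthird, mul_one]
  rw [hsum, Valuation.map_add_eq_of_lt_right _ (by rw [hone]; exact hkey), hone]

end CM27
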