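import Pool.Agent.MP_9ab903_nt.AN.A8
import Pool.Agent.MP_9ab903_nt.AN.A9
import Pool.Agent.MP_9ab903_nt.AN.B3
import Pool.Agent.MP_9ab903_nt.AN.B4
import Pool.Agent.MP_ae0bd0_nt.CM.D6

set_option autoImplicit false

open scoped ComplexConjugate
open Polynomial NumberField IsDedekindDomain
open scoped Classical

namespace CM27

/-! ## [AN-B5] rationality and 2-adic valuation of the algebraic part (file B5.lean) -/

theorem b5_val_even (A : ValuationSubring ℂ) (hA : A.valuation 2 < 1) (n : ℤ) (hn : (2 : ℤ) ∣ n) :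
    A.valuation (n : ℂ) < 1 := by
  obtain ⟨k, rfl⟩ := hn
  push_cast
  rw [map_mul]
  calc A.valuation 2 * A.valuation (k : ℂ) ≤ A.valuation 2 * 1 :=
        mul_le_mul_right (i1_val_int A k) _
    _ < 1 := by rw [mul_one]; exact hA

theorem rat_val (q : ℚ) (A : ValuationSubring ℂ) (hA : A.valuation 2 < 1)
    (h : A.valuation (q : ℂ) = 1) : padicValRat 2 q = 0 := by
  have hd : (q.den : ℂ) ≠ 0 := by exact_mod_cast q.den_nz
  have hq : (q : ℂ) * ((q.den : ℤ) : ℂ) = ((q.num : ℤ) : ℂ) := by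
    have : (q : ℚ) * q.den = q.num := Rat.mul_den_eq_num q
    exact_mod_cast congrArg (Rat.cast : ℚ → ℂ) this
  have hv := congrArg A.valuation hq
  rw [map_mul, h, one_mul] at hv
  have hco : Nat.Coprime q.num.natAbs q.den := q.reduced
  have h1 : ¬ (2 : ℤ) ∣ q.num := by
    intro h2
    have h3 := b5_val_even A hA q.num h2
    have h4 : ¬ (2 : ℤ) ∣ (q.den : ℤ) := by
      intro h5
      have h6 : 2 ∣ q.num.natAbs := Int.natAbs_dvd_natAbs.2 h2
      have h7 : 2 ∣ q.den := by exact_mod_cast h5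
      have := Nat.dvd_gcd h6 h7
      rw [hco] at this
      omega
    have h5 : A.valuation ((q.den : ℤ) : ℂ) = 1 := by
      apply val_odd A hA
      rw [← Int.not_even_iff_odd, even_iff_two_dvd]
      exact h4
    rw [← hv, h5] at h3
    exact lt_irrefl _ h3
  have h2 : ¬ (2 : ℤ) ∣ (q.den : ℤ) := by
    intro h5
    have h3 := b5_val_even A hA (q.den : ℤ) h5
    have h6 : A.valuation ((q.num : ℤ) : ℂ) = 1 := by
      apply val_odd A hA
      rw [← Int.not_even_iff_odd, even_iff_two_dvd]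
      exact h1
    rw [hv, h6] at h3
    exact lt_irrefl _ h3
  rw [padicValRat]
  rw [padicValInt.eq_zero_of_not_dvd (by exact_mod_cast h1),
    padicValNat.eq_zero_of_not_dvd (by exact_mod_cast h2)]
  simp

theorem b5_char_pow {f : ℕ} [NeZero f] (ψ : DirichletCharacter ℂ f) (a : ZMod f) :
    IsAlgebraic ℚ (ψ a) := by
  by_cases ha : IsUnit a
  · obtain ⟨u, rfl⟩ := ha
    have h1 : (ψ u) ^ (Nat.card (ZMod f)ˣ) = 1 := by
      rw [← map_pow, ← Units.val_pow_eq_pow_val, pow_card_eq_one', Units.val_one, map_one]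
    have h2 : 0 < Nat.card (ZMod f)ˣ := Nat.card_pos
    refine ⟨X ^ (Nat.card (ZMod f)ˣ) - 1, ?_, ?_⟩
    · exact X_pow_sub_C_ne_zero h2 1
    · rw [map_sub, map_pow, aeval_X, map_one, h1, sub_self]
  · rw [MulChar.map_nonunit ψ ha]
    exact isAlgebraic_zero

theorem WW_alg (m : ℕ) [NeZero m] (hm : Odd m) (χ : DirichletCharacter ℂ m) :
    IsAlgebraic ℚ (WW χ) := by
  have hd : χ.conductor ∣ m := χ.conductor_dvd_level
  have hf : Odd χ.conductor := Odd.of_dvd_nat hm hd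
  have hf0 : χ.conductor ≠ 0 := hf.pos.ne'
  have : NeZero χ.conductor := ⟨hf0⟩
  have hf0' : (χ.conductor : ℂ) ≠ 0 := by exact_mod_cast hf0
  have key : ∀ z : ℂ, z ∈ algebraicClosure ℚ ℂ ↔ IsAlgebraic ℚ z := fun z => mem_algebraicClosure_iff
  rw [← key, WW]
  have hnat : ∀ n : ℕ, (n : ℂ) ∈ algebraicClosure ℚ ℂ := fun n => natCast_mem _ n
  refine mul_mem (mul_mem (inv_mem (mul_mem ?_ (hnat _))) (inv_mem (add_mem ?_ (inv_mem ?_)))) ?_
  · exact_mod_cast hnat 3
  · exact_mod_cast hnat 2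
  · rw [key]
    exact b5_char_pow _ _
  · rw [TS]
    refine sum_mem fun i _ => sum_mem fun j _ => mul_mem ?_ ?_
    · rw [key, chiN]
      exact b5_char_pow _ _
    · rw [key]
      refine lx_alg (3 * χ.conductor) (Odd.mul (by decide) hf) _ ⟨cc i j, ?_⟩
      push_cast
      field_simp

theorem b5_good_dvd {m f : ℕ} (hm : GoodLevel m) (hf : f ∣ m) : GoodLevel f :=
  ⟨hm.1.squarefree_of_dvd hf, fun p hp hpf => hm.2 p hp (hpf.trans hf)⟩

theorem b5_good_odd {m : ℕ} (hm : GoodLevel m) : Odd m := by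
  rw [← Nat.not_even_iff_odd, even_iff_two_dvd]
  intro h
  have := (hm.2 2 Nat.prime_two h).2.1
  omega

theorem WW_unit (m : ℕ) [NeZero m] (hm : GoodLevel m) (χ : DirichletCharacter ℂ m) (n : ℕ)
    (hχ : χ ^ (2 ^ n) = 1) (A : ValuationSubring ℂ) (hA : A.valuation 2 < 1) :
    A.valuation (WW χ) = 1 := by
  have hd : χ.conductor ∣ m := χ.conductor_dvd_level
  have hf : Odd χ.conductor := Odd.of_dvd_nat (b5_good_odd hm) hd
  have hψ := primitive_pow χ (2 ^ n) hχ
  set ψ := χ.primitiveCharacter with hψdef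
  have h1 : A.valuation (3 * χ.conductor : ℂ) = 1 := by
    have := val_odd A hA (3 * χ.conductor : ℤ) (Odd.mul (by decide) (by exact_mod_cast hf))
    push_cast at this
    exact this
  have h4 : IsUnit (4 : ZMod χ.conductor) := by
    have : ((4 : ℕ) : ZMod χ.conductor) = 4 := by norm_cast
    rw [← this, ZMod.isUnit_iff_coprime]
    have : Nat.Coprime (2 ^ 2) χ.conductor := Nat.Coprime.pow_left 2 (Nat.coprime_two_left.2 hf)
    exact this
  have h5 : (ψ 4) ^ 2 ^ n = 1 := by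
    obtain ⟨u, hu⟩ := h4
    rw [← hu]
    have h6 : (ψ ^ (2 ^ n)) (u : ZMod χ.conductor) = 1 := by
      rw [hψ, MulChar.one_apply_coe]
    rwa [MulChar.pow_apply_coe] at h6
  have h6 := (val_root A hA (ψ 4) n h5).1
  have h7 : A.valuation (2 + (ψ 4)⁻¹) = 1 := by
    have h8 : A.valuation (ψ 4)⁻¹ = 1 := by rw [map_inv₀, h6, inv_one]
    rw [Valuation.map_add_eq_of_lt_right _ (by rw [h8]; exact hA), h8]
  have h8 := TS_unit χ.conductor (b5_good_dvd hm hd) ψ n hψ A hA
  rw [WW, ← hψdef, map_mul, map_mul, map_inv₀, map_inv₀, h1, h7, h8, inv_one, one_mul, one_mul]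

theorem analytic_main (m : ℕ) [NeZero m] (hm : GoodLevel m) (M : Type) [Field M] [NumberField M]
    [IsCyclotomicExtension {m} ℚ M] (F : IntermediateField ℚ M) (n : ℕ)
    (h : Module.finrank ℚ F = 2 ^ n) :
    ∃ q : ℚ, q ≠ 0 ∧ padicValRat 2 q = 0 ∧ ∏ χ ∈ chars m F, WW χ ^ 2 = q := by
  have hodd := b5_good_odd hm
  have halg : IsAlgebraic ℚ (∏ χ ∈ chars m F, WW χ ^ 2) := by
    have key : ∀ z : ℂ, z ∈ algebraicClosure ℚ ℂ ↔ IsAlgebraic ℚ z :=
      fun z => mem_algebraicClosure_iff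
    rw [← key]
    refine prod_mem fun χ _ => pow_mem ?_ 2
    rw [key]
    exact WW_alg m hodd χ
  obtain ⟨q, hq⟩ := fixed_rat _ halg (fun σ => prod_fixed m hodd M F σ)
  obtain ⟨A, hA⟩ := exists_val
  have hv : A.valuation (q : ℂ) = 1 := by
    rw [hq, map_prod]
    refine Finset.prod_eq_one fun χ hχ => ?_
    rw [map_pow, WW_unit m hm χ n (chars_pow m M F n h χ hχ) A hA, one_pow]
  refine ⟨q, ?_, rat_val q A hA hv, hq.symm⟩
  rintro rfl
  simp at hv

end CM27
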