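import Pool.Agent.MP_9ab903_nt.AN.A4
import Pool.Agent.MP_ae0bd0_nt.CM.R2b

set_option autoImplicit false

open scoped ComplexConjugate
open Filter Topology

namespace CM27

/-! ## [AN-A6] complex multiplication and the point `1/3` (file A6.lean; uses A2, A4, R2b)

* `ptW (x, Y) = (ω x, Y)`; `ptW_pt` by `xw_w`, `yw_w`.
* `third`: `P = pt (1/3)` satisfies `2P = -P`, so `x(2/3) = x(1/3)`, and `xw_two` gives `3x(x³+1) = 0`; `x = 0` would give
  `ptW P = P`, i.e. `(w - 1)/3 ∈ ℤ[ω]`, impossible. Then `y² = -3 = (1+2ω)²`, `y = ±(1+2ω)`.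
* `ptMap_third`: the coordinates of `P` are in `ℚ(ω)`. -/

/-- multiplication by `ω` on `E(ℂ)` -/
noncomputable def ptW : (E ℂ).toAffine.Point → (E ℂ).toAffine.Point
  | .zero => .zero
  | .some x Y h => .some (w * x) Y (by
      apply nonsing
      have h1 := (WeierstrassCurve.Affine.equation_iff _ _).1 h.1
      simp only [E, WeierstrassCurve.toAffine] at h1
      have hw : w ^ 3 = 1 := by
        have h2 := w_sq
        linear_combination (w - 1) * h2
      have h3 : (w * x) ^ 3 = x ^ 3 := by rw [mul_pow, hw, one_mul]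
      rw [h3]
      linear_combination 4 * h1)

theorem a6_some {x y x' y' : ℂ} (h : (E ℂ).toAffine.Nonsingular x y)
    (h' : (E ℂ).toAffine.Nonsingular x' y') (hx : x = x') (hy : y = y') :
    (WeierstrassCurve.Affine.Point.some x y h : (E ℂ).toAffine.Point) = .some x' y' h' := by
  subst hx; subst hy; rfl

theorem a6_w3 : w ^ 3 = 1 := by
  have h := w_sq
  linear_combination (w - 1) * h

theorem a6_emb_om : emb ⟨0, 1⟩ = w := by simp [emb_apply]

theorem a6_mem_w (z : ℂ) : w * z ∈ Set.range emb ↔ z ∈ Set.range emb := by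
  constructor
  · rintro ⟨a, ha⟩
    refine ⟨(⟨-1, -1⟩ : Eis) * a, ?_⟩
    have h1 : emb ⟨-1, -1⟩ = -1 - w := by simp [emb_apply]; ring
    rw [map_mul, ha, h1, ← w_sq]
    have h3 := a6_w3
    linear_combination z * h3
  · rintro ⟨a, ha⟩
    exact ⟨(⟨0, 1⟩ : Eis) * a, by rw [map_mul, a6_emb_om, ha]⟩

theorem ptW_pt (z : ℂ) : ptW (pt z) = pt (w * z) := by
  by_cases hz : z ∈ Set.range emb
  · rw [(pt_eq_zero_iff z).2 hz, (pt_eq_zero_iff (w * z)).2 ((a6_mem_w z).2 hz)]
    rfl
  · obtain ⟨h, e⟩ := pt_of_not_mem z hz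
    obtain ⟨h', e'⟩ := pt_of_not_mem (w * z) (fun hm => hz ((a6_mem_w z).1 hm))
    rw [e, e']
    apply a6_some
    · exact (xw_w z).symm
    · rw [yw_w]

theorem ptW_ptMap (σ : ℂ →+* ℂ) (hσ : σ w = w) (P : (E ℂ).toAffine.Point) :
    ptMap σ (ptW P) = ptW (ptMap σ P) := by
  cases P with
  | zero => rfl
  | some x y h =>
    apply a6_some
    · rw [map_mul, hσ]
    · rfl

/-- imaginary parts of lattice points -/
theorem a6_im_ne (z : ℂ) (hz : z.im = √3 / 6) : z ∉ Set.range emb := by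
  rintro ⟨a, ha⟩
  have h1 := emb_im a
  rw [ha, hz] at h1
  have h3 : (0 : ℝ) < √3 := by positivity
  have h4 : (3 * a.im : ℝ) = 1 := by
    have : √3 * (3 * a.im) = √3 * 1 := by linarith
    exact mul_left_cancel₀ h3.ne' this
  have h5 : 3 * a.im = 1 := by exact_mod_cast h4
  omega

theorem a6_re_ne (n : ℤ) (hn : n % 3 ≠ 0) : ((n : ℂ) / 3) ∉ Set.range emb := by
  rintro ⟨a, ha⟩
  have h1 := emb_im a
  have h2 := emb_re a
  rw [ha] at h1 h2
  have e1 : ((n : ℂ) / 3).im = 0 := by simp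
  have e2 : ((n : ℂ) / 3).re = n / 3 := by simp
  rw [e1] at h1
  rw [e2] at h2
  have h3 : (0 : ℝ) < √3 / 2 := by positivity
  have h4 : (a.im : ℝ) = 0 := by
    rcases mul_eq_zero.1 h1.symm with h | h
    · exact h
    · exact absurd h h3.ne'
  rw [h4] at h2
  have h5 : (n : ℝ) = 3 * a.re := by linarith
  have h6 : n = 3 * a.re := by exact_mod_cast h5
  omega

theorem a6_third_not_mem : (1 / 3 : ℂ) ∉ Set.range emb := by
  have := a6_re_ne 1 (by norm_num)
  simpa using this

theorem a6_off_third : Off (1 / 3) := by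
  have := a6_re_ne 2 (by norm_num)
  unfold Off
  have e : (2 : ℂ) * (1 / 3) = ((2 : ℤ) : ℂ) / 3 := by push_cast; ring
  rw [e]
  exact this

theorem third : xw (1 / 3) ^ 3 = -1 ∧ yw (1 / 3) ^ 2 = -3 := by
  have h1 := xw_two (1 / 3) a6_off_third
  have h2 : xw (2 * (1 / 3)) = xw (1 / 3) := by
    have e : (2 * (1 / 3) : ℂ) = -(1 / 3) + emb 1 := by rw [map_one]; ring
    rw [e, xw_add, xw_neg]
  rw [h2] at h1
  have h3 : xw (1 / 3) * (xw (1 / 3) ^ 3 + 1) = 0 := by linear_combination h1 / 3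
  have h4 : xw (1 / 3) ≠ 0 := by
    intro h0
    have h5 : xw (w * (1 / 3)) = xw (1 / 3) := by rw [xw_w, h0, mul_zero]
    have h6 : w * (1 / 3) ∉ Set.range emb := fun hm => a6_third_not_mem ((a6_mem_w _).1 hm)
    rcases (xw_eq_iff _ _ h6 a6_third_not_mem).1 h5 with h7 | h7
    · refine a6_im_ne _ ?_ h7
      have e : w * (1 / 3) - 1 / 3 = w * ((1 / 3 : ℝ) : ℂ) - ((1 / 3 : ℝ) : ℂ) := by push_cast; ring
      rw [e, Complex.sub_im, Complex.im_mul_ofReal, w_im, Complex.ofReal_im]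
      ring
    · refine a6_im_ne _ ?_ h7
      have e : w * (1 / 3) + 1 / 3 = w * ((1 / 3 : ℝ) : ℂ) + ((1 / 3 : ℝ) : ℂ) := by push_cast; ring
      rw [e, Complex.add_im, Complex.im_mul_ofReal, w_im, Complex.ofReal_im]
      ring
  have h8 : xw (1 / 3) ^ 3 = -1 := by
    rcases mul_eq_zero.1 h3 with h | h
    · exact absurd h h4
    · linear_combination h
  refine ⟨h8, ?_⟩
  rw [weq _ a6_third_not_mem, h8]
  norm_num

theorem ptMap_third (σ : ℂ →+* ℂ) (hσ : σ w = w) : ptMap σ (pt (1 / 3)) = pt (1 / 3) := by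
  obtain ⟨h, e⟩ := pt_of_not_mem (1 / 3) a6_third_not_mem
  obtain ⟨h3, h4⟩ := third
  have hw := w_sq
  have hx : σ (xw (1 / 3)) = xw (1 / 3) := by
    set x := xw (1 / 3)
    have h5 : (x + 1) * ((x + w) * (x - 1 - w)) = 0 := by
      linear_combination h3 - (x + 1) * hw
    rcases mul_eq_zero.1 h5 with h6 | h6
    · have : x = -1 := by linear_combination h6
      rw [this, map_neg, map_one]
    · rcases mul_eq_zero.1 h6 with h7 | h7
      · have : x = -w := by linear_combination h7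
        rw [this, map_neg, hσ]
      · have : x = 1 + w := by linear_combination h7
        rw [this, map_add, map_one, hσ]
  have hy : σ (yw (1 / 3)) = yw (1 / 3) := by
    set y := yw (1 / 3)
    have h5 : (y - (1 + 2 * w)) * (y + (1 + 2 * w)) = 0 := by
      linear_combination h4 - 4 * hw
    rcases mul_eq_zero.1 h5 with h6 | h6
    · have : y = 1 + 2 * w := by linear_combination h6
      rw [this, map_add, map_mul, map_one, hσ, map_ofNat]
    · have : y = -(1 + 2 * w) := by linear_combination h6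
      rw [this, map_neg, map_add, map_mul, map_one, hσ, map_ofNat]
  rw [e]
  apply a6_some
  · exact hx
  · rw [map_div₀, map_sub, hy, map_one, map_ofNat]

theorem ptMap_conj (z : ℂ) : ptMap (starRingEnd ℂ) (pt z) = pt (- conj z) := by
  by_cases hz : z ∈ Set.range emb
  · have hz' : - conj z ∈ Set.range emb := by
      obtain ⟨a, ha⟩ := hz
      exact ⟨-(star a), by rw [map_neg, emb_star, ha]⟩
    rw [(pt_eq_zero_iff z).2 hz, (pt_eq_zero_iff _).2 hz']
    rfl
  · have hz' : - conj z ∉ Set.range emb := by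
      rintro ⟨a, ha⟩
      apply hz
      refine ⟨-(star a), ?_⟩
      rw [map_neg, emb_star, ha, map_neg, Complex.conj_conj, neg_neg]
    obtain ⟨h, e⟩ := pt_of_not_mem z hz
    obtain ⟨h', e'⟩ := pt_of_not_mem _ hz'
    rw [e, e']
    apply a6_some
    · rw [xw_neg, xw_conj]
    · rw [yw_neg, yw_conj, neg_neg, map_div₀, map_sub, map_one, map_ofNat]

end CM27
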