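import Pool.Agent.MP_ae0bd0_nt.CM.GDefs
import Pool.Agent.MP_ae0bd0_nt.CM.RDefs
import Pool.Agent.MP_ae0bd0_nt.CM.CDefs

/-!
# [AN] analytic half of the 2-part of strong BSD for `E : y² + y = x³` over `F`: definitions

`Om > 0` is the real number with `Om⁶ = g₃(ℤ[ω])`, `OmC = i Om`.  The lattice `OmC · ℤ[ω]` has
`g₂ = 0`, `g₃ = -1`: it is the period lattice of `y² = 4 x³ + 1` (`y = 2 Y + 1`, `Y² + Y = x³`).
-/

set_option autoImplicit false

open scoped ComplexConjugate
open MeasureTheory NumberField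

namespace CM27

/-- The positive real sixth root of `g₃(ℤ[ω])`. -/
noncomputable def Om : ℝ := L0.g₃.re ^ ((1 : ℝ) / 6)

/-- `i Om` -/
noncomputable def OmC : ℂ := Complex.I * Om

/-- The `x`-coordinate, `℘(z) / OmC²` (junk value `0` at the lattice points). -/
noncomputable def xw (z : ℂ) : ℂ := L0.weierstrassP z / OmC ^ 2

/-- `y = 2 Y + 1`, `℘'(z) / OmC³` (junk value `0` at the lattice points). -/
noncomputable def yw (z : ℂ) : ℂ := L0.derivWeierstrassP z / OmC ^ 3

open Classical in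
/-- The uniformisation `ℂ / ℤ[ω] → E(ℂ)`, `z ↦ (x(z), (y(z) - 1) / 2)`. -/
noncomputable def pt (z : ℂ) : (E ℂ).toAffine.Point :=
  if h : z ∉ Set.range emb ∧ (E ℂ).toAffine.Nonsingular (xw z) ((yw z - 1) / 2) then
    .some _ _ h.2 else .zero

/-- `λ(z) / OmC = 3 x² / y` -/
noncomputable def lx (z : ℂ) : ℂ := 3 * xw z ^ 2 / yw z

/-- The twisted sum of the values `lx` over the classes `c ≡ 1 mod 3` modulo `3 f`. -/
noncomputable def TS {f : ℕ} (χ : DirichletCharacter ℂ f) : ℂ :=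
  ∑ i ∈ Finset.range f, ∑ j ∈ Finset.range f, chiN χ (cc i j) * lx (emb (cc i j) / (3 * f))

/-- The algebraic part of `- L(E, χ, 1) / OmC` for the primitive character of `χ`. -/
noncomputable def WW {m : ℕ} (χ : DirichletCharacter ℂ m) : ℂ :=
  (3 * χ.conductor : ℂ)⁻¹ * (2 + (χ.primitiveCharacter 4)⁻¹)⁻¹ * TS χ.primitiveCharacter

/-- `∫_{E(ℝ)} |ω|`, `ω = dx / (2 Y + 1)`. -/
noncomputable def OmR : ℝ := ∫ t in {t : ℝ | 0 < 4 * t ^ 3 + 1}, 2 / √(4 * t ^ 3 + 1)

/-- `2 ∫_{E(ℂ)} dA` where `dA = |ω|²` is the area form of `ω`: twice the area of the period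
parallelogram. (`E(ℂ) → ℙ¹(ℂ)` has degree `2`.) -/
noncomputable def OmCC : ℝ := 2 * (2 * ∫ t : ℂ, 1 / ‖4 * t ^ 3 + 1‖)

/-- The product of the archimedean periods of `E` over a number field. -/
noncomputable def period (F : Type) [Field F] [NumberField F] : ℝ := by
  classical exact ∏ v : InfinitePlace F, if v.IsReal then OmR else OmCC

end CM27
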