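import Pool.Agent.MP_9ab903_nt.AN.A5
import Pool.Agent.MP_9ab903_nt.AN.A6

set_option autoImplicit false

open scoped ComplexConjugate
open Filter Topology

namespace CM27

/-! ## [AN-A7] Galois action on the division points (file A7.lean; uses A4, A5, A6, R2b)

* `gal_fix`: `N • ptMap σ (pt (1/N)) = ptMap σ (pt 1) = 0` (`ptMap_add` of R2b: additive), so by `pt_surj` it is `pt (emb u / N)`.
  For `c = a + b ω`: `pt (emb c / N) = a • pt (1/N) + b • ptW (pt (1/N))`, and `ptMap σ` commutes with `ptW`. The same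
  argument for `σ⁻¹` gives `u'`, `u u' ≡ 1 mod N`. `3 ∣ u - 1`: `pt (1/3) = (N/3) • pt (1/N)` is fixed.
* `gal_any`: `σ w` is a root of `X²+X+1`: `w` or `conj w = -1-w`. In the second case apply `gal_fix` to `σ ∘ conj`, `ptMap_conj`. -/

theorem a7_pt_zsmul (n : ℤ) (z : ℂ) : pt (n * z) = n • pt z := by
  have h := map_zsmul (AddMonoidHom.mk' pt pt_add) n z
  simpa only [AddMonoidHom.mk'_apply, zsmul_eq_mul] using h

theorem a7_ptMap_zsmul (σ : ℂ →+* ℂ) (n : ℤ) (P : (E ℂ).toAffine.Point) :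
    ptMap σ (n • P) = n • ptMap σ P :=
  map_zsmul (AddMonoidHom.mk' (ptMap σ) (ptMap_add σ)) n P

/-- the basic computation, for an endomorphism fixing `w` -/
theorem a7_hom (N : ℕ) (hN : 0 < N) (σ : ℂ →+* ℂ) (hσ : σ w = w) :
    ∃ u : Eis, ∀ c : Eis, ptMap σ (pt (emb c / N)) = pt (emb (c * u) / N) := by
  have hN0 : (N : ℂ) ≠ 0 := by exact_mod_cast hN.ne'
  have h1 : (N : ℤ) • ptMap σ (pt (1 / N)) = 0 := by
    rw [← a7_ptMap_zsmul, ← a7_pt_zsmul]
    have e : (((N : ℤ) : ℂ)) * (1 / (N : ℂ)) = emb 1 := by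
      rw [map_one]
      push_cast
      field_simp
    rw [e, pt_emb]
    rfl
  obtain ⟨z, hz⟩ := pt_surj (ptMap σ (pt (1 / N)))
  rw [← hz, ← a7_pt_zsmul, pt_eq_zero_iff] at h1
  obtain ⟨u, hu⟩ := h1
  have hzu : z = emb u / N := by
    rw [hu]
    push_cast
    field_simp
  refine ⟨u, fun c => ?_⟩
  have e1 : emb c / N = (c.re : ℂ) * (1 / N) + (c.im : ℂ) * (w * (1 / N)) := by
    rw [emb_apply]
    ring
  have e2 : emb (c * u) / N = (c.re : ℂ) * (emb u / N) + (c.im : ℂ) * (w * (emb u / N)) := by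
    rw [map_mul, emb_apply c]
    ring
  rw [e1, e2, pt_add, pt_add, a7_pt_zsmul, a7_pt_zsmul, a7_pt_zsmul, a7_pt_zsmul, ptMap_add,
    a7_ptMap_zsmul, a7_ptMap_zsmul, ← ptW_pt, ← ptW_pt, ptW_ptMap σ hσ, ← hz, hzu]

theorem a7_dvd (N : ℕ) (hN : 0 < N) (a b : Eis) (h : pt (emb a / N) = pt (emb b / N)) :
    (N : Eis) ∣ a - b := by
  have hN0 : (N : ℂ) ≠ 0 := by exact_mod_cast hN.ne'
  rw [pt_eq_iff] at h
  obtain ⟨d, hd⟩ := h
  refine ⟨d, emb_injective ?_⟩
  rw [map_sub, map_mul, map_natCast, hd]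
  field_simp

theorem gal_fix (N : ℕ) (hN : 0 < N) (h3 : 3 ∣ N) (σ : ℂ ≃+* ℂ) (hσ : σ w = w) :
    ∃ u u' : Eis, (N : Eis) ∣ u * u' - 1 ∧ (3 : Eis) ∣ u - 1 ∧
      ∀ c : Eis, ptMap (σ : ℂ →+* ℂ) (pt (emb c / N)) = pt (emb (c * u) / N) := by
  have hN0 : (N : ℂ) ≠ 0 := by exact_mod_cast hN.ne'
  have hσ' : σ.symm w = w := by
    rw [RingEquiv.symm_apply_eq]; exact hσ.symm
  obtain ⟨u, hu⟩ := a7_hom N hN (σ : ℂ →+* ℂ) hσ
  obtain ⟨u', hu'⟩ := a7_hom N hN (σ.symm : ℂ →+* ℂ) hσ'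
  refine ⟨u, u', ?_, ?_, hu⟩
  · apply a7_dvd N hN
    have h1 := hu' 1
    have h2 := congrArg (ptMap (σ : ℂ →+* ℂ)) h1
    rw [hu, ptMap_comp] at h2
    have h4 : (σ : ℂ →+* ℂ).comp (σ.symm : ℂ →+* ℂ) = RingHom.id ℂ := by
      ext x
      simp
    rw [h4, ptMap_id] at h2
    rw [h2]
    congr 3
    ring
  · obtain ⟨k, hk⟩ := h3
    have hk0 : k ≠ 0 := by
      rintro rfl
      omega
    have e : emb (k : Eis) / N = 1 / 3 := by
      have hk' : (k : ℂ) ≠ 0 := by exact_mod_cast hk0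
      rw [map_natCast, hk]
      push_cast
      field_simp
    have h1 := hu (k : Eis)
    rw [e, ptMap_third (σ : ℂ →+* ℂ) hσ, ← e] at h1
    obtain ⟨d, hd⟩ := a7_dvd N hN _ _ h1.symm
    refine ⟨d, ?_⟩
    have hk'' : (k : Eis) ≠ 0 := by
      intro h0
      have := congrArg emb h0
      rw [map_natCast, map_zero] at this
      exact hk0 (by exact_mod_cast this)
    have h5 : (k : Eis) * (u - 1) = (k : Eis) * (3 * d) := by
      have h6 : (N : Eis) = 3 * (k : Eis) := by rw [hk]; push_cast; rfl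
      rw [h6] at hd
      linear_combination hd
    have h7 := congrArg emb h5
    rw [map_mul, map_mul, map_natCast] at h7
    have hk' : (k : ℂ) ≠ 0 := by exact_mod_cast hk0
    exact emb_injective (mul_left_cancel₀ hk' h7)

theorem a7_w_cases (x : ℂ) (hx : x * x = -1 - x) : x = w ∨ x = conj w := by
  have h1 : (x - w) * (x - conj w) = 0 := by
    have hw : conj w = -1 - w := by
      apply Complex.ext
      · rw [Complex.conj_re, Complex.sub_re, Complex.neg_re, Complex.one_re, w_re]; norm_num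
      · rw [Complex.conj_im, Complex.sub_im, Complex.neg_im, Complex.one_im]; ring
    rw [hw]
    have := w_sq
    linear_combination hx - this
  rcases mul_eq_zero.1 h1 with h | h
  · exact Or.inl (sub_eq_zero.1 h)
  · exact Or.inr (sub_eq_zero.1 h)

theorem gal_any (N : ℕ) (hN : 0 < N) (h3 : 3 ∣ N) (σ : ℂ ≃+* ℂ) :
    ∃ u u' : Eis, (N : Eis) ∣ u * u' - 1 ∧ (3 : Eis) ∣ u - 1 ∧
      ((∀ c : Eis, ptMap (σ : ℂ →+* ℂ) (pt (emb c / N)) = pt (emb (c * u) / N)) ∨
       (∀ c : Eis, ptMap (σ : ℂ →+* ℂ) (pt (emb c / N)) = pt (emb (-(star c) * u) / N))) := by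
  have hx : σ w * σ w = -1 - σ w := by
    rw [← map_mul, w_sq, map_sub, map_neg, map_one]
  rcases a7_w_cases (σ w) hx with h | h
  · obtain ⟨u, u', h1, h2, h4⟩ := gal_fix N hN h3 σ h
    exact ⟨u, u', h1, h2, Or.inl h4⟩
  · set τ : ℂ ≃+* ℂ := (starRingAut : ℂ ≃+* ℂ).trans σ with hτ
    have hτa : ∀ x, τ x = σ (conj x) := fun x => rfl
    have hwc : conj w = -1 - w := by
      apply Complex.ext
      · rw [Complex.conj_re, Complex.sub_re, Complex.neg_re, Complex.one_re, w_re]; norm_num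
      · rw [Complex.conj_im, Complex.sub_im, Complex.neg_im, Complex.one_im]; ring
    have hτw : τ w = w := by
      rw [hτa, hwc, map_sub, map_neg, map_one, h, hwc]
      ring
    obtain ⟨u, u', h1, h2, h4⟩ := gal_fix N hN h3 τ hτw
    refine ⟨u, u', h1, h2, Or.inr fun c => ?_⟩
    have hcomp : (σ : ℂ →+* ℂ) = (τ : ℂ →+* ℂ).comp (starRingEnd ℂ) := by
      ext x
      show σ x = τ (conj x)
      rw [hτa, Complex.conj_conj]
    rw [hcomp, ← ptMap_comp, ptMap_conj]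
    have e : - conj (emb c / N) = emb (-(star c)) / N := by
      rw [map_div₀, Complex.conj_natCast, map_neg, emb_star]
      ring
    rw [e, h4]

end CM27
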