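import Mathlib

set_option autoImplicit false

open Polynomial

namespace CM27

/-! ## [AN-A8] algebraic numbers fixed by all automorphisms of `ℂ` (file A8.lean; pure field theory)

If `z` is algebraic and not rational, its minimal polynomial over `ℚ` has another root `z'` (separable,
degree `≥ 2`, splits in `ℂ`), and there is an automorphism `σ` of `ℂ` with `σ z = z'`: first an
automorphism `τ` of the field `A` of algebraic numbers, which acts on `A[B]` (`B` a transcendence basis
of `ℂ` over `A`), and `ℂ` is an algebraic closure of `A[B]`. -/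

theorem exists_aut (z z' : ℂ) (hz : IsAlgebraic ℚ z) (h : aeval z' (minpoly ℚ z) = 0) :
    ∃ σ : ℂ ≃+* ℂ, σ z = z' := by
  classical
  have hzi : IsIntegral ℚ z := hz.isIntegral
  have hz' : IsAlgebraic ℚ z' := ⟨minpoly ℚ z, minpoly.ne_zero hzi, h⟩
  let A := algebraicClosure ℚ ℂ
  let a : A := ⟨z, mem_algebraicClosure_iff.2 hz⟩
  let a' : A := ⟨z', mem_algebraicClosure_iff.2 hz'⟩
  have hac : IsAlgClosure ℚ A := algebraicClosure.isAlgClosure ℚ ℂ
  have : Normal ℚ A := IsAlgClosure.normal ℚ A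
  have hmin : minpoly ℚ a = minpoly ℚ z := by
    have := minpoly.algebraMap_eq (A := ℚ) (B := A) (B' := ℂ)
      (algebraMap A ℂ).injective a
    exact this.symm
  have ha' : aeval a' (minpoly ℚ a) = 0 := by
    rw [hmin]
    apply (algebraMap A ℂ).injective
    rw [← aeval_algebraMap_apply, map_zero]
    exact h
  obtain ⟨τ, hτ⟩ := minpoly.exists_algEquiv_of_root' (K := ℚ) (L := A) (x := a') (y := a)
    (Algebra.IsAlgebraic.isAlgebraic a) ha'
  obtain ⟨ι, v, hv⟩ := exists_isTranscendenceBasis' A (A := ℂ)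
  let _ := IsAlgClosed.isAlgClosure_of_transcendence_basis v hv
  let e : Algebra.adjoin A (Set.range v) ≃+* Algebra.adjoin A (Set.range v) :=
    (hv.1.aevalEquiv.symm.toRingEquiv.trans (MvPolynomial.mapEquiv ι τ.toRingEquiv)).trans
      hv.1.aevalEquiv.toRingEquiv
  refine ⟨IsAlgClosure.equivOfEquiv ℂ ℂ e, ?_⟩
  have h1 : z = algebraMap (Algebra.adjoin A (Set.range v)) ℂ
      (algebraMap A (Algebra.adjoin A (Set.range v)) a) := rfl
  have h2 : e (algebraMap A (Algebra.adjoin A (Set.range v)) a) =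
      algebraMap A (Algebra.adjoin A (Set.range v)) a' := by
    have h3 : hv.1.aevalEquiv.symm (algebraMap A (Algebra.adjoin A (Set.range v)) a) =
        MvPolynomial.C a := by
      rw [AlgEquiv.commutes]
      rfl
    have h4 : hv.1.aevalEquiv (MvPolynomial.C a') =
        algebraMap A (Algebra.adjoin A (Set.range v)) a' := by
      have := hv.1.aevalEquiv.commutes a'
      exact this
    change hv.1.aevalEquiv (MvPolynomial.map (τ.toRingEquiv : A →+* A)
      (hv.1.aevalEquiv.symm (algebraMap A (Algebra.adjoin A (Set.range v)) a))) = _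
    rw [h3, MvPolynomial.map_C, ← h4]
    congr 2
  rw [h1, IsAlgClosure.equivOfEquiv_algebraMap, h2]
  rfl

theorem fixed_rat (z : ℂ) (hz : IsAlgebraic ℚ z) (h : ∀ σ : ℂ ≃+* ℂ, σ z = z) :
    ∃ q : ℚ, (q : ℂ) = z := by
  classical
  have hzi : IsIntegral ℚ z := hz.isIntegral
  by_cases hd : (minpoly ℚ z).natDegree = 1
  · obtain ⟨q, hq⟩ := minpoly.natDegree_eq_one_iff.1 hd
    exact ⟨q, by simpa using hq⟩
  · exfalso
    have hpos : 0 < (minpoly ℚ z).natDegree := minpoly.natDegree_pos hzi
    have hsep : (minpoly ℚ z).Separable := (minpoly.irreducible hzi).separable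
    have hcard := card_rootSet_eq_natDegree (K := ℂ) hsep (IsAlgClosed.splits _)
    have hzr : z ∈ (minpoly ℚ z).rootSet ℂ :=
      mem_rootSet.2 ⟨minpoly.ne_zero hzi, minpoly.aeval ℚ z⟩
    have h1 : 1 < Fintype.card ((minpoly ℚ z).rootSet ℂ) := by omega
    obtain ⟨⟨z', hz'⟩, hne⟩ := Fintype.exists_ne_of_one_lt_card h1 ⟨z, hzr⟩
    obtain ⟨σ, hσ⟩ := exists_aut z z' hz (mem_rootSet.1 hz').2
    apply hne
    apply Subtype.ext
    change z' = z
    rw [← hσ, h σ]

end CM27
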