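import Pool.Agent.MP_9ab903_nt.AN.Defs
import Pool.Agent.MP_ae0bd0_nt.CM.H2

/-! ### part A1 -/

section

set_option autoImplicit false

open scoped ComplexConjugate
open Filter Topology

namespace CM27

/-! ## [AN-A1] `g₃ > 0`, complex conjugation (file A1.lean; uses H1, H2)

* `g3_real_pos`: `g₃ = 140 Σ_{a ≠ 0} a⁻⁶` (the term `a = 0` is `0`). Real: conjugation permutes
  `ℤ[ω]` (`emb_star`). Positive: exactly the estimate `|Σ a⁻⁶ - 6| < 1` from the proof of
  `sum_six_ne_zero` in CM `H1.lean` (see /team-store/CM_H1.lean; copy what you need, prefix `a1_`).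
* `P_conj`, `P'_conj`: conjugate the series (`hasSum_weierstrassP`, `hasSum_derivWeierstrassP`), the
  lattice is stable under conjugation (`mem_L0`, `emb_star`).
* `P_w`, `P'_w`: `℘(ωz) = ω⁻² ℘(z) = ω ℘(z)`, `℘'(ωz) = ω⁻³ ℘'(z) = ℘'(z)`: the lattice is stable under
  multiplication by `ω` (`w = emb ⟨0, 1⟩`). -/

/-- a majorant of `|x| ^ (-3)` (value `1` at `0`), with a telescoping sum -/
noncomputable def a1_v (x : ℤ) : ℝ :=
  if x.natAbs ≤ 1 then 1 else
    1 / (((x.natAbs : ℝ) - 1) * (x.natAbs : ℝ) * ((x.natAbs : ℝ) + 1))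

theorem a1_v_neg (x : ℤ) : a1_v (-x) = a1_v x := by simp [a1_v]

theorem a1_v_nonneg (x : ℤ) : 0 ≤ a1_v x := by
  unfold a1_v
  split_ifs with h
  · norm_num
  · have h1 : (2 : ℝ) ≤ (x.natAbs : ℝ) := by
      have : 2 ≤ x.natAbs := by omega
      exact_mod_cast this
    have h2 : 0 ≤ (x.natAbs : ℝ) - 1 := by linarith
    positivity

theorem a1_v_nat (n : ℕ) : a1_v ((n + 2 : ℕ) : ℤ) = 1 / (((n : ℝ) + 1) * (n + 2) * (n + 3)) := by
  have h : ¬ ((((n + 2 : ℕ) : ℤ)).natAbs ≤ 1) := by omega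
  rw [a1_v, if_neg h, Int.natAbs_natCast]
  push_cast
  congr 1
  ring

theorem a1_tele : HasSum (fun n : ℕ => 1 / (((n : ℝ) + 1) * (n + 2) * (n + 3))) (1 / 4) := by
  rw [hasSum_iff_tendsto_nat_of_nonneg (fun n => by positivity)]
  have h : ∀ n : ℕ, ∑ i ∈ Finset.range n, 1 / (((i : ℝ) + 1) * (i + 2) * (i + 3)) =
      1 / 4 - (1 / 2) * (1 / ((n : ℝ) + 1)) * (1 / ((n : ℝ) + 2)) := by
    intro n
    induction n with
    | zero => norm_num
    | succ n ih =>
      rw [Finset.sum_range_succ, ih]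
      push_cast
      field_simp
      ring
  simp_rw [h]
  have h1 : Tendsto (fun n : ℕ => 1 / ((n : ℝ) + 1)) atTop (𝓝 0) :=
    tendsto_one_div_add_atTop_nhds_zero_nat
  have h2 : Tendsto (fun n : ℕ => 1 / ((n : ℝ) + 2)) atTop (𝓝 0) := by
    have := (tendsto_add_atTop_iff_nat 1).2 h1
    refine this.congr fun n => ?_
    push_cast
    congr 1
    ring
  have h3 := (((tendsto_const_nhds (x := (1 / 2 : ℝ))).mul h1).mul h2)
  have h4 := (tendsto_const_nhds (x := (1 / 4 : ℝ))).sub h3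
  simpa using h4

theorem a1_hasSum_nat : HasSum (fun n : ℕ => a1_v (n : ℤ)) (9 / 4) := by
  rw [← hasSum_nat_add_iff' 2]
  have h := a1_tele
  have e1 : (fun n : ℕ => a1_v ((n + 2 : ℕ) : ℤ)) =
      fun n : ℕ => 1 / (((n : ℝ) + 1) * (n + 2) * (n + 3)) := by
    funext n
    rw [a1_v_nat n]
  have e2 : (9 / 4 : ℝ) - ∑ i ∈ Finset.range 2, a1_v (i : ℤ) = 1 / 4 := by
    have f0 : a1_v ((0 : ℕ) : ℤ) = 1 := by simp [a1_v]
    have f1 : a1_v ((1 : ℕ) : ℤ) = 1 := by simp [a1_v]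
    rw [Finset.sum_range_succ, Finset.sum_range_one, f0, f1]
    norm_num
  rw [e1, e2]
  exact h

theorem a1_hasSum_int : HasSum a1_v (7 / 2) := by
  have h1 := a1_hasSum_nat
  have h2 : HasSum (fun n : ℕ => a1_v (-((n : ℤ) + 1))) (5 / 4) := by
    have h3 : HasSum (fun n : ℕ => a1_v ((n + 1 : ℕ) : ℤ)) (5 / 4) := by
      have h4 := (hasSum_nat_add_iff' (f := fun n : ℕ => a1_v (n : ℤ)) 1).2 h1
      have e2 : (9 / 4 : ℝ) - ∑ i ∈ Finset.range 1, a1_v (i : ℤ) = 5 / 4 := by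
        have f0 : a1_v ((0 : ℕ) : ℤ) = 1 := by simp [a1_v]
        rw [Finset.sum_range_one, f0]
        norm_num
      rw [e2] at h4
      exact h4
    have e3 : (fun n : ℕ => a1_v (-((n : ℤ) + 1))) = fun n : ℕ => a1_v ((n + 1 : ℕ) : ℤ) := by
      funext n
      rw [a1_v_neg]
      push_cast
      rfl
    rw [e3]
    exact h3
  have h5 := HasSum.of_nat_of_neg_add_one h1 h2
  have e : (9 / 4 : ℝ) + 5 / 4 = 7 / 2 := by norm_num
  rw [e] at h5
  exact h5

theorem a1_hasSum_prod : HasSum (fun p : ℤ × ℤ => a1_v p.1 * a1_v p.2) (49 / 4) := by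
  have h1 := a1_hasSum_int
  have h2 := Summable.mul_of_nonneg h1.summable h1.summable a1_v_nonneg a1_v_nonneg
  have h3 := HasSum.mul h1 h1 h2
  have e : (7 / 2 : ℝ) * (7 / 2) = 49 / 4 := by norm_num
  rw [e] at h3
  exact h3

/-- the majorant on the Eisenstein integers -/
noncomputable def a1_V (a : Eis) : ℝ := a1_v a.re * a1_v a.im

theorem a1_hasSum : HasSum a1_V (49 / 4) := by
  have h := (QuadraticAlgebra.equivProd (R := ℤ) (-1) (-1)).hasSum_iff
    (f := fun p : ℤ × ℤ => a1_v p.1 * a1_v p.2) (a := 49 / 4)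
  exact h.2 a1_hasSum_prod

theorem a1_v_le (x : ℤ) (hx : x ≠ 0) : 1 / (x.natAbs : ℝ) ^ 3 ≤ a1_v x := by
  have h0 : 1 ≤ x.natAbs := by omega
  unfold a1_v
  split_ifs with h
  · have : x.natAbs = 1 := by omega
    rw [this]; norm_num
  · have h1 : (2 : ℝ) ≤ (x.natAbs : ℝ) := by
      have : 2 ≤ x.natAbs := by omega
      exact_mod_cast this
    set t := (x.natAbs : ℝ)
    apply one_div_le_one_div_of_le
    · have : 0 < t - 1 := by linarith
      positivity
    · nlinarith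

theorem a1_one_le_norm (a : Eis) (ha : a ≠ 0) : 1 ≤ a.norm := by
  have h1 := norm_nonneg' a
  rcases h1.lt_or_eq with h | h
  · exact h
  · exfalso
    apply ha
    have h2 := norm_emb_sq a
    rw [← h] at h2
    apply emb_injective
    simpa using h2

theorem a1_V_bound (a : Eis) (ha : a ≠ 0) : 1 / (a.norm : ℝ) ^ 3 ≤ a1_V a := by
  have h1 := a1_one_le_norm a ha
  have h1' : (1 : ℝ) ≤ (a.norm : ℝ) := by exact_mod_cast h1
  have h2 := norm_eq a
  have h2' : (a.norm : ℝ) = (a.re : ℝ) ^ 2 - a.re * a.im + (a.im : ℝ) ^ 2 := by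
    rw [h2]; push_cast; ring
  unfold a1_V
  have key : ∀ x y : ℤ, x ≠ 0 → y ≠ 0 → 1 / ((x : ℝ) ^ 2 - x * y + (y : ℝ) ^ 2) ^ 3 ≤
      a1_v x * a1_v y := by
    intro x y hx hy
    have e1 := a1_v_le x hx
    have e2 := a1_v_le y hy
    have e3 : (1 : ℝ) ≤ (x.natAbs : ℝ) := by
      have : 1 ≤ x.natAbs := by omega
      exact_mod_cast this
    have e4 : (1 : ℝ) ≤ (y.natAbs : ℝ) := by
      have : 1 ≤ y.natAbs := by omega
      exact_mod_cast this
    have e5 : (x.natAbs : ℝ) = |(x : ℝ)| := by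
      rw [Nat.cast_natAbs, Int.cast_abs]
    have e6 : (y.natAbs : ℝ) = |(y : ℝ)| := by
      rw [Nat.cast_natAbs, Int.cast_abs]
    have e7 : (x.natAbs : ℝ) * (y.natAbs : ℝ) ≤ (x : ℝ) ^ 2 - x * y + (y : ℝ) ^ 2 := by
      rw [e5, e6]
      have f1 : (x : ℝ) * y ≤ |(x : ℝ)| * |(y : ℝ)| := by
        rw [← abs_mul]; exact le_abs_self _
      nlinarith [sq_abs (x : ℝ), sq_abs (y : ℝ), sq_nonneg (|(x : ℝ)| - |(y : ℝ)|)]
    calc 1 / ((x : ℝ) ^ 2 - x * y + (y : ℝ) ^ 2) ^ 3
        ≤ 1 / ((x.natAbs : ℝ) * (y.natAbs : ℝ)) ^ 3 := by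
          apply one_div_le_one_div_of_le (by positivity)
          gcongr
      _ = (1 / (x.natAbs : ℝ) ^ 3) * (1 / (y.natAbs : ℝ) ^ 3) := by
          field_simp
      _ ≤ a1_v x * a1_v y := mul_le_mul e1 e2 (by positivity) (a1_v_nonneg x)
  have key0 : ∀ x : ℤ, x ≠ 0 → 1 / ((x : ℝ) ^ 2) ^ 3 ≤ a1_v x := by
    intro x hx
    refine le_trans ?_ (a1_v_le x hx)
    have e3 : (1 : ℝ) ≤ (x.natAbs : ℝ) := by
      have : 1 ≤ x.natAbs := by omega
      exact_mod_cast this
    have e5 : (x.natAbs : ℝ) = |(x : ℝ)| := by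
      rw [Nat.cast_natAbs, Int.cast_abs]
    have e6 : (x : ℝ) ^ 2 = (x.natAbs : ℝ) ^ 2 := by rw [e5, sq_abs]
    rw [e6]
    apply one_div_le_one_div_of_le (by positivity)
    have : (1 : ℝ) ≤ (x.natAbs : ℝ) ^ 3 := one_le_pow₀ e3
    calc (x.natAbs : ℝ) ^ 3 = (x.natAbs : ℝ) ^ 3 * 1 := by ring
      _ ≤ (x.natAbs : ℝ) ^ 3 * (x.natAbs : ℝ) ^ 3 := by gcongr
      _ = ((x.natAbs : ℝ) ^ 2) ^ 3 := by ring
  have hv0 : a1_v 0 = 1 := by simp [a1_v]
  rw [h2']
  by_cases hx : a.re = 0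
  · by_cases hy : a.im = 0
    · exfalso
      apply ha
      ext
      · exact hx
      · exact hy
    · rw [hx, hv0, one_mul]
      have := key0 a.im hy
      simpa using this
  · by_cases hy : a.im = 0
    · rw [hy, hv0, mul_one]
      have := key0 a.re hx
      simpa using this
    · exact key a.re a.im hx hy

theorem a1_norm_pow (a : Eis) : ‖emb a‖ ^ 6 = (a.norm : ℝ) ^ 3 := by
  rw [← norm_emb_sq]; ring

/-- zero and the units -/
def a1_U : Finset Eis := {⟨0, 0⟩, ⟨1, 0⟩, ⟨-1, 0⟩, ⟨0, 1⟩, ⟨0, -1⟩, ⟨1, 1⟩, ⟨-1, -1⟩}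

theorem a1_card : a1_U.card = 7 := by decide

theorem a1_w_six : w ^ 6 = 1 := by
  have h := w_sq
  have h3 : w ^ 3 = 1 := by
    linear_combination (w - 1) * h
  calc w ^ 6 = (w ^ 3) ^ 2 := by ring
    _ = 1 := by rw [h3]; norm_num

theorem a1_w_six' : (1 + w) ^ 6 = 1 := by
  have h := w_sq
  have h1 : 1 + w = -(w * w) := by rw [h]; ring
  rw [h1]
  calc (-(w * w)) ^ 6 = (w ^ 6) ^ 2 := by ring
    _ = 1 := by rw [a1_w_six]; norm_num

theorem a1_sum_U : ∑ a ∈ a1_U, ((emb a) ^ 6)⁻¹ = 6 := by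
  have e1 : emb ⟨0, 0⟩ = 0 := by simp [emb_apply]
  have e2 : emb ⟨1, 0⟩ = 1 := by simp [emb_apply]
  have e3 : emb ⟨-1, 0⟩ = -1 := by simp [emb_apply]
  have e4 : emb ⟨0, 1⟩ = w := by simp [emb_apply]
  have e5 : emb ⟨0, -1⟩ = -w := by simp [emb_apply]
  have e6 : emb ⟨1, 1⟩ = 1 + w := by simp [emb_apply]
  have e7 : emb ⟨-1, -1⟩ = -(1 + w) := by simp [emb_apply]; ring
  have h8 : (-w) ^ 6 = 1 := by rw [Even.neg_pow (by decide), a1_w_six]
  have h9 : (-(1 + w)) ^ 6 = 1 := by rw [Even.neg_pow (by decide), a1_w_six']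
  have h10 : ((-1 : ℂ)) ^ 6 = 1 := by norm_num
  rw [a1_U, Finset.sum_insert (by decide), Finset.sum_insert (by decide),
    Finset.sum_insert (by decide), Finset.sum_insert (by decide), Finset.sum_insert (by decide),
    Finset.sum_insert (by decide), Finset.sum_singleton, e1, e2, e3, e4, e5, e6, e7, a1_w_six,
    a1_w_six', h8, h9, h10]
  norm_num

theorem a1_V_U (a : Eis) (ha : a ∈ a1_U) : a1_V a = 1 := by
  have h1 : a1_v 1 = 1 := by simp [a1_v]
  have h0 : a1_v 0 = 1 := by simp [a1_v]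
  have h2 : a1_v (-1) = 1 := by simp [a1_v]
  simp only [a1_U, Finset.mem_insert, Finset.mem_singleton] at ha
  rcases ha with h | h | h | h | h | h | h <;> simp [h, a1_V, h1, h0, h2]

theorem a1_V_nonneg (a : Eis) : 0 ≤ a1_V a := mul_nonneg (a1_v_nonneg _) (a1_v_nonneg _)

theorem a1_inv_bound (a : Eis) : ‖((emb a) ^ 6)⁻¹‖ ≤ a1_V a := by
  by_cases ha : a = 0
  · rw [ha]
    simpa using a1_V_nonneg 0
  · rw [norm_inv, norm_pow, a1_norm_pow, ← one_div]
    exact a1_V_bound a ha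

theorem a1_six_bound : ‖(∑' a : Eis, ((emb a) ^ 6)⁻¹) - 6‖ ≤ 49 / 4 - 7 := by
  classical
  set f : Eis → ℂ := fun a => ((emb a) ^ 6)⁻¹ with hf
  set f1 : Eis → ℂ := fun a => if a ∈ a1_U then f a else 0 with hf1
  set f2 : Eis → ℂ := fun a => if a ∈ a1_U then 0 else f a with hf2
  have s1 : HasSum f1 6 := by
    have h : HasSum f1 (∑ a ∈ a1_U, f1 a) := hasSum_sum_of_ne_finset_zero (by
      intro a ha
      simp only [hf1]
      rw [if_neg ha])
    have e : ∑ a ∈ a1_U, f1 a = 6 := by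
      rw [← a1_sum_U]
      apply Finset.sum_congr rfl
      intro a ha
      simp only [hf1, hf]
      rw [if_pos ha]
    rw [e] at h
    exact h
  set W : Eis → ℝ := fun a => a1_V a - (if a ∈ a1_U then 1 else 0) with hW
  have sW : HasSum W (49 / 4 - 7) := by
    have h : HasSum (fun a : Eis => if a ∈ a1_U then (1 : ℝ) else 0)
        (∑ a ∈ a1_U, (if a ∈ a1_U then (1 : ℝ) else 0)) := hasSum_sum_of_ne_finset_zero (by
      intro a ha
      rw [if_neg ha])
    have e : ∑ a ∈ a1_U, (if a ∈ a1_U then (1 : ℝ) else 0) = 7 := by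
      rw [Finset.sum_congr rfl (g := fun _ => (1 : ℝ)) (fun a ha => if_pos ha), Finset.sum_const,
        a1_card]
      norm_num
    rw [e] at h
    exact a1_hasSum.sub h
  have hb : ∀ a, ‖f2 a‖ ≤ W a := by
    intro a
    simp only [hf2, hW]
    split_ifs with h
    · rw [a1_V_U a h]; simp
    · rw [sub_zero]; exact a1_inv_bound a
  have s2 : Summable f2 := Summable.of_norm_bounded sW.summable hb
  have hn : ‖∑' a, f2 a‖ ≤ 49 / 4 - 7 := tsum_of_norm_bounded sW hb
  have s3 := s1.add s2.hasSum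
  have e3 : (fun a => f1 a + f2 a) = f := by
    funext a
    simp only [hf1, hf2]
    split_ifs <;> simp
  rw [e3] at s3
  rw [s3.tsum_eq, add_sub_cancel_left]
  exact hn


/-- the Eisenstein integers and the lattice -/
noncomputable def a1_equiv : Eis ≃ L0.lattice :=
  Equiv.ofBijective (fun a => ⟨emb a, (mem_L0 _).2 ⟨a, rfl⟩⟩) (by
    constructor
    · intro a b h
      exact emb_injective (congrArg Subtype.val h)
    · rintro ⟨z, hz⟩
      obtain ⟨a, ha⟩ := (mem_L0 z).1 hz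
      exact ⟨a, Subtype.ext ha⟩)

theorem a1_equiv_coe (a : Eis) : ((a1_equiv a : L0.lattice) : ℂ) = emb a := rfl

theorem a1_G (n : ℕ) : L0.G n = ∑' a : Eis, ((emb a) ^ n)⁻¹ := by
  unfold PeriodPair.G
  rw [← a1_equiv.tsum_eq]
  rfl

theorem a1_P (z : ℂ) : L0.weierstrassP z = ∑' a : Eis, (1 / (z - emb a) ^ 2 - 1 / (emb a) ^ 2) := by
  unfold PeriodPair.weierstrassP
  rw [← a1_equiv.tsum_eq]
  rfl

theorem a1_P' (z : ℂ) : L0.derivWeierstrassP z = ∑' a : Eis, (-2 / (z - emb a) ^ 3) := by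
  rw [← (L0.hasSum_derivWeierstrassP z).tsum_eq, ← a1_equiv.tsum_eq]
  rfl

/-- conjugation on the Eisenstein integers -/
def a1_star : Eis ≃ Eis := Function.Involutive.toPerm star star_star

theorem a1_conj_tsum (f : Eis → ℂ) : conj (∑' a, f a) = ∑' a, conj (f a) := by
  have h := tsum_star (L := SummationFilter.unconditional Eis) (f := f)
  exact h

theorem a1_six_conj : conj (∑' a : Eis, ((emb a) ^ 6)⁻¹) = ∑' a : Eis, ((emb a) ^ 6)⁻¹ := by
  rw [a1_conj_tsum, ← a1_star.tsum_eq]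
  apply tsum_congr
  intro a
  have : emb (a1_star a) = conj (emb a) := emb_star a
  rw [this, map_inv₀, map_pow, Complex.conj_conj]

theorem g3_real_pos : ∃ r : ℝ, 0 < r ∧ L0.g₃ = r := by
  have h1 := a1_six_bound
  have h2 := a1_six_conj
  set s := ∑' a : Eis, ((emb a) ^ 6)⁻¹ with hs
  rw [Complex.conj_eq_iff_re] at h2
  refine ⟨140 * s.re, ?_, ?_⟩
  · have h3 : |(s - 6).re| ≤ 49 / 4 - 7 := (Complex.abs_re_le_norm _).trans h1
    have h4 : (s - 6).re = s.re - 6 := by simp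
    rw [h4] at h3
    have := (abs_le.1 h3).1
    linarith
  · unfold PeriodPair.g₃
    rw [a1_G, ← hs]
    push_cast
    rw [h2]

theorem Om_pos : 0 < Om := by
  obtain ⟨r, hr, h⟩ := g3_real_pos
  unfold Om
  rw [h, Complex.ofReal_re]
  exact Real.rpow_pos_of_pos hr _

theorem OmC_ne : OmC ≠ 0 := by
  unfold OmC
  exact mul_ne_zero Complex.I_ne_zero (by exact_mod_cast Om_pos.ne')

theorem OmC_pow : OmC ^ 6 = - L0.g₃ := by
  obtain ⟨r, hr, h⟩ := g3_real_pos
  have h1 : Om ^ 6 = r := by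
    unfold Om
    rw [h, Complex.ofReal_re, ← Real.rpow_natCast, ← Real.rpow_mul hr.le]
    norm_num
  unfold OmC
  rw [mul_pow]
  have h2 : Complex.I ^ 6 = -1 := by
    calc Complex.I ^ 6 = (Complex.I ^ 2) ^ 3 := by ring
      _ = -1 := by rw [Complex.I_sq]; norm_num
  rw [h2, h, ← h1]
  push_cast
  ring

theorem P_conj (z : ℂ) : L0.weierstrassP (conj z) = conj (L0.weierstrassP z) := by
  rw [a1_P, a1_P, a1_conj_tsum, ← a1_star.tsum_eq]
  apply tsum_congr
  intro a
  have : emb (a1_star a) = conj (emb a) := emb_star a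
  rw [this]
  simp only [map_sub, map_div₀, map_one, map_pow]

theorem P'_conj (z : ℂ) : L0.derivWeierstrassP (conj z) = conj (L0.derivWeierstrassP z) := by
  rw [a1_P', a1_P', a1_conj_tsum, ← a1_star.tsum_eq]
  apply tsum_congr
  intro a
  have : emb (a1_star a) = conj (emb a) := emb_star a
  rw [this]
  simp only [map_sub, map_div₀, map_neg, map_pow, map_ofNat]

theorem a1_w3 : w ^ 3 = 1 := by
  have h := w_sq
  linear_combination (w - 1) * h

theorem a1_w_ne : w ≠ 0 := by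
  intro h
  have := a1_w3
  rw [h] at this
  norm_num at this

theorem a1_emb_om : emb ⟨0, 1⟩ = w := by simp [emb_apply]

/-- multiplication by `ω` on the Eisenstein integers -/
def a1_om : Eis ≃ Eis where
  toFun a := (⟨0, 1⟩ : Eis) * a
  invFun a := (⟨-1, -1⟩ : Eis) * a
  left_inv a := by
    show (⟨-1, -1⟩ : Eis) * ((⟨0, 1⟩ : Eis) * a) = a
    rw [← mul_assoc]
    have : (⟨-1, -1⟩ : Eis) * (⟨0, 1⟩ : Eis) = 1 := by decide
    rw [this, one_mul]
  right_inv a := by
    show (⟨0, 1⟩ : Eis) * ((⟨-1, -1⟩ : Eis) * a) = a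
    rw [← mul_assoc]
    have : (⟨0, 1⟩ : Eis) * (⟨-1, -1⟩ : Eis) = 1 := by decide
    rw [this, one_mul]

theorem a1_emb_mul (a : Eis) : emb (a1_om a) = w * emb a := by
  show emb ((⟨0, 1⟩ : Eis) * a) = _
  rw [map_mul, a1_emb_om]

theorem P_w (z : ℂ) : L0.weierstrassP (w * z) = w * L0.weierstrassP z := by
  rw [a1_P, a1_P, ← tsum_mul_left, ← a1_om.tsum_eq]
  apply tsum_congr
  intro a
  rw [a1_emb_mul]
  have h3 := a1_w3
  have h0 := a1_w_ne
  have e1 : w * z - w * emb a = w * (z - emb a) := by ring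
  have e2 : ∀ t : ℂ, 1 / (w * t) ^ 2 = w * (1 / t ^ 2) := by
    intro t
    rw [mul_pow]
    have : (1 : ℂ) / (w ^ 2 * t ^ 2) = (1 / w ^ 2) * (1 / t ^ 2) := by
      rw [one_div_mul_one_div]
    rw [this]
    have h4 : 1 / w ^ 2 = w := by
      rw [div_eq_iff (pow_ne_zero 2 h0)]
      rw [← h3]; ring
    rw [h4]
  rw [e1, e2, e2]
  ring

theorem P'_w (z : ℂ) : L0.derivWeierstrassP (w * z) = L0.derivWeierstrassP z := by
  rw [a1_P', a1_P', ← a1_om.tsum_eq]
  apply tsum_congr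
  intro a
  rw [a1_emb_mul]
  have h3 := a1_w3
  have e1 : w * z - w * emb a = w * (z - emb a) := by ring
  rw [e1, mul_pow, h3, one_mul]

end CM27

end

/-! ### part A2 -/

section

set_option autoImplicit false

open scoped ComplexConjugate
open Filter Topology

namespace CM27

/-! ## [AN-A2] the functions `xw`, `yw` (file A2.lean; uses A1, H2)

* `weq`: Mathlib `derivWeierstrassP_sq`, `g2_eq`, `OmC_pow`, `mem_L0`.
* `yw_deriv`: differentiate `℘'² = 4℘³ - g₃`: `2 ℘' ℘'' = 12 ℘² ℘'`; where `℘' ≠ 0` this gives `℘'' = 6℘²`; both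
  sides are analytic on the complement of the lattice (`analyticOnNhd_weierstrassP`, connected) and `℘'`
  is not identically zero, so it holds everywhere off the lattice. `OmC⁻³ · 6 ℘² = 6 OmC x²`.
* `xw_tendsto`, `ratio_tendsto`: near `0`, `℘(z) = 1/z² + ℘Except(z)`, `℘'(z) = -2/z³ + ℘'Except(z)`
  (`weierstrassPExcept_def`, `derivWeierstrassPExcept_def` with `l₀ = 0`, analytic at `0`). -/

theorem a2_notMem {z : ℂ} (hz : z ∉ Set.range emb) : z ∉ L0.lattice := fun h => hz ((mem_L0 z).1 h)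

theorem a2_mem (a : Eis) : emb a ∈ L0.lattice := (mem_L0 _).2 ⟨a, rfl⟩

theorem a2_countable : (Set.range emb).Countable := by
  have h : Countable Eis := by
    have : Function.Injective (fun a : Eis => (a.re, a.im)) := by
      intro a b hab
      simp only [Prod.mk.injEq] at hab
      exact QuadraticAlgebra.ext hab.1 hab.2
    exact this.countable
  exact Set.countable_range emb

theorem a2_isClosed : IsClosed (Set.range emb) := by
  have h := L0.isClosed_lattice
  have h2 : ((L0.lattice : Set ℂ)) = Set.range emb := by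
    ext z
    exact mem_L0 z
  rw [← h2]
  exact h

theorem weq (z : ℂ) (hz : z ∉ Set.range emb) : yw z ^ 2 = 4 * xw z ^ 3 + 1 := by
  have h := L0.derivWeierstrassP_sq z (a2_notMem hz)
  rw [g2_eq] at h
  have h1 := OmC_ne
  have h2 := OmC_pow
  have h3 : yw z ^ 2 * OmC ^ 6 = (4 * xw z ^ 3 + 1) * OmC ^ 6 := by
    have e1 : yw z ^ 2 * OmC ^ 6 = L0.derivWeierstrassP z ^ 2 := by
      unfold yw
      field_simp
    have e2 : (4 * xw z ^ 3 + 1) * OmC ^ 6 = 4 * L0.weierstrassP z ^ 3 + OmC ^ 6 := by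
      unfold xw
      field_simp
    rw [e1, e2, h, h2]
    ring
  exact mul_right_cancel₀ (pow_ne_zero 6 h1) h3

theorem nonsing (x Y : ℂ) (h : (2 * Y + 1) ^ 2 = 4 * x ^ 3 + 1) :
    (E ℂ).toAffine.Nonsingular x Y := by
  rw [WeierstrassCurve.Affine.nonsingular_iff]
  have e1 : (E ℂ).toAffine.a₁ = 0 := rfl
  have e2 : (E ℂ).toAffine.a₂ = 0 := rfl
  have e3 : (E ℂ).toAffine.a₃ = 1 := rfl
  have e4 : (E ℂ).toAffine.a₄ = 0 := rfl
  have e6 : (E ℂ).toAffine.a₆ = 0 := rfl
  refine ⟨?_, ?_⟩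
  · rw [WeierstrassCurve.Affine.equation_iff, e1, e2, e3, e4, e6]
    linear_combination h / 4
  · rw [e1, e2, e3, e4]
    by_contra hne
    push Not at hne
    obtain ⟨h1, h2⟩ := hne
    have h3 : 2 * Y + 1 = 0 := by linear_combination h2
    have h4 : x ^ 2 = 0 := by linear_combination (-1 / 3) * h1
    have h5 : x = 0 := by simpa using h4
    rw [h3, h5] at h
    norm_num at h

theorem xw_deriv (z : ℂ) (hz : z ∉ Set.range emb) : HasDerivAt xw (OmC * yw z) z := by
  have h1 := OmC_ne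
  have hd : HasDerivAt L0.weierstrassP (L0.derivWeierstrassP z) z := by
    have h2 := (L0.analyticOnNhd_weierstrassP z (a2_notMem hz)).differentiableAt.hasDerivAt
    rwa [L0.deriv_weierstrassP] at h2
  have h3 := hd.div_const (OmC ^ 2)
  have h4 : OmC * yw z = L0.derivWeierstrassP z / OmC ^ 2 := by
    unfold yw
    field_simp
  rw [h4]
  exact h3

theorem a2_punct {p : ℂ → Prop} (h : ∀ᶠ z in 𝓝 (0:ℂ), p z) : ∀ᶠ z in 𝓝[≠] (0:ℂ), p z :=
  h.filter_mono nhdsWithin_le_nhds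

theorem a2_ev_notMem : ∀ᶠ z in 𝓝[≠] (0:ℂ), z ∉ Set.range emb := by
  have h := L0.compl_lattice_sdiff_singleton_mem_nhds 0
  have h1 : ∀ᶠ z in 𝓝[≠] (0:ℂ), z ∈ ((L0.lattice : Set ℂ) \ {(0:ℂ)})ᶜ := a2_punct h
  filter_upwards [h1, self_mem_nhdsWithin] with z hz hz0 hmem
  exact hz ⟨(mem_L0 z).2 hmem, hz0⟩

theorem a2_sq_P : Tendsto (fun z => z ^ 2 * L0.weierstrassP z) (𝓝[≠] 0) (𝓝 1) := by
  have h1 : ContinuousAt (fun z : ℂ => z ^ 2 * L0.weierstrassPExcept 0 z + 1) 0 := by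
    have := (L0.analyticAt_weierstrassPExcept 0).continuousAt
    fun_prop
  have h2 : Tendsto (fun z : ℂ => z ^ 2 * L0.weierstrassPExcept 0 z + 1) (𝓝[≠] 0) (𝓝 1) := by
    have h3 := h1.tendsto.mono_left (nhdsWithin_le_nhds (s := {0}ᶜ))
    simpa using h3
  apply h2.congr'
  filter_upwards [self_mem_nhdsWithin] with z hz
  have hz' : z ≠ 0 := hz
  have h4 := L0.weierstrassPExcept_add 0 z
  simp only [ZeroMemClass.coe_zero, sub_zero] at h4
  rw [← h4]
  field_simp
  simp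

theorem a2_cube_P' : Tendsto (fun z => z ^ 3 * L0.derivWeierstrassP z) (𝓝[≠] 0) (𝓝 (-2)) := by
  have h1 : ContinuousAt (fun z : ℂ => z ^ 3 * L0.derivWeierstrassPExcept 0 z - 2) 0 := by
    have := (L0.analyticAt_derivWeierstrassPExcept 0).continuousAt
    fun_prop
  have h2 : Tendsto (fun z : ℂ => z ^ 3 * L0.derivWeierstrassPExcept 0 z - 2) (𝓝[≠] 0)
      (𝓝 (-2)) := by
    have h3 := h1.tendsto.mono_left (nhdsWithin_le_nhds (s := {0}ᶜ))
    simpa using h3
  apply h2.congr'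
  filter_upwards [self_mem_nhdsWithin] with z hz
  have hz' : z ≠ 0 := hz
  have h4 := L0.derivWeierstrassPExcept_sub 0 z
  simp only [ZeroMemClass.coe_zero, sub_zero] at h4
  rw [← h4]
  field_simp

theorem a2_preconnected {S : Set ℂ} (hS : S.Countable) : IsPreconnected Sᶜ := by
  apply (hS.isConnected_compl_of_one_lt_rank _).isPreconnected
  rw [Complex.rank_real_complex]
  exact Cardinal.one_lt_two

theorem yw_deriv (z : ℂ) (hz : z ∉ Set.range emb) : HasDerivAt yw (6 * OmC * xw z ^ 2) z := by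
  have hO := OmC_ne
  have hΩ : ∀ {x : ℂ}, x ∉ Set.range emb → AnalyticAt ℂ L0.derivWeierstrassP x := fun {x} hx =>
    L0.analyticOnNhd_derivWeierstrassP x (a2_notMem hx)
  have hopen : IsOpen (Set.range emb)ᶜ := a2_isClosed.isOpen_compl
  have hdP : ∀ {x : ℂ}, x ∉ Set.range emb →
      HasDerivAt L0.weierstrassP (L0.derivWeierstrassP x) x := by
    intro x hx
    have h2 := (L0.analyticOnNhd_weierstrassP x (a2_notMem hx)).differentiableAt.hasDerivAt
    rwa [L0.deriv_weierstrassP] at h2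
  -- the product relation
  have hprod : ∀ x : ℂ, x ∉ Set.range emb → L0.derivWeierstrassP x *
      (deriv L0.derivWeierstrassP x - 6 * L0.weierstrassP x ^ 2) = 0 := by
    intro x hx
    have h1 : (fun y => L0.derivWeierstrassP y ^ 2) =ᶠ[𝓝 x]
        fun y => 4 * L0.weierstrassP y ^ 3 - L0.g₃ := by
      filter_upwards [hopen.mem_nhds hx] with y hy
      rw [L0.derivWeierstrassP_sq y (a2_notMem hy), g2_eq]
      ring
    have h2 : HasDerivAt (fun y => L0.derivWeierstrassP y ^ 2)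
        (((2:ℕ):ℂ) * L0.derivWeierstrassP x ^ (2 - 1) * deriv L0.derivWeierstrassP x) x :=
      (hΩ hx).differentiableAt.hasDerivAt.pow 2
    have h3 : HasDerivAt (fun y => 4 * L0.weierstrassP y ^ 3 - L0.g₃)
        (4 * (((3:ℕ):ℂ) * L0.weierstrassP x ^ (3 - 1) * L0.derivWeierstrassP x)) x :=
      (((hdP hx).pow 3).const_mul 4).sub_const _
    have h4 := h2.unique (h3.congr_of_eventuallyEq h1)
    norm_num at h4
    linear_combination h4 / 2
  -- `℘'` is not identically zero near any point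
  have hne : ∀ x : ℂ, x ∉ Set.range emb → ∀ᶠ y in 𝓝[≠] x, L0.derivWeierstrassP y ≠ 0 := by
    intro x hx
    rcases (hΩ hx).eventually_eq_zero_or_eventually_ne_zero with h | h
    · exfalso
      have h1 : AnalyticOnNhd ℂ L0.derivWeierstrassP (Set.range emb)ᶜ := fun y hy => hΩ hy
      have h2 := h1.eqOn_zero_of_preconnected_of_eventuallyEq_zero (a2_preconnected a2_countable)
        hx h
      have h3 : Tendsto (fun z => z ^ 3 * L0.derivWeierstrassP z) (𝓝[≠] 0) (𝓝 0) := by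
        apply tendsto_const_nhds.congr'
        filter_upwards [a2_ev_notMem] with y hy
        rw [h2 hy]
        simp
      have h4 := tendsto_nhds_unique h3 a2_cube_P'
      norm_num at h4
    · exact h
  have hkey : deriv L0.derivWeierstrassP z = 6 * L0.weierstrassP z ^ 2 := by
    have h1 : ContinuousAt (fun y => deriv L0.derivWeierstrassP y - 6 * L0.weierstrassP y ^ 2) z := by
      have e1 := (hΩ hz).deriv.continuousAt
      have e2 := (hdP hz).continuousAt
      fun_prop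
    have h2 : Tendsto (fun y => deriv L0.derivWeierstrassP y - 6 * L0.weierstrassP y ^ 2) (𝓝[≠] z)
        (𝓝 (deriv L0.derivWeierstrassP z - 6 * L0.weierstrassP z ^ 2)) :=
      h1.tendsto.mono_left nhdsWithin_le_nhds
    have h3 : Tendsto (fun y => deriv L0.derivWeierstrassP y - 6 * L0.weierstrassP y ^ 2) (𝓝[≠] z)
        (𝓝 0) := by
      apply tendsto_const_nhds.congr'
      have e3 : ∀ᶠ y in 𝓝[≠] z, y ∉ Set.range emb := by
        have e4 : ∀ᶠ y in 𝓝 z, y ∈ (Set.range emb)ᶜ := hopen.mem_nhds hz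
        exact e4.filter_mono nhdsWithin_le_nhds
      filter_upwards [hne z hz, e3] with y hy hy2
      rcases mul_eq_zero.1 (hprod y hy2) with h | h
      · exact absurd h hy
      · exact h.symm
    have h4 := tendsto_nhds_unique h2 h3
    linear_combination h4
  have h5 : HasDerivAt L0.derivWeierstrassP (6 * L0.weierstrassP z ^ 2) z := by
    rw [← hkey]
    exact (hΩ hz).differentiableAt.hasDerivAt
  have h6 := h5.div_const (OmC ^ 3)
  have h7 : 6 * OmC * xw z ^ 2 = 6 * L0.weierstrassP z ^ 2 / OmC ^ 3 := by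
    unfold xw
    field_simp
  rw [h7]
  exact h6

theorem xw_add (z : ℂ) (a : Eis) : xw (z + emb a) = xw z := by
  unfold xw
  have := L0.weierstrassP_add_coe z ⟨emb a, a2_mem a⟩
  simp only at this
  rw [this]

theorem yw_add (z : ℂ) (a : Eis) : yw (z + emb a) = yw z := by
  unfold yw
  have := L0.derivWeierstrassP_add_coe z ⟨emb a, a2_mem a⟩
  simp only at this
  rw [this]

theorem xw_neg (z : ℂ) : xw (-z) = xw z := by
  unfold xw
  rw [L0.weierstrassP_neg]

theorem yw_neg (z : ℂ) : yw (-z) = - yw z := by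
  unfold yw
  rw [L0.derivWeierstrassP_neg]
  ring

theorem xw_w (z : ℂ) : xw (w * z) = w * xw z := by
  unfold xw
  rw [P_w]
  ring

theorem yw_w (z : ℂ) : yw (w * z) = yw z := by
  unfold yw
  rw [P'_w]

theorem a2_conj_OmC : conj OmC = -OmC := by
  unfold OmC
  simp

theorem xw_conj (z : ℂ) : xw (conj z) = conj (xw z) := by
  unfold xw
  rw [P_conj, map_div₀, map_pow, a2_conj_OmC]
  ring

theorem yw_conj (z : ℂ) : yw (conj z) = - conj (yw z) := by
  unfold yw
  rw [P'_conj, map_div₀, map_pow, a2_conj_OmC, Odd.neg_pow (by decide), div_neg, neg_neg]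

/-- near `0`: `x(z) z² → 1 / OmC²` -/
theorem xw_sq_tendsto : Tendsto (fun z => z ^ 2 * xw z) (𝓝[≠] 0) (𝓝 (1 / OmC ^ 2)) := by
  have h := a2_sq_P.div_const (OmC ^ 2)
  refine h.congr (fun z => ?_)
  unfold xw
  ring

theorem xw_tendsto : Tendsto (fun z => ‖xw z‖) (𝓝[≠] 0) atTop := by
  have h1 : Tendsto (fun z => ‖z ^ 2 * xw z‖) (𝓝[≠] 0) (𝓝 ‖1 / OmC ^ 2‖) := xw_sq_tendsto.norm
  have hpos : 0 < ‖1 / OmC ^ 2‖ := by
    rw [norm_pos_iff]
    exact div_ne_zero one_ne_zero (pow_ne_zero 2 OmC_ne)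
  have h2 : Tendsto (fun z : ℂ => (‖z‖ ^ 2)⁻¹) (𝓝[≠] 0) atTop := by
    apply Tendsto.inv_tendsto_nhdsGT_zero
    rw [tendsto_nhdsWithin_iff]
    constructor
    · have : ContinuousAt (fun z : ℂ => ‖z‖ ^ 2) 0 := by fun_prop
      have h3 := this.tendsto.mono_left (nhdsWithin_le_nhds (s := {0}ᶜ))
      simpa using h3
    · filter_upwards [self_mem_nhdsWithin] with z hz
      have hz' : z ≠ 0 := hz
      exact pow_pos (norm_pos_iff.2 hz') 2
  have h3 := h1.pos_mul_atTop hpos h2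
  apply h3.congr'
  filter_upwards [self_mem_nhdsWithin] with z hz
  have hz' : z ≠ 0 := hz
  have hz'' : ‖z‖ ≠ 0 := norm_ne_zero_iff.2 hz'
  rw [norm_mul, norm_pow]
  field_simp

theorem ratio_tendsto : Tendsto (fun z => z * yw z / xw z) (𝓝[≠] 0) (𝓝 (-2 / OmC)) := by
  have hO := OmC_ne
  have h1 := (a2_cube_P'.div a2_sq_P one_ne_zero).div_const OmC
  have h2 : (-2 : ℂ) / 1 / OmC = -2 / OmC := by ring
  rw [h2] at h1
  apply h1.congr'
  filter_upwards [self_mem_nhdsWithin] with z hz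
  have hz' : z ≠ 0 := hz
  simp only [Pi.div_apply]
  unfold xw yw
  by_cases hP : L0.weierstrassP z = 0
  · simp [hP]
  · field_simp

/-- zeros of an analytic function on the complement of a closed countable set are countable -/
theorem a2_countable_zeros {S : Set ℂ} (hS : S.Countable) {F : ℂ → ℂ}
    (hF : AnalyticOnNhd ℂ F Sᶜ) {z₀ : ℂ} (hz₀ : z₀ ∉ S) (hne : F z₀ ≠ 0) :
    {z : ℂ | z ∉ S ∧ F z = 0}.Countable := by
  set T : Set ℂ := {z : ℂ | z ∉ S ∧ F z = 0} with hT
  have hdisc : DiscreteTopology T := by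
    rw [discreteTopology_subtype_iff]
    intro x hx
    have h1 : ∀ᶠ y in 𝓝[≠] x, F y ≠ 0 := by
      rcases (hF x hx.1).eventually_eq_zero_or_eventually_ne_zero with h | h
      · exfalso
        exact hne (hF.eqOn_zero_of_preconnected_of_eventuallyEq_zero (a2_preconnected hS) hx.1 h hz₀)
      · exact h
    rw [inf_principal_eq_bot]
    filter_upwards [h1] with y hy hy2
    exact hy hy2.2
  have : Countable T := countable_of_Lindelof_of_discrete
  exact this.to_set

theorem a2_analytic_xw {z : ℂ} (hz : z ∉ Set.range emb) : AnalyticAt ℂ xw z := by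
  unfold xw
  have := L0.analyticOnNhd_weierstrassP z (a2_notMem hz)
  exact this.div_const

/-- `℘` is not constant: for every `c` the set `{x = c}` is countable. -/
theorem countable_xw_eq (c : ℂ) : {z : ℂ | z ∉ Set.range emb ∧ xw z = c}.Countable := by
  have h1 : ∃ z₀, z₀ ∉ Set.range emb ∧ xw z₀ - c ≠ 0 := by
    have h2 := xw_tendsto.eventually_gt_atTop ‖c‖
    obtain ⟨z, hz1, hz2⟩ := (h2.and a2_ev_notMem).exists
    refine ⟨z, hz2, fun h => ?_⟩
    rw [sub_eq_zero] at h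
    rw [h] at hz1
    exact lt_irrefl _ hz1
  obtain ⟨z₀, hz₀, hne⟩ := h1
  have h3 : AnalyticOnNhd ℂ (fun z => xw z - c) (Set.range emb)ᶜ := by
    intro z hz
    exact (a2_analytic_xw hz).sub analyticAt_const
  have h4 := a2_countable_zeros a2_countable h3 hz₀ hne
  simpa only [sub_eq_zero] using h4

/-- for every `v` the set `{x(z + v) = x(z)}` is countable unless `v` is in the lattice. -/
theorem countable_xw_add_eq (v : ℂ) (hv : v ∉ Set.range emb) :
    {z : ℂ | z ∉ Set.range emb ∧ z + v ∉ Set.range emb ∧ xw (z + v) = xw z}.Countable := by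
  set S : Set ℂ := Set.range emb ∪ {z | z + v ∈ Set.range emb} with hS
  have hScount : S.Countable := by
    apply a2_countable.union
    exact a2_countable.preimage (add_left_injective v)
  have hvS : ∀ᶠ z in 𝓝[≠] (0:ℂ), z + v ∉ Set.range emb := by
    apply a2_punct
    have hc : ContinuousAt (fun z : ℂ => z + v) 0 := by fun_prop
    have h1 : (Set.range emb)ᶜ ∈ 𝓝 ((0:ℂ) + v) := by
      rw [zero_add]
      exact a2_isClosed.isOpen_compl.mem_nhds hv
    exact hc.tendsto h1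
  have h1 : ∃ z₀, z₀ ∉ S ∧ xw (z₀ + v) - xw z₀ ≠ 0 := by
    have h2 := xw_tendsto.eventually_gt_atTop (‖xw v‖ + 1)
    have h3 : ∀ᶠ z in 𝓝[≠] (0:ℂ), ‖xw (z + v)‖ < ‖xw v‖ + 1 := by
      apply a2_punct
      have hc : ContinuousAt (fun z : ℂ => ‖xw (z + v)‖) 0 := by
        apply ContinuousAt.norm
        have h5 : ContinuousAt xw (0 + v) := by
          rw [zero_add]
          exact (a2_analytic_xw hv).continuousAt
        exact h5.comp (f := fun z : ℂ => z + v) (by fun_prop)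
      have h6 : ‖xw ((0:ℂ) + v)‖ < ‖xw v‖ + 1 := by
        rw [zero_add]
        linarith
      exact hc.tendsto.eventually (gt_mem_nhds h6)
    obtain ⟨z, ⟨⟨hz1, hz2⟩, hz3⟩, hz4⟩ := (((h2.and a2_ev_notMem).and h3).and hvS).exists
    refine ⟨z, ?_, fun h => ?_⟩
    · rw [hS]
      rintro (h | h)
      · exact hz2 h
      · exact hz4 h
    · rw [sub_eq_zero] at h
      rw [h] at hz3
      linarith
  obtain ⟨z₀, hz₀, hne⟩ := h1
  have h3 : AnalyticOnNhd ℂ (fun z => xw (z + v) - xw z) Sᶜ := by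
    intro z hz
    have hz1 : z ∉ Set.range emb := fun h => hz (Or.inl h)
    have hz2 : z + v ∉ Set.range emb := fun h => hz (Or.inr h)
    have h5 : AnalyticAt ℂ (fun z => xw (z + v)) z :=
      (a2_analytic_xw hz2).fun_comp (f := fun z : ℂ => z + v) (by fun_prop)
    exact h5.sub (a2_analytic_xw hz1)
  have h4 := a2_countable_zeros hScount h3 hz₀ hne
  refine h4.mono ?_
  rintro z ⟨hz1, hz2, hz3⟩
  refine ⟨?_, ?_⟩
  · rw [hS]
    rintro (h | h)
    · exact hz1 h
    · exact hz2 h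
  · rw [hz3, sub_self]

end CM27

end

/-! ### part A3 -/

section

set_option autoImplicit false

open scoped ComplexConjugate
open Filter Topology

namespace CM27

/-! ## [AN-A3] the addition theorem (file A3.lean; uses A2)

Fix `v ∉ L`. Let `D = {z | z ∉ L, z + v ∉ L, x(z + v) ≠ x(z)}`: open, complement countable
(`countable_xw_add_eq`), so `D` is connected (`Set.Countable.isConnected_compl_of_one_lt_rank` or
`…isPreconnected…`) and `0` is in its closure.  With `X1 = x(z), Y1 = y(z), X2 = x(z+v), Y2 = y(z+v)`,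
`s = (Y2 + Y1)/(X2 - X1)`: `X' = OmC Y`, `Y' = 6 OmC X²`, `Y² = 4X³ + 1` give `s' = 2 OmC (X2 - X1)` and
* `f(z) = s²/4 - X1 - X2` has derivative `0` on `D`, so `f` is constant on `D`. As `z → 0`:
  `s²/4 - X1 = (Y2² + 2 Y1 Y2 + 1 - 4 X1 X2² + 8 X1² X2) / (4 (X2 - X1)²) → 2 x(v)` because `|X1| → ∞`,
  `(Y1/X1²)² = (4X1³+1)/X1⁴ → 0`, `X2 → x(v)`, `Y2 → y(v)`. So `f = x(v)`.
* `g(z) = -(Y2 + s (x(v) - X2))` has derivative `0` on `D` (use `x(v) = s²/4 - X1 - X2`):
  `6X2² + 2(X2-X1)(x(v)-X2) - s Y2 = 0`. As `z → 0`: `s z → 2/OmC` (`ratio_tendsto`),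
  `(x(v) - x(z+v))/z → - OmC y(v)`, so `g → -(y(v) - 2 y(v)) = y(v)`. -/

theorem a3_countable_range : (Set.range emb).Countable := by
  have : Countable Eis := by
    have : Function.Injective (fun a : Eis => (a.re, a.im)) := by
      intro a b h
      simp only [Prod.mk.injEq] at h
      exact QuadraticAlgebra.ext h.1 h.2
    exact this.countable
  exact Set.countable_range _

/-- The domain of the addition theorem. -/
def a3D (v : ℂ) : Set ℂ :=
  {z | z ∉ Set.range emb ∧ z + v ∉ Set.range emb ∧ xw (z + v) ≠ xw z}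

theorem a3_countable_compl (v : ℂ) (hv : v ∉ Set.range emb) : (a3D v)ᶜ.Countable := by
  have h1 := a3_countable_range
  have h2 : {z : ℂ | z + v ∈ Set.range emb}.Countable := by
    have h3 : {z : ℂ | z + v ∈ Set.range emb} = (fun z => z + v) ⁻¹' (Set.range emb) := rfl
    rw [h3]
    exact h1.preimage (add_left_injective v)
  apply ((h1.union h2).union (countable_xw_add_eq v hv)).mono
  intro z hz
  by_cases ha : z ∈ Set.range emb
  · exact Or.inl (Or.inl ha)
  by_cases hb : z + v ∈ Set.range emb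
  · exact Or.inl (Or.inr hb)
  right
  refine ⟨ha, hb, ?_⟩
  by_contra hc
  exact hz ⟨ha, hb, hc⟩

theorem a3_isOpen_compl_range : IsOpen {z : ℂ | z ∉ Set.range emb} := by
  have h : (L0.lattice : Set ℂ) = Set.range emb := by
    ext z
    exact mem_L0 z
  have h2 : IsClosed (Set.range emb) := by
    rw [← h]
    exact L0.isClosed_lattice
  exact h2.isOpen_compl

theorem a3_isOpen (v : ℂ) : IsOpen (a3D v) := by
  have h1 := a3_isOpen_compl_range
  have h2 : IsOpen {z : ℂ | z + v ∉ Set.range emb} :=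
    h1.preimage (f := fun z => z + v) (by fun_prop)
  have h3 : IsOpen ({z : ℂ | z ∉ Set.range emb} ∩ {z : ℂ | z + v ∉ Set.range emb}) := h1.inter h2
  have h4 : ContinuousOn (fun z => xw (z + v) - xw z)
      ({z : ℂ | z ∉ Set.range emb} ∩ {z : ℂ | z + v ∉ Set.range emb}) := by
    intro z hz
    apply ContinuousAt.continuousWithinAt
    have e1 : ContinuousAt (fun z => xw (z + v)) z :=
      ContinuousAt.comp (g := xw) (f := fun z => z + v) (xw_deriv (z + v) hz.2).continuousAt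
        (by fun_prop)
    exact e1.sub (xw_deriv z hz.1).continuousAt
  have h5 := h4.isOpen_inter_preimage h3 (isOpen_compl_singleton (x := (0 : ℂ)))
  convert h5 using 1
  ext z
  simp only [a3D, Set.mem_ofPred_eq, Set.mem_inter_iff, Set.mem_preimage, Set.mem_compl_iff,
    Set.mem_singleton_iff, sub_eq_zero]
  tauto

theorem a3_isPreconnected (v : ℂ) (hv : v ∉ Set.range emb) : IsPreconnected (a3D v) := by
  have h := (a3_countable_compl v hv).isPathConnected_compl_of_one_lt_rank (E := ℂ)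
    (by rw [Complex.rank_real_complex]; exact Nat.one_lt_ofNat)
  rw [compl_compl] at h
  exact h.isConnected.isPreconnected

theorem a3_neBot (v : ℂ) (hv : v ∉ Set.range emb) : (𝓝[a3D v] (0 : ℂ)).NeBot := by
  rw [← mem_closure_iff_nhdsWithin_neBot]
  have h := (a3_countable_compl v hv).dense_compl ℝ
  rw [compl_compl] at h
  exact h 0

theorem a3_le (v : ℂ) : 𝓝[a3D v] (0 : ℂ) ≤ 𝓝[≠] 0 := by
  apply nhdsWithin_mono
  intro z hz h0
  rw [Set.mem_singleton_iff] at h0
  subst h0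
  exact hz.1 ⟨0, by simp⟩

/-- The slope. -/
noncomputable def a3s (v z : ℂ) : ℂ := (yw (z + v) + yw z) / (xw (z + v) - xw z)

theorem a3_hasDeriv_shift_x (v z : ℂ) (h : z + v ∉ Set.range emb) :
    HasDerivAt (fun z => xw (z + v)) (OmC * yw (z + v)) z := by
  have h1 := (xw_deriv (z + v) h).comp_add_const z v
  exact h1

theorem a3_hasDeriv_shift_y (v z : ℂ) (h : z + v ∉ Set.range emb) :
    HasDerivAt (fun z => yw (z + v)) (6 * OmC * xw (z + v) ^ 2) z := by
  have h1 := (yw_deriv (z + v) h).comp_add_const z v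
  exact h1

theorem a3_deriv_s (v z : ℂ) (hz : z ∈ a3D v) :
    HasDerivAt (a3s v) (2 * OmC * (xw (z + v) - xw z)) z := by
  obtain ⟨h1, h2, h3⟩ := hz
  have hne : xw (z + v) - xw z ≠ 0 := sub_ne_zero.2 h3
  have e1 := ((a3_hasDeriv_shift_y v z h2).add (yw_deriv z h1)).div
    ((a3_hasDeriv_shift_x v z h2).sub (xw_deriv z h1)) hne
  have w1 := weq z h1
  have w2 := weq (z + v) h2
  refine e1.congr_deriv ?_
  simp only [Pi.add_apply, Pi.sub_apply]
  rw [div_eq_iff (pow_ne_zero 2 hne)]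
  linear_combination (-OmC) * w2 + OmC * w1

theorem a3_deriv_f (v z : ℂ) (hz : z ∈ a3D v) :
    HasDerivAt (fun z => a3s v z ^ 2 / 4 - xw (z + v) - xw z) 0 z := by
  have hz' := hz
  obtain ⟨h1, h2, h3⟩ := hz
  have hne : xw (z + v) - xw z ≠ 0 := sub_ne_zero.2 h3
  have e1 := (((a3_deriv_s v z hz').pow 2).div_const 4).sub (a3_hasDeriv_shift_x v z h2)
  have e2 := e1.sub (xw_deriv z h1)
  refine e2.congr_deriv ?_
  have e3 : a3s v z * (xw (z + v) - xw z) = yw (z + v) + yw z := by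
    rw [a3s, div_mul_cancel₀ _ hne]
  push_cast
  linear_combination OmC * e3

theorem a3_const (v : ℂ) (hv : v ∉ Set.range emb) (f : ℂ → ℂ)
    (hf : ∀ z ∈ a3D v, HasDerivAt f 0 z) (c : ℂ) (hc : Tendsto f (𝓝[a3D v] (0 : ℂ)) (𝓝 c))
    (z : ℂ) (hz : z ∈ a3D v) : f z = c := by
  have h1 : ∀ x ∈ a3D v, f x = f z := by
    intro x hx
    apply (a3_isOpen v).is_const_of_deriv_eq_zero (a3_isPreconnected v hv) _ _ hx hz
    · intro y hy
      exact (hf y hy).differentiableAt.differentiableWithinAt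
    · intro y hy
      exact (hf y hy).deriv
  have h2 : Tendsto f (𝓝[a3D v] (0 : ℂ)) (𝓝 (f z)) := by
    apply tendsto_const_nhds.congr'
    filter_upwards [self_mem_nhdsWithin] with x hx
    exact (h1 x hx).symm
  have := a3_neBot v hv
  exact tendsto_nhds_unique h2 hc

theorem a3_lim_x (v : ℂ) (hv : v ∉ Set.range emb) :
    Tendsto (fun z => xw (z + v)) (𝓝[a3D v] (0 : ℂ)) (𝓝 (xw v)) := by
  have h : ContinuousAt (fun z => xw (z + v)) 0 :=
    (a3_hasDeriv_shift_x v 0 (by rwa [zero_add])).continuousAt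
  have h2 := h.tendsto
  simp only [zero_add] at h2
  exact h2.mono_left nhdsWithin_le_nhds

theorem a3_lim_y (v : ℂ) (hv : v ∉ Set.range emb) :
    Tendsto (fun z => yw (z + v)) (𝓝[a3D v] (0 : ℂ)) (𝓝 (yw v)) := by
  have h : ContinuousAt (fun z => yw (z + v)) 0 :=
    (a3_hasDeriv_shift_y v 0 (by rwa [zero_add])).continuousAt
  have h2 := h.tendsto
  simp only [zero_add] at h2
  exact h2.mono_left nhdsWithin_le_nhds

theorem a3_lim_t (v : ℂ) : Tendsto (fun z => (xw z)⁻¹) (𝓝[a3D v] (0 : ℂ)) (𝓝 0) := by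
  rw [tendsto_zero_iff_norm_tendsto_zero]
  have h := (xw_tendsto.mono_left (a3_le v)).inv_tendsto_atTop
  refine h.congr ?_
  intro z
  simp

theorem a3_ne_zero (v : ℂ) : ∀ᶠ z in 𝓝[a3D v] (0 : ℂ), xw z ≠ 0 := by
  have h := (xw_tendsto.mono_left (a3_le v)).eventually_gt_atTop 0
  filter_upwards [h] with z hz
  exact norm_pos_iff.1 hz

theorem a3_lim_r (v : ℂ) :
    Tendsto (fun z => yw z * (xw z)⁻¹ ^ 2) (𝓝[a3D v] (0 : ℂ)) (𝓝 0) := by
  have ht := a3_lim_t v
  have h1 : Tendsto (fun z => 4 * (xw z)⁻¹ + (xw z)⁻¹ ^ 4) (𝓝[a3D v] (0 : ℂ)) (𝓝 0) := by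
    have := (ht.const_mul 4).add (ht.pow 4)
    simpa using this
  have h2 : Tendsto (fun z => (yw z * (xw z)⁻¹ ^ 2) ^ 2) (𝓝[a3D v] (0 : ℂ)) (𝓝 0) := by
    apply h1.congr'
    filter_upwards [a3_ne_zero v, self_mem_nhdsWithin] with z hz hD
    have w1 := weq z hD.1
    have e1 : (yw z * (xw z)⁻¹ ^ 2) ^ 2 = yw z ^ 2 * (xw z)⁻¹ ^ 4 := by ring
    rw [e1, w1]
    field_simp
  rw [tendsto_zero_iff_norm_tendsto_zero] at h2 ⊢
  have h3 := h2.sqrt
  rw [Real.sqrt_zero] at h3
  refine h3.congr ?_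
  intro z
  rw [norm_pow, Real.sqrt_sq (norm_nonneg _)]

theorem a3_lim_f (v : ℂ) (hv : v ∉ Set.range emb) :
    Tendsto (fun z => a3s v z ^ 2 / 4 - xw (z + v) - xw z) (𝓝[a3D v] (0 : ℂ)) (𝓝 (xw v)) := by
  have ht := a3_lim_t v
  have hr := a3_lim_r v
  have hX := a3_lim_x v hv
  have hY := a3_lim_y v hv
  have h1 : Tendsto (fun z => (2 * (xw z)⁻¹ ^ 2 + 2 * ((yw z * (xw z)⁻¹ ^ 2) * yw (z + v)) +
      4 * xw (z + v) + 4 * ((xw z)⁻¹ * xw (z + v) ^ 2)) /
      (4 * ((xw z)⁻¹ * xw (z + v) - 1) ^ 2)) (𝓝[a3D v] (0 : ℂ)) (𝓝 (xw v)) := by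
    have n1 := (((ht.pow 2).const_mul 2).add ((hr.mul hY).const_mul 2)).add (hX.const_mul 4)
    have n2 := n1.add ((ht.mul (hX.pow 2)).const_mul 4)
    have n3 := (((ht.mul hX).sub_const 1).pow 2).const_mul 4
    have n4 := n2.div n3 (by norm_num)
    have hval : (2 * 0 ^ 2 + 2 * (0 * yw v) + 4 * xw v + 4 * (0 * xw v ^ 2)) /
        (4 * (0 * xw v - 1) ^ 2) = xw v := by
      ring
    rw [hval] at n4
    exact n4
  apply h1.congr'
  filter_upwards [a3_ne_zero v, self_mem_nhdsWithin] with z hz hD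
  obtain ⟨d1, d2, d3⟩ := hD
  have hne : xw (z + v) - xw z ≠ 0 := sub_ne_zero.2 d3
  have w1 := weq z d1
  have w2 := weq (z + v) d2
  have e1 : (xw z)⁻¹ * xw (z + v) - 1 = (xw z)⁻¹ * (xw (z + v) - xw z) := by
    field_simp
  rw [e1, a3s, div_pow]
  have e2 : (2 * (xw z)⁻¹ ^ 2 + 2 * ((yw z * (xw z)⁻¹ ^ 2) * yw (z + v)) +
      4 * xw (z + v) + 4 * ((xw z)⁻¹ * xw (z + v) ^ 2)) =
      (xw z)⁻¹ ^ 2 * (2 + 2 * yw z * yw (z + v) + 4 * xw z ^ 2 * xw (z + v) +
        4 * xw z * xw (z + v) ^ 2) := by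
    field_simp
  rw [e2, mul_pow, mul_left_comm 4, mul_div_mul_left _ _ (pow_ne_zero 2 (inv_ne_zero hz))]
  have key : (yw (z + v) + yw z) ^ 2 / (xw (z + v) - xw z) ^ 2 / 4 - xw (z + v) - xw z =
      ((yw (z + v) + yw z) ^ 2 - 4 * (xw z + xw (z + v)) * (xw (z + v) - xw z) ^ 2) /
      (4 * (xw (z + v) - xw z) ^ 2) := by
    field_simp
    ring
  rw [key]
  congr 1
  linear_combination (-1) * w1 + (-1) * w2

theorem add_x (z v : ℂ) (hz : z ∉ Set.range emb) (hv : v ∉ Set.range emb)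
    (hzv : z + v ∉ Set.range emb) (hx : xw (z + v) ≠ xw z) :
    ((yw (z + v) + yw z) / (xw (z + v) - xw z)) ^ 2 / 4 - xw (z + v) - xw z = xw v :=
  a3_const v hv (fun z => a3s v z ^ 2 / 4 - xw (z + v) - xw z)
    (fun z hz => a3_deriv_f v z hz) (xw v) (a3_lim_f v hv) z ⟨hz, hzv, hx⟩

theorem a3_deriv_g (v z : ℂ) (hv : v ∉ Set.range emb) (hz : z ∈ a3D v) :
    HasDerivAt (fun z => -(yw (z + v) + a3s v z * (xw v - xw (z + v)))) 0 z := by
  have hz' := hz
  obtain ⟨h1, h2, h3⟩ := hz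
  have hne : xw (z + v) - xw z ≠ 0 := sub_ne_zero.2 h3
  have e1 := ((a3_hasDeriv_shift_y v z h2).add
    ((a3_deriv_s v z hz').mul ((a3_hasDeriv_shift_x v z h2).const_sub (xw v)))).neg
  refine e1.congr_deriv ?_
  have e2 := add_x z v h1 hv h2 h3
  have e3 : a3s v z * (xw (z + v) - xw z) = yw (z + v) + yw z := by
    rw [a3s, div_mul_cancel₀ _ hne]
  have e4 : ((yw (z + v) + yw z) / (xw (z + v) - xw z)) = a3s v z := rfl
  rw [e4] at e2
  have w1 := weq z h1
  have w2 := weq (z + v) h2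
  have e5 : a3s v z * (yw (z + v) - yw z) * (xw (z + v) - xw z) =
      yw (z + v) ^ 2 - yw z ^ 2 := by
    linear_combination (yw (z + v) - yw z) * e3
  have e6 : a3s v z * (yw (z + v) - yw z) =
      4 * (xw (z + v) ^ 2 + xw (z + v) * xw z + xw z ^ 2) := by
    apply mul_right_cancel₀ hne
    rw [e5, w1, w2]
    ring
  rw [← e2]
  linear_combination (-(OmC * a3s v z) / 2) * e3 + (OmC / 2) * e6

theorem a3_lim_g (v : ℂ) (hv : v ∉ Set.range emb) :
    Tendsto (fun z => -(yw (z + v) + a3s v z * (xw v - xw (z + v)))) (𝓝[a3D v] (0 : ℂ))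
      (𝓝 (yw v)) := by
  have ht := a3_lim_t v
  have hX := a3_lim_x v hv
  have hY := a3_lim_y v hv
  have hz0 : Tendsto (fun z : ℂ => z) (𝓝[a3D v] (0 : ℂ)) (𝓝 0) :=
    tendsto_id.mono_left nhdsWithin_le_nhds
  have hR := ratio_tendsto.mono_left (a3_le v)
  have hq : Tendsto (fun z => z⁻¹ * (xw (z + v) - xw v)) (𝓝[a3D v] (0 : ℂ))
      (𝓝 (OmC * yw v)) := by
    have h := (xw_deriv v hv).tendsto_slope_zero
    have h2 := h.mono_left (a3_le v)
    refine h2.congr ?_
    intro z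
    rw [smul_eq_mul, add_comm v z]
  have h1 : Tendsto (fun z => -(yw (z + v) +
      ((z * (xw z)⁻¹ * yw (z + v) + z * yw z / xw z) / ((xw z)⁻¹ * xw (z + v) - 1)) *
      (-(z⁻¹ * (xw (z + v) - xw v))))) (𝓝[a3D v] (0 : ℂ)) (𝓝 (yw v)) := by
    have n1 := ((hz0.mul ht).mul hY).add hR
    have n2 := (ht.mul hX).sub_const 1
    have n3 := n1.div n2 (by norm_num)
    have n4 := (hY.add (n3.mul hq.neg)).neg
    have hval : -(yw v + (0 * 0 * yw v + -2 / OmC) / (0 * xw v - 1) * -(OmC * yw v)) = yw v := by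
      have := OmC_ne
      field_simp
      ring
    rw [hval] at n4
    exact n4
  apply h1.congr'
  filter_upwards [a3_ne_zero v, self_mem_nhdsWithin] with z hz hD
  obtain ⟨d1, d2, d3⟩ := hD
  have hz0 : z ≠ 0 := by
    rintro rfl
    exact d1 ⟨0, by simp⟩
  have hne : xw (z + v) - xw z ≠ 0 := sub_ne_zero.2 d3
  have e1 : (xw z)⁻¹ * xw (z + v) - 1 = (xw z)⁻¹ * (xw (z + v) - xw z) := by
    field_simp
  have e2 : z * (xw z)⁻¹ * yw (z + v) + z * yw z / xw z = (xw z)⁻¹ * (z * (yw (z + v) + yw z)) := by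
    field_simp
  rw [e1, e2, mul_div_mul_left _ _ (inv_ne_zero hz), a3s]
  field_simp
  ring

theorem add_y (z v : ℂ) (hz : z ∉ Set.range emb) (hv : v ∉ Set.range emb)
    (hzv : z + v ∉ Set.range emb) (hx : xw (z + v) ≠ xw z) :
    -(yw (z + v) + (yw (z + v) + yw z) / (xw (z + v) - xw z) * (xw v - xw (z + v))) = yw v :=
  a3_const v hv (fun z => -(yw (z + v) + a3s v z * (xw v - xw (z + v))))
    (fun z hz => a3_deriv_g v z hv hz) (yw v) (a3_lim_g v hv) z ⟨hz, hzv, hx⟩

end CM27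

end

/-! ### part A4 -/

section

set_option autoImplicit false

open scoped ComplexConjugate
open Filter Topology

namespace CM27

/-! ## [AN-A4] `pt` is a homomorphism with kernel `ℤ[ω]` (file A4.lean; uses A2, A3)

* generic case: for `z, v, z + v ∉ L` and `x(z+v) ≠ x(z)`: `pt (z+v) + (- pt z) = pt v` by `add_x`, `add_y` and
  Mathlib's formulas (`WeierstrassCurve.Affine.Point.add_some`, slope of two points with different `x`,
  `E : a₃ = 1`, negation `(x, Y) ↦ (x, -Y-1)`; in terms of `y = 2Y+1`: slope `= s/2`).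
* general case: if `z ∈ L` or `v ∈ L` use periodicity; if `z + v ∈ L` use `pt (-z) = - pt z`. Otherwise choose
  `t` outside a countable set such that the pairs `(z+t, w-t)`.. are generic:
  `pt(z+v) = pt((z+t)+(v-t)) = pt(z+t) + pt(v-t) = pt z + pt t + pt v + pt(-t)`. -/

theorem a4_mem_add (z : ℂ) (a : Eis) : z + emb a ∈ Set.range emb ↔ z ∈ Set.range emb := by
  constructor
  · rintro ⟨b, hb⟩
    exact ⟨b - a, by rw [map_sub, hb]; ring⟩
  · rintro ⟨b, hb⟩
    exact ⟨b + a, by rw [map_add, hb]⟩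

theorem a4_mem_neg (z : ℂ) : -z ∈ Set.range emb ↔ z ∈ Set.range emb := by
  constructor
  · rintro ⟨b, hb⟩
    exact ⟨-b, by rw [map_neg, hb, neg_neg]⟩
  · rintro ⟨b, hb⟩
    exact ⟨-b, by rw [map_neg, hb]⟩

theorem a4_countable : (Set.range emb).Countable := by
  have : Countable Eis := by
    have h : Function.Injective (fun a : Eis => (a.re, a.im)) := by
      intro a b hab
      have h1 := congrArg Prod.fst hab
      have h2 := congrArg Prod.snd hab
      ext
      · exact h1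
      · exact h2
    exact h.countable
  exact Set.countable_range _

theorem pt_of_not_mem (z : ℂ) (hz : z ∉ Set.range emb) :
    ∃ h, pt z = .some (xw z) ((yw z - 1) / 2) h := by
  have h : (E ℂ).toAffine.Nonsingular (xw z) ((yw z - 1) / 2) := by
    apply nonsing
    rw [← weq z hz]
    ring
  refine ⟨h, ?_⟩
  unfold pt
  rw [dif_pos ⟨hz, h⟩]

theorem pt_emb (a : Eis) : pt (emb a) = 0 := by
  unfold pt
  rw [dif_neg]
  · rfl
  · rintro ⟨h, -⟩
    exact h ⟨a, rfl⟩

theorem pt_eq_zero_iff (z : ℂ) : pt z = 0 ↔ z ∈ Set.range emb := by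
  constructor
  · intro h
    by_contra hz
    obtain ⟨h1, h2⟩ := pt_of_not_mem z hz
    rw [h2] at h
    exact WeierstrassCurve.Affine.Point.some_ne_zero h1 h
  · rintro ⟨a, rfl⟩
    exact pt_emb a

theorem a4_negY (x Y : ℂ) : (E ℂ).toAffine.negY x Y = -Y - 1 := by
  simp [WeierstrassCurve.Affine.negY, E]

theorem a4_some_congr {x x' Y Y' : ℂ} (h : (E ℂ).toAffine.Nonsingular x Y)
    (h' : (E ℂ).toAffine.Nonsingular x' Y') (hx : x = x') (hY : Y = Y') :
    (WeierstrassCurve.Affine.Point.some x Y h : (E ℂ).toAffine.Point) = .some x' Y' h' := by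
  subst hx
  subst hY
  rfl

theorem pt_neg (z : ℂ) : pt (-z) = - pt z := by
  by_cases hz : z ∈ Set.range emb
  · rw [(pt_eq_zero_iff z).2 hz, (pt_eq_zero_iff (-z)).2 ((a4_mem_neg z).2 hz)]
    rfl
  · have hz' : -z ∉ Set.range emb := fun h => hz ((a4_mem_neg z).1 h)
    obtain ⟨h1, h2⟩ := pt_of_not_mem z hz
    obtain ⟨h3, h4⟩ := pt_of_not_mem (-z) hz'
    rw [h2, h4, WeierstrassCurve.Affine.Point.neg_some]
    apply a4_some_congr
    · exact xw_neg z
    · rw [a4_negY, yw_neg]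
      ring

theorem a4_pt_add_emb (z : ℂ) (a : Eis) : pt (z + emb a) = pt z := by
  by_cases hz : z ∈ Set.range emb
  · rw [(pt_eq_zero_iff z).2 hz, (pt_eq_zero_iff (z + emb a)).2 ((a4_mem_add z a).2 hz)]
  · have hz' : z + emb a ∉ Set.range emb := fun h => hz ((a4_mem_add z a).1 h)
    obtain ⟨h1, h2⟩ := pt_of_not_mem z hz
    obtain ⟨h3, h4⟩ := pt_of_not_mem _ hz'
    rw [h2, h4]
    apply a4_some_congr
    · exact xw_add z a
    · rw [yw_add]

/-- generic addition -/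
theorem a4_generic (z v : ℂ) (hz : z ∉ Set.range emb) (hv : v ∉ Set.range emb)
    (hzv : z + v ∉ Set.range emb) (hx : xw (z + v) ≠ xw z) : pt (z + v) = pt z + pt v := by
  have key : pt (z + v) + (- pt z) = pt v := by
    rw [← pt_neg]
    have hz' : -z ∉ Set.range emb := fun h => hz ((a4_mem_neg z).1 h)
    obtain ⟨h1, h2⟩ := pt_of_not_mem (z + v) hzv
    obtain ⟨h3, h4⟩ := pt_of_not_mem (-z) hz'
    obtain ⟨h5, h6⟩ := pt_of_not_mem v hv
    have hx' : xw (z + v) ≠ xw (-z) := by rwa [xw_neg]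
    rw [h2, h4, h6, WeierstrassCurve.Affine.Point.add_of_X_ne hx']
    have hne : xw (z + v) - xw z ≠ 0 := sub_ne_zero.2 hx
    have hs : (E ℂ).toAffine.slope (xw (z + v)) (xw (-z)) ((yw (z + v) - 1) / 2)
        ((yw (-z) - 1) / 2) = (yw (z + v) + yw z) / (xw (z + v) - xw z) / 2 := by
      rw [WeierstrassCurve.Affine.slope_of_X_ne hx', xw_neg, yw_neg]
      field_simp
      ring
    have hax : (E ℂ).toAffine.addX (xw (z + v)) (xw (-z))
        ((E ℂ).toAffine.slope (xw (z + v)) (xw (-z)) ((yw (z + v) - 1) / 2)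
          ((yw (-z) - 1) / 2)) = xw v := by
      rw [hs, ← add_x z v hz hv hzv hx, xw_neg]
      simp only [WeierstrassCurve.Affine.addX, E]
      ring
    apply a4_some_congr
    · exact hax
    · unfold WeierstrassCurve.Affine.addY WeierstrassCurve.Affine.negAddY
      rw [a4_negY, hax, hs, ← add_y z v hz hv hzv hx]
      ring
  rw [← key]
  abel

theorem a4_exists_avoid (S : Set ℂ) (hS : S.Countable) : ∃ t : ℂ, t ∉ S := by
  have h : (Sᶜ).Nonempty := (hS.dense_compl ℝ).nonempty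
  exact h

theorem pt_add (z v : ℂ) : pt (z + v) = pt z + pt v := by
  by_cases hz : z ∈ Set.range emb
  · obtain ⟨a, rfl⟩ := hz
    rw [pt_emb, zero_add, add_comm, a4_pt_add_emb]
  by_cases hv : v ∈ Set.range emb
  · obtain ⟨a, rfl⟩ := hv
    rw [pt_emb, add_zero, a4_pt_add_emb]
  by_cases hzv : z + v ∈ Set.range emb
  · rw [(pt_eq_zero_iff _).2 hzv]
    obtain ⟨a, ha⟩ := hzv
    have h1 : v = -z + emb a := by rw [ha]; ring
    rw [h1, a4_pt_add_emb, pt_neg, add_neg_cancel]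
  -- the generic translation
  have c1 : ((fun t : ℂ => z + t) ⁻¹' Set.range emb).Countable :=
    a4_countable.preimage_of_injOn (fun a _ b _ h => add_left_cancel h)
  have c2 : ((fun t : ℂ => v - t) ⁻¹' Set.range emb).Countable :=
    a4_countable.preimage_of_injOn (fun a _ b _ h => sub_right_injective h)
  have c3 : ((fun t : ℂ => z + t) ⁻¹' {s : ℂ | s ∉ Set.range emb ∧ xw s = xw (z + v)}).Countable :=
    (countable_xw_eq _).preimage_of_injOn (fun a _ b _ h => add_left_cancel h)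
  have c4 := countable_xw_add_eq z hz
  have c5 : ((fun t : ℂ => -t) ⁻¹'
      {s : ℂ | s ∉ Set.range emb ∧ s + v ∉ Set.range emb ∧ xw (s + v) = xw s}).Countable :=
    (countable_xw_add_eq v hv).preimage_of_injOn (fun a _ b _ h => neg_injective h)
  obtain ⟨t, ht⟩ := a4_exists_avoid _
    (((((a4_countable.union c1).union c2).union c3).union c4).union c5)
  simp only [Set.mem_union, not_or] at ht
  obtain ⟨⟨⟨⟨⟨h0, h1⟩, h2⟩, h3⟩, h4⟩, h5⟩ := ht
  have n1 : z + t ∉ Set.range emb := h1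
  have n2 : v - t ∉ Set.range emb := h2
  have n0' : -t ∉ Set.range emb := fun h => h0 ((a4_mem_neg t).1 h)
  have e1 : pt (z + v) = pt (z + t) + pt (v - t) := by
    have h := a4_generic (z + t) (v - t) n1 n2 (by rwa [show z + t + (v - t) = z + v by ring])
      (by
        rw [show z + t + (v - t) = z + v by ring]
        intro h
        exact h3 ⟨n1, h.symm⟩)
    rwa [show z + t + (v - t) = z + v by ring] at h
  have n1' : t + z ∉ Set.range emb := by rwa [add_comm]
  have e2 : pt (z + t) = pt t + pt z := by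
    rw [add_comm z t]
    exact a4_generic t z h0 hz n1' (fun h => h4 ⟨h0, n1', h⟩)
  have n2' : -t + v ∉ Set.range emb := by rwa [show -t + v = v - t by ring]
  have e3 : pt (v - t) = pt (-t) + pt v := by
    rw [show v - t = -t + v by ring]
    exact a4_generic (-t) v n0' hv n2' (fun h => h5 ⟨n0', n2', h⟩)
  rw [e1, e2, e3, pt_neg]
  abel

theorem pt_eq_iff (z v : ℂ) : pt z = pt v ↔ z - v ∈ Set.range emb := by
  rw [← pt_eq_zero_iff, sub_eq_add_neg, pt_add, pt_neg, ← sub_eq_add_neg, sub_eq_zero]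

theorem xw_eq_iff (z v : ℂ) (hz : z ∉ Set.range emb) (hv : v ∉ Set.range emb) :
    xw z = xw v ↔ z - v ∈ Set.range emb ∨ z + v ∈ Set.range emb := by
  constructor
  · intro h
    have h1 := weq z hz
    have h2 := weq v hv
    rw [h, ← h2] at h1
    obtain ⟨p1, p2⟩ := pt_of_not_mem z hz
    rcases sq_eq_sq_iff_eq_or_eq_neg.1 h1 with h3 | h3
    · left
      rw [← pt_eq_iff]
      obtain ⟨p3, p4⟩ := pt_of_not_mem v hv
      rw [p2, p4]
      exact a4_some_congr _ _ h (by rw [h3])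
    · right
      have hv' : -v ∉ Set.range emb := fun h => hv ((a4_mem_neg v).1 h)
      obtain ⟨p3, p4⟩ := pt_of_not_mem (-v) hv'
      have h4 : pt z = pt (-v) := by
        rw [p2, p4]
        exact a4_some_congr _ _ (by rw [h, xw_neg]) (by rw [h3, yw_neg])
      have h5 := (pt_eq_iff z (-v)).1 h4
      rwa [sub_neg_eq_add] at h5
  · rintro (⟨a, ha⟩ | ⟨a, ha⟩)
    · have h1 : z = v + emb a := by rw [ha]; ring
      rw [h1, xw_add]
    · have h1 : z = -v + emb a := by rw [ha]; ring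
      rw [h1, xw_add, xw_neg]

theorem yw_eq_zero_iff (z : ℂ) (hz : z ∉ Set.range emb) : yw z = 0 ↔ 2 * z ∈ Set.range emb := by
  have hz' : -z ∉ Set.range emb := fun h => hz ((a4_mem_neg z).1 h)
  obtain ⟨p1, p2⟩ := pt_of_not_mem z hz
  obtain ⟨p3, p4⟩ := pt_of_not_mem (-z) hz'
  have h1 : yw z = 0 ↔ pt z = pt (-z) := by
    rw [p2, p4]
    constructor
    · intro h
      exact a4_some_congr _ _ (xw_neg z).symm (by rw [yw_neg, h, neg_zero])
    · intro h
      rw [WeierstrassCurve.Affine.Point.some.injEq] at h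
      have h2 := h.2
      rw [yw_neg] at h2
      linear_combination h2
  rw [h1, pt_eq_iff]
  rw [show z - -z = 2 * z by ring]

/-- duplication -/
theorem xw_two (z : ℂ) (hz : Off z) : xw (2 * z) * (4 * xw z ^ 3 + 1) = xw z * (xw z ^ 3 - 2) := by
  have h2z : 2 * z ∉ Set.range emb := hz
  have hz1 : z ∉ Set.range emb := by
    rintro ⟨a, ha⟩
    exact h2z ⟨2 * a, by rw [map_mul, ha, map_ofNat]⟩
  have hy : yw z ≠ 0 := fun h => h2z ((yw_eq_zero_iff z hz1).1 h)
  have hw := weq z hz1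
  obtain ⟨p1, p2⟩ := pt_of_not_mem z hz1
  obtain ⟨p3, p4⟩ := pt_of_not_mem (2 * z) h2z
  have h1 : pt (2 * z) = pt z + pt z := by rw [two_mul, pt_add]
  have hne : (yw z - 1) / 2 ≠ (E ℂ).toAffine.negY (xw z) ((yw z - 1) / 2) := by
    rw [a4_negY]
    intro h
    apply hy
    linear_combination h
  rw [p2, p4, WeierstrassCurve.Affine.Point.add_self_of_Y_ne hne,
    WeierstrassCurve.Affine.Point.some.injEq] at h1
  have h2 := h1.1
  rw [WeierstrassCurve.Affine.slope_of_Y_ne rfl hne, a4_negY] at h2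
  simp only [WeierstrassCurve.Affine.addX, E] at h2
  have h3 : (3 * xw z ^ 2 + 2 * 0 * xw z + 0 - 0 * ((yw z - 1) / 2)) /
      ((yw z - 1) / 2 - (-((yw z - 1) / 2) - 1)) = 3 * xw z ^ 2 / yw z := by
    congr 1
    · ring
    · ring
  rw [h3] at h2
  have h4 : xw (2 * z) * yw z ^ 2 = 9 * xw z ^ 4 - 2 * xw z * yw z ^ 2 := by
    rw [h2]
    field_simp
    ring
  rw [← hw, h4, hw]
  ring

end CM27

end

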