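import Pool.Agent.MP_9ab903_nt.AN.A4

set_option autoImplicit false

open scoped ComplexConjugate
open Filter Topology

namespace CM27

/-! ## [AN-A5] surjectivity of the uniformisation (file A5.lean; uses A2, A4)

* `liouville`: `Differentiable.apply_eq_apply_of_bounded`, `IsZLattice.isCompact_range_of_periodic L0.lattice`
  (see the proof of `relation_eq_zero` at the end of Mathlib's Elliptic/Weierstrass.lean), `mem_L0`.
* `xw_surj`: if `x(z) ≠ c` for all `z ∉ L`, then `h(z) = (x(z) - c)⁻¹` for `z ∉ L`, `h = 0` on `L`, is entire (near a lattice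
  point `l`: `h = (z-l)² / (OmC⁻² (1 + (z-l)² ℘Except(z)) - c (z-l)²)`), periodic, so constant `= 0`: contradiction. -/

theorem liouville (f : ℂ → ℂ) (hf : Differentiable ℂ f) (hp : ∀ z (a : Eis), f (z + emb a) = f z)
    (z v : ℂ) : f z = f v := by
  refine hf.apply_eq_apply_of_bounded ((IsZLattice.isCompact_range_of_periodic L0.lattice f
    hf.continuous ?_).isBounded) z v
  intro z w hw
  obtain ⟨a, rfl⟩ := (mem_L0 w).1 hw
  exact hp z a

theorem a5_closed : IsClosed (Set.range emb) := by
  have h : (Set.range emb : Set ℂ) = (L0.lattice : Set ℂ) := by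
    ext z
    exact (mem_L0 z).symm
  rw [h]
  exact L0.isClosed_lattice

theorem a5_punct : ∀ᶠ z : ℂ in 𝓝[≠] 0, z ∉ Set.range emb := by
  have h := L0.compl_lattice_sdiff_singleton_mem_nhds 0
  rw [eventually_nhdsWithin_iff]
  filter_upwards [h] with z hz hz0 hmem
  exact hz ⟨(mem_L0 z).2 hmem, hz0⟩

theorem a5_mem_add (z : ℂ) (a : Eis) : z + emb a ∈ Set.range emb ↔ z ∈ Set.range emb := by
  constructor
  · rintro ⟨b, hb⟩
    exact ⟨b - a, by rw [map_sub, hb]; ring⟩
  · rintro ⟨b, rfl⟩
    exact ⟨b + a, by rw [map_add]⟩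

theorem xw_surj (c : ℂ) : ∃ z : ℂ, z ∉ Set.range emb ∧ xw z = c := by
  classical
  by_contra hcon
  push Not at hcon
  let h : ℂ → ℂ := fun z => if z ∈ Set.range emb then 0 else (xw z - c)⁻¹
  have hper : ∀ z (a : Eis), h (z + emb a) = h z := by
    intro z a
    simp only [h, a5_mem_add, xw_add]
  have hoff : ∀ z, z ∉ Set.range emb → DifferentiableAt ℂ h z := by
    intro z hz
    have h1 : DifferentiableAt ℂ (fun z => (xw z - c)⁻¹) z :=
      ((xw_deriv z hz).differentiableAt.sub_const c).inv (sub_ne_zero.2 (hcon z hz))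
    refine h1.congr_of_eventuallyEq ?_
    filter_upwards [a5_closed.isOpen_compl.mem_nhds hz] with v hv
    simp only [h]
    rw [if_neg hv]
  have h0 : DifferentiableAt ℂ h 0 := by
    refine (Complex.analyticAt_of_differentiable_on_punctured_nhds_of_continuousAt ?_ ?_).differentiableAt
    · filter_upwards [a5_punct] with z hz
      exact hoff z hz
    · rw [continuousAt_iff_punctured_nhds]
      have h00 : h 0 = 0 := by
        simp only [h]
        rw [if_pos ⟨0, map_zero _⟩]
      rw [h00]
      have h1 : Tendsto (fun z => xw z - c) (𝓝[≠] 0) (Bornology.cobounded ℂ) := by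
        rw [← tendsto_norm_atTop_iff_cobounded]
        have h2 : Tendsto (fun z => ‖xw z‖ - ‖c‖) (𝓝[≠] 0) atTop :=
          tendsto_atTop_add_const_right _ _ xw_tendsto
        exact tendsto_atTop_mono (fun z => norm_sub_norm_le _ _) h2
      have h3 : Tendsto (fun z => (xw z - c)⁻¹) (𝓝[≠] 0) (𝓝 0) :=
        tendsto_inv₀_cobounded.comp h1
      refine h3.congr' ?_
      filter_upwards [a5_punct] with z hz
      simp only [h]
      rw [if_neg hz]
  have hdiff : Differentiable ℂ h := by
    intro z
    by_cases hz : z ∈ Set.range emb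
    · obtain ⟨a, rfl⟩ := hz
      have h1 : h = fun v => h (v - emb a) := by
        funext v
        have := hper (v - emb a) a
        rw [sub_add_cancel] at this
        exact this
      rw [h1]
      have h2 : DifferentiableAt ℂ h (emb a - emb a) := by rw [sub_self]; exact h0
      exact DifferentiableAt.comp (f := fun v => v - emb a) (emb a) h2
        (differentiableAt_fun_id.sub_const (emb a))
    · exact hoff z hz
  have hhalf : (1 / 2 : ℂ) ∉ Set.range emb := by
    intro hm
    have := L0.ω₁_div_two_notMem_lattice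
    exact this ((mem_L0 _).2 hm)
  have h1 := liouville h hdiff hper (1 / 2) 0
  have h2 : h 0 = 0 := by
    simp only [h]
    rw [if_pos ⟨0, map_zero _⟩]
  have h3 : h (1 / 2) = (xw (1 / 2) - c)⁻¹ := by
    simp only [h]
    rw [if_neg hhalf]
  rw [h2, h3] at h1
  exact inv_ne_zero (sub_ne_zero.2 (hcon _ hhalf)) h1

theorem pt_surj (P : (E ℂ).toAffine.Point) : ∃ z, pt z = P := by
  cases P with
  | zero => exact ⟨0, (pt_eq_zero_iff 0).2 ⟨0, map_zero _⟩⟩
  | some x y hxy =>
    obtain ⟨z, hz, hx⟩ := xw_surj x
    have heq := (WeierstrassCurve.Affine.equation_iff _ _).1 hxy.1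
    simp only [E] at heq
    have h1 := weq z hz
    rw [hx] at h1
    have h2 : (yw z - (2 * y + 1)) * (yw z + (2 * y + 1)) = 0 := by
      linear_combination h1 - 4 * heq
    rcases mul_eq_zero.1 h2 with h | h
    · refine ⟨z, ?_⟩
      obtain ⟨h', hpt⟩ := pt_of_not_mem z hz
      rw [hpt]
      have h3 : (yw z - 1) / 2 = y := by linear_combination h / 2
      subst hx
      subst h3
      rfl
    · refine ⟨-z, ?_⟩
      have hz' : -z ∉ Set.range emb := by
        rintro ⟨a, ha⟩
        exact hz ⟨-a, by rw [map_neg, ha, neg_neg]⟩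
      obtain ⟨h', hpt⟩ := pt_of_not_mem (-z) hz'
      rw [hpt]
      have h3 : (yw (-z) - 1) / 2 = y := by
        rw [yw_neg]
        linear_combination -h / 2
      have h4 : xw (-z) = x := by rw [xw_neg, hx]
      subst h4
      subst h3
      rfl

end CM27
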