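import Pool.Agent.MP_9ab903_nt.AN.Z
import Pool.Agent.MP_9ab903_nt.Disc
import Pool.Agent.MP_ae0bd0_nt.CM.F5

/-!
# MP_9ab903_nt: the analytic half of the 2-part of the strong Birch and Swinnerton-Dyer conjecture

`analytic_final`: the square of the quotient `L(E/F, 1) √|Δ(F)| N² / Ω(E/F)` is a rational number which
is a 2-adic unit, for every odd `N`.
-/

set_option autoImplicit false

open ArithmeticFunction Filter IsDedekindDomain NumberField
open scoped ComplexConjugate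

namespace CM27

theorem fin_value {m : ℕ} [NeZero m] (hm : Odd m) (χ : DirichletCharacter ℂ m) :
    ∃ Φ : ℂ → ℂ, Differentiable ℂ Φ ∧
      (∀ s : ℂ, 3 / 2 < s.re → LSeriesSummable (fun k => tw χ k) s ∧
        Φ s = LSeries (fun k => tw χ k) s) ∧ Φ 1 = - (OmC * WW χ) := by
  have h4 : (fun k => tw χ k) = coef χ.primitiveCharacter := by
    funext k
    rw [tw_apply, pval, coef]
  have hodd : Odd χ.conductor := Odd.of_dvd_nat hm χ.conductor_dvd_level
  obtain ⟨Φ, hΦ, hs, -⟩ := G_entire hodd χ.primitiveCharacter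
  refine ⟨Φ, hΦ, ?_, ?_⟩
  · rw [h4]; exact hs
  · exact G_value hm χ Φ hΦ.differentiableOn (fun s hs' => (hs s hs').2)

theorem fin_OmC_sq : OmC ^ 2 = - ((Om : ℂ) ^ 2) := by
  rw [OmC, mul_pow, Complex.I_sq]
  ring

theorem padic_unit_mul {a b : ℚ} (ha : a ≠ 0) (hb : b ≠ 0) (ha' : padicValRat 2 a = 0)
    (hb' : padicValRat 2 b = 0) : padicValRat 2 (a * b) = 0 := by
  rw [padicValRat.mul ha hb, ha', hb', add_zero]

theorem padic_unit_odd {N : ℕ} (hN : Odd N) : padicValRat 2 (N : ℚ) = 0 := by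
  rw [padicValRat.of_nat]
  have : ¬ 2 ∣ N := by
    rw [← even_iff_two_dvd, Nat.not_even_iff_odd]
    exact hN
  exact_mod_cast padicValNat.eq_zero_of_not_dvd this

theorem analytic_final (m : ℕ) [NeZero m] (hm : GoodLevel m) (M : Type) [Field M] [NumberField M]
    [IsCyclotomicExtension {m} ℚ M] (F : IntermediateField ℚ M) (n : ℕ)
    (h : Module.finrank ℚ F = 2 ^ n) :
    ∃ Φ : ℂ → ℂ, Differentiable ℂ Φ ∧
      (∀ s : ℂ, 3 / 2 < s.re → LSeriesSummable (fun k => ((E F).LFunction k : ℂ)) s ∧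
        Φ s = (E F).LSeries s) ∧ Φ 1 ≠ 0 ∧
      ∀ N : ℕ, Odd N → ∃ q : ℚ, q ≠ 0 ∧ padicValRat 2 q = 0 ∧
        Φ 1 ^ 2 * ((|(NumberField.discr F : ℝ)| : ℝ) : ℂ) * (N : ℂ) ^ 4 =
          q * ((period F : ℝ) : ℂ) ^ 2 := by
  have hodd : Odd m := GoodLevel.odd hm
  have key : ∀ χ ∈ chars m F, ∃ Φ : ℂ → ℂ, Differentiable ℂ Φ ∧
      (∀ s : ℂ, 3 / 2 < s.re → LSeriesSummable (fun k => tw χ k) s ∧
        Φ s = LSeries (fun k => tw χ k) s) ∧ Φ 1 = - (OmC * WW χ) :=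
    fun χ _ => fin_value hodd χ
  choose! Φ hΦ1 hΦ2 hΦ3 using key
  have hLC : (fun k => ((E F).LFunction k : ℂ)) = fun k => (∏ χ ∈ chars m F, tw χ) k := by
    funext k
    rw [← LC_apply, LC_eq m hm M F]
  obtain ⟨q, hq0, hq2, hq⟩ := analytic_main m hm M F n h
  -- the value of the product at `1`
  have hval : (∏ χ ∈ chars m F, Φ χ 1) ^ 2 = (-1) ^ (2 ^ n) * (Om : ℂ) ^ (2 * 2 ^ n) * q := by
    rw [Finset.prod_congr rfl hΦ3, ← Finset.prod_pow]
    have e1 : ∀ χ ∈ chars m F, (-(OmC * WW χ)) ^ 2 = OmC ^ 2 * WW χ ^ 2 := by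
      intro χ _
      ring
    rw [Finset.prod_congr rfl e1, Finset.prod_mul_distrib, hq, Finset.prod_const, card_chars, h,
      fin_OmC_sq, neg_pow, ← pow_mul]
  have hOm : (Om : ℂ) ≠ 0 := by exact_mod_cast Om_pos.ne'
  have hne : ∏ χ ∈ chars m F, Φ χ 1 ≠ 0 := by
    intro h0
    rw [h0] at hval
    have h1 : ((-1 : ℂ)) ^ (2 ^ n) * (Om : ℂ) ^ (2 * 2 ^ n) * q ≠ 0 :=
      mul_ne_zero (mul_ne_zero (pow_ne_zero _ (by norm_num)) (pow_ne_zero _ hOm))
        (by exact_mod_cast hq0)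
    exact h1 (by rw [← hval]; norm_num)
  refine ⟨fun s => ∏ χ ∈ chars m F, Φ χ s, ?_, ?_, hne, ?_⟩
  · exact Differentiable.fun_finsetProd hΦ1
  · intro s hs
    obtain ⟨h1, h2⟩ := LSeries_prod (chars m F) (fun χ => tw χ) s
      (fun χ hχ => (hΦ2 χ hχ s hs).1)
    rw [hLC]
    refine ⟨h1, ?_⟩
    have h3 : (E F).LSeries s = LSeries (fun k => ((E F).LFunction k : ℂ)) s := rfl
    rw [h3, hLC, h2]
    exact Finset.prod_congr rfl fun χ hχ => (hΦ2 χ hχ s hs).2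
  · intro N hN
    obtain ⟨r, hr⟩ := period_sq F
    rw [h] at hr
    have hrC : ((period F : ℝ) : ℂ) ^ 2 = 3 ^ r * (Om : ℂ) ^ (2 * 2 ^ n) := by
      exact_mod_cast congrArg (fun t : ℝ => (t : ℂ)) hr
    set D : ℕ := (NumberField.discr F).natAbs with hD
    have hDodd : Odd D := disc_odd m hodd M F
    have hDC : ((|(NumberField.discr F : ℝ)| : ℝ) : ℂ) = (D : ℂ) := by
      have : |(NumberField.discr F : ℝ)| = (D : ℝ) := by
        rw [hD, Nat.cast_natAbs, Int.cast_abs]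
      rw [this]
      push_cast
      rfl
    have hD0 : (D : ℚ) ≠ 0 := by exact_mod_cast hDodd.pos.ne'
    have hN0 : (N : ℚ) ≠ 0 := by exact_mod_cast hN.pos.ne'
    have h30 : ((3 : ℚ) ^ r) ≠ 0 := pow_ne_zero _ (by norm_num)
    have h10 : ((-1 : ℚ) ^ (2 ^ n)) ≠ 0 := pow_ne_zero _ (by norm_num)
    have v1 : padicValRat 2 ((-1 : ℚ) ^ (2 ^ n)) = 0 := by
      rw [padicValRat.pow]
      simp
    have v3 : padicValRat 2 ((3 : ℚ) ^ r)⁻¹ = 0 := by
      rw [padicValRat.inv, padicValRat.pow]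
      have : padicValRat 2 (3 : ℚ) = 0 := by
        have := padic_unit_odd (N := 3) (by decide)
        exact_mod_cast this
      rw [this]
      simp
    have vN : padicValRat 2 ((N : ℚ) ^ 4) = 0 := by
      rw [padicValRat.pow, padic_unit_odd hN]
      simp
    refine ⟨(-1) ^ (2 ^ n) * q * D * (N : ℚ) ^ 4 * (3 ^ r)⁻¹, ?_, ?_, ?_⟩
    · exact mul_ne_zero (mul_ne_zero (mul_ne_zero (mul_ne_zero h10 hq0) hD0) (pow_ne_zero _ hN0))
        (inv_ne_zero h30)
    · refine padic_unit_mul (mul_ne_zero (mul_ne_zero (mul_ne_zero h10 hq0) hD0)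
        (pow_ne_zero _ hN0)) (inv_ne_zero h30) ?_ v3
      refine padic_unit_mul (mul_ne_zero (mul_ne_zero h10 hq0) hD0) (pow_ne_zero _ hN0) ?_ vN
      refine padic_unit_mul (mul_ne_zero h10 hq0) hD0 ?_ (padic_unit_odd hDodd)
      exact padic_unit_mul h10 hq0 v1 hq2
    · rw [hval, hDC, hrC]
      push_cast
      have h3C : ((3 : ℂ) ^ r) ≠ 0 := pow_ne_zero _ (by norm_num)
      field_simp

end CM27
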